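import Pool.Agent.P.MP_9321be_ag.SN.Tay
import Pool.Agent.P.MP_9321be_ag.ND.ZLink

/-!
The zeta function only depends on the analytic contact class.
-/

set_option linter.unusedSectionVars false

namespace Pool.Agent.P.MP_9321be_ag.SN

open MvPolynomial Filter Topology Asymptotics ND Set

variable {σ τ : Type} [Fintype σ] [Fintype τ]

/-- The measure of the jets of level `M` along which `f` has order at least `k`. -/
noncomputable def ms (f : MvPolynomial σ ℂ) (M k : ℕ) : MM :=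
  pr {x : σ → TR M | (∀ i, tt M ∣ x i) ∧ tt M ^ k ∣ aeval x f}

theorem cons_tt {M : ℕ} : Cons {x : σ → TR M | ∀ i, tt M ∣ x i} :=
  cons_forall fun i => (CFM.id.apply i).cons_dvd _

theorem cfm_aeval {M : ℕ} (f : MvPolynomial σ ℂ) : CFM fun x : σ → TR M => aeval x f :=
  CFM.aeval (fun i => CFM.id.apply i) f

theorem cons_ms (f : MvPolynomial σ ℂ) (M k : ℕ) :
    Cons {x : σ → TR M | (∀ i, tt M ∣ x i) ∧ tt M ^ k ∣ aeval x f} :=
  cons_tt.and ((cfm_aeval f).cons_dvd _)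

theorem ms_level (f : MvPolynomial σ ℂ) {M M' k : ℕ} (h : M ≤ M') (hk : k ≤ M + 1) :
    ms f M' k = ms f M k := by
  let π : (σ → TR M') →ₗ[ℂ] σ → TR M := LinearMap.pi fun i =>
    (Link.trunc h).toLinearMap ∘ₗ LinearMap.proj i
  have hπ : Function.Surjective π := fun y => by
    choose q hq using fun i => mkT_surjective (y i)
    exact ⟨fun i => mkT _ (q i), funext fun i => (Link.trunc_mk h _).trans (hq i)⟩
  refine Eq.trans (pr_congr fun x => ?_) (pr_surj π hπ (cons_ms f M k))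
  have e : aeval (π x) f = Link.trunc h (aeval x f) := by
    rw [← AlgHom.comp_apply, comp_aeval]
    rfl
  have e1 : ∀ i, tt M ∣ π x i ↔ tt M' ∣ x i := fun i => by
    have := Link.dvd_trunc h (k := 1) (by omega) (x i)
    rwa [pow_one, pow_one] at this
  show _ ↔ (∀ i, tt M ∣ π x i) ∧ tt M ^ k ∣ aeval (π x) f
  simp only [e, e1, Link.dvd_trunc h hk]

theorem coeff_zeta_ms (f : MvPolynomial σ ℂ) {l : ℕ} (hl : l ≠ 0) :
    PowerSeries.coeff l (zeta f) = ms f l l - ms f (l + 1) (l + 1) := by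
  classical
  rw [t_Link σ f, coeff_Zs _ _ hl, ← ms_level f (show l ≤ 2 * l by omega) l.le_succ,
    ← ms_level f (show l + 1 ≤ 2 * l by omega) (l + 1).le_succ, ms,
    pr_split (cons_ms f _ l) ((cfm_aeval f).cons_dvd (tt _ ^ (l + 1))), ms, eq_sub_iff_add_eq,
    add_comm]
  congr 1
  · exact pr_congr fun x => ⟨fun h => ⟨h.2, h.1, (pow_dvd_pow _ l.le_succ).trans h.2⟩,
      fun h => ⟨h.2.1, h.1⟩⟩
  · exact pr_congr fun x => by simp only [ordEq]; tauto

theorem coeff_zero_zeta (f : MvPolynomial σ ℂ) : PowerSeries.coeff 0 (zeta f) = 0 := by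
  rw [zeta, series, PowerSeries.coeff_mk, if_pos rfl]

theorem exists_jets {Φ : (σ → ℂ) → τ → ℂ} {Ψ : (τ → ℂ) → σ → ℂ} (a1 : AnalyticAt ℂ Φ 0)
    (a4 : Φ 0 = 0) (a6 : ∀ᶠ y in 𝓝 0, Ψ (Φ y) = y) {M : ℕ} {P : τ → MvPolynomial σ ℂ}
    {Q : σ → MvPolynomial τ ℂ} (hP : ∀ j, Apx (M + 1) (fun y => eval y (P j)) fun y => Φ y j)
    (hQ : ∀ j, Apx (M + 1) (fun y => eval y (Q j)) fun y => Ψ y j) {x : σ → TR M}
    (hx : ∀ i, tt M ∣ x i) : (∀ j, tt M ∣ aeval x (P j)) ∧
      (fun i => aeval (fun j => aeval x (P j)) (Q i)) = x := by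
  refine ⟨fun j => (dvd_aeval_iff _ hx).2 ((hP j).zero.trans (congrFun a4 j)), funext fun i => ?_⟩
  have h1 := (Apx.eval hP (continuousAt_pi.2 fun j => (continuous_eval _).continuousAt)
    a1.continuousAt (Q i)).trans (((hQ i).comp a1 a4).trans
      (Apx.of_eq (h := fun y => y i) (a6.mono fun y hy => congrFun hy i)))
  have := Apx.aeval_eq (P := bind₁ P (Q i)) (Q := X i) (by
    simpa [← aeval_eq_eval, aeval_bind₁] using h1) hx
  simpa [aeval_bind₁] using this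

theorem Eqv.ms_eq {G : MvPolynomial σ ℂ} {F : MvPolynomial τ ℂ} (h : Eqv G F) (M k : ℕ) :
    ms G M k = ms F M k := by
  have hc := h.card
  obtain ⟨Φ, Ψ, ℓ, a1, a2, a3, a4, a5, a6, a7, a8⟩ := h
  choose P hP using fun j => exists_taylor (analyticAt_pi_iff.1 a1 j) (M + 1)
  choose Q hQ using fun j => exists_taylor (analyticAt_pi_iff.1 a2 j) (M + 1)
  obtain ⟨U, hU⟩ := exists_taylor a3.cexp' (M + 1)
  have key : ∀ x : σ → TR M, (∀ i, tt M ∣ x i) →
      (tt M ^ k ∣ aeval (fun j => aeval x (P j)) F ↔ tt M ^ k ∣ aeval x G) := fun x hx => by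
    have h1 := (Apx.eval hP (continuousAt_pi.2 fun j => (continuous_eval _).continuousAt)
      a1.continuousAt F).trans ((Apx.of_eq a8).trans (hU.symm.mul
        (Apx.of_eq (Eventually.of_forall fun y => rfl)) a3.cexp'.continuousAt
        (continuous_eval G).continuousAt))
    have h2 := Apx.aeval_eq (P := bind₁ P F) (Q := U * G) (by
      simpa [← aeval_eq_eval, aeval_bind₁] using h1) hx
    have h3 : IsUnit (aeval x U) := IsUnit.of_mul_eq_one_right _ (rinv_mul fun h =>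
      Complex.exp_ne_zero _ (hU.zero.symm.trans ((dvd_aeval_iff U hx).1 h)))
    rw [aeval_bind₁, map_mul] at h2
    rw [h2, h3.dvd_mul_left]
  rw [ms, ms, pr, pr, nu_inv (cons_ms G M k) (cons_ms F M k)
    (φ := fun x j => aeval x (P j)) (ψ := fun z i => aeval z (Q i))
    (CFM.pi fun j => cfm_aeval _) (CFM.pi fun j => cfm_aeval _)
    (fun x hx => ⟨(exists_jets a1 a4 a6 hP hQ hx.1).1, (key x hx.1).2 hx.2⟩)
    (fun z hz => ⟨(exists_jets a2 a5 a7 hQ hP hz.1).1, ?_⟩)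
    ⟨fun x hx => (exists_jets a1 a4 a6 hP hQ hx.1).2,
      fun z hz => (exists_jets a2 a5 a7 hQ hP hz.1).2⟩]
  · simp [Module.finrank_pi_fintype, hc]
  · rw [← key _ (exists_jets a2 a5 a7 hQ hP hz.1).1, (exists_jets a2 a5 a7 hQ hP hz.1).2]
    exact hz.2

theorem Eqv.zeta_eq {G : MvPolynomial σ ℂ} {F : MvPolynomial τ ℂ} (h : Eqv G F) :
    zeta G = zeta F := by
  ext l
  by_cases hl : l = 0
  · rw [hl, coeff_zero_zeta, coeff_zero_zeta]
  · rw [coeff_zeta_ms _ hl, coeff_zeta_ms _ hl, h.ms_eq, h.ms_eq]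

end Pool.Agent.P.MP_9321be_ag.SN
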