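import Pool.Agent.P.MP_9321be_ag.ND.ZAlg

/-!
Descent of denominators and the prime ideal argument with shifted slopes.
-/

namespace Pool.Agent.P.MP_9321be_ag.SN

open ND ND.Alg Polynomial

variable {R : Type 1} [CommRing R]

theorem poly_of_ev {G : PowerSeries R} {l₀ : ℕ} (h : ∀ l, PowerSeries.coeff (l + l₀) G = 0) :
    ∃ q : R[X], G = q := ⟨PowerSeries.trunc l₀ G, by
  ext l
  rw [Polynomial.coeff_coe, PowerSeries.coeff_trunc]
  split_ifs with hl
  · rfl
  · rw [← Nat.sub_add_cancel (not_lt.1 hl), h]⟩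

theorem exists_rel (u : R) {Z : PowerSeries R} {n : ℕ → R}
    (hZ : ∀ l, PowerSeries.coeff (l + 1) Z = n (l + 1) - n (l + 2)) :
    ∃ q : R[X], ((1 - C u * X : R[X]) : PowerSeries R) * Z = ((X * (X - 1) : R[X]) : PowerSeries R) *
      (PowerSeries.mk fun k => n (k + 2) - u * n (k + 1)) + q := by
  simp only [← sub_eq_iff_eq_add']
  refine poly_of_ev (l₀ := 2) fun l => ?_
  push_cast
  simp only [sub_mul, one_mul, mul_assoc, map_sub, PowerSeries.coeff_C_mul, mul_sub,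
    PowerSeries.coeff_succ_X_mul, PowerSeries.coeff_mk, hZ, show l + 2 = l + 1 + 1 from rfl]
  ring

theorem den_X {G : PowerSeries R} {p : R[X]} (h : X * p ∈ den G) : p ∈ den G := by
  obtain ⟨q, e⟩ := h
  refine ⟨q.divX, ?_⟩
  ext l
  rw [Polynomial.coeff_coe, coeff_divX, ← Polynomial.coeff_coe, ← e]
  simp [mul_assoc, PowerSeries.coeff_succ_X_mul]

theorem coe_comp (d : R) (p : R[X]) :
    ((p.comp (C d * X) : R[X]) : PowerSeries R) = PowerSeries.rescale d p := by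
  ext l
  rw [Polynomial.coeff_coe, comp_C_mul_X_coeff, PowerSeries.coeff_rescale, Polynomial.coeff_coe,
    mul_comm]

theorem den_desc {u c d : R} (hdc : d * c = 1) {Z Z' : PowerSeries R} {n n' : ℕ → R}
    (hZ : ∀ l, PowerSeries.coeff (l + 1) Z = n (l + 1) - n (l + 2))
    (hZ' : ∀ l, PowerSeries.coeff (l + 1) Z' = n' (l + 1) - n' (l + 2))
    (h : ∀ k, n' (k + 2) - u * n' (k + 1) = c ^ (k + 2) * (n (k + 2) - u * n (k + 1)))
    {p : R[X]} (hp : p ∈ den Z') : (1 - C u * X) * ((X - 1) * p).comp (C d * X) ∈ den Z := by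
  obtain ⟨q, e⟩ := exists_rel u hZ
  obtain ⟨q', e'⟩ := exists_rel u hZ'
  obtain ⟨s, hs⟩ := hp
  set b := PowerSeries.mk fun k => n (k + 2) - u * n (k + 1)
  set b' := PowerSeries.mk fun k => n' (k + 2) - u * n' (k + 1)
  obtain ⟨s', hs'⟩ : (X - 1) * p ∈ den b' := den_X ⟨(1 - C u * X) * s - p * q', by
    push_cast at e' ⊢
    linear_combination (1 - PowerSeries.C u * PowerSeries.X) * hs - (p : PowerSeries R) * e'⟩
  have hb : b = PowerSeries.C (d ^ 2) * PowerSeries.rescale d b' := by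
    ext k
    simp only [b, b', PowerSeries.coeff_C_mul, PowerSeries.coeff_rescale, PowerSeries.coeff_mk, h]
    rw [← mul_assoc, ← mul_assoc, ← pow_add, add_comm 2, ← mul_pow, hdc, one_pow, one_mul]
  have h1 := congrArg (PowerSeries.rescale d) hs'
  rw [map_mul, ← coe_comp, ← coe_comp] at h1
  generalize ((X - 1) * p).comp (C d * X) = p' at h1 ⊢
  refine ⟨X * (X - 1) * C (d ^ 2) * s'.comp (C d * X) + p' * q, ?_⟩
  rw [hb] at e
  push_cast at e ⊢
  linear_combination (p' : PowerSeries R) * e +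
    PowerSeries.X * (PowerSeries.X - 1) * PowerSeries.C (d ^ 2) * h1

theorem uniq {K : Type*} [Field K] {a t : K} (ha : a ≠ 0) {m m' : ℕ} {e e' : ℤ} (hm : 0 < m)
    (hm' : 0 < m') (h : a ^ e * t ^ m = 1) (h' : a ^ e' * t ^ m' = 1)
    (hne : (e : ℚ) / m ≠ e' / m') : ∃ k, 0 < k ∧ a ^ k * t ^ k = 1 := by
  have h1 : t ^ m = a ^ (-e) := by rw [zpow_neg]; exact eq_inv_of_mul_eq_one_right h
  have h2 : t ^ m' = a ^ (-e') := by rw [zpow_neg]; exact eq_inv_of_mul_eq_one_right h'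
  have h3 : a ^ (e * m' - e' * m) = 1 := by
    have : a ^ (-e * m') = a ^ (-e' * m) := by
      rw [zpow_mul, zpow_mul, ← h1, ← h2, zpow_natCast, zpow_natCast, ← pow_mul, ← pow_mul,
        mul_comm]
    rw [show e * m' - e' * m = -e' * m - -e * m' by ring, zpow_sub₀ ha, this,
      div_self (zpow_ne_zero _ ha)]
  have h4 : e * m' - e' * m ≠ 0 := fun h4 => hne (by
    rw [div_eq_div_iff (by positivity) (by positivity)]
    exact_mod_cast sub_eq_zero.1 h4)
  have h5 : a ^ (e * m' - e' * m).natAbs = 1 := by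
    generalize e * m' - e' * m = z at h3
    obtain ⟨k, rfl | rfl⟩ := z.eq_nat_or_neg <;> simpa using h3
  generalize hk : (e * m' - e' * m).natAbs = k at h5
  have h6 : 0 < k := by omega
  refine ⟨m * k, by positivity, ?_⟩
  rw [pow_mul t, h1, mul_comm m, pow_mul, h5, ← zpow_natCast (a ^ (-e)), ← zpow_mul, mul_comm (-e),
    zpow_mul, zpow_natCast, h5]
  simp

theorem alg {u v : R} (huv : v * u = 1) (P : ℚ → Prop) (P1 : P 1) (G : PowerSeries R)
    (H : ℕ → PowerSeries R) (ρ : ℕ → ℕ) (hρ : ∀ k, k ≤ ρ k)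
    (hd : ∀ k, ∀ p ∈ den (H k), (1 - C u * X) * ((X - 1) * p).comp (C (v ^ ρ k) * X) ∈ den G)
    (h : ∀ k (β : ℚ), 1 < β + ρ k → (0 < β → ¬ P β) → Rt u (· ≠ β + ρ k) (H k)) : Rt u P G := by
  by_contra hG
  have hd' : Disjoint (den G : Set R[X]) (Submonoid.closure (fac u P)) :=
    Set.disjoint_left.2 fun D ⟨q, e⟩ hD => hG (Alg.cancel hD G (e ▸ rt_poly q))
  obtain ⟨J, hJ, h1, h2⟩ := Ideal.exists_le_prime_disjoint _ _ hd'
  let φ : R[X] →+* FractionRing (R[X] ⧸ J) := (algebraMap _ _).comp (Ideal.Quotient.mk J)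
  have hφ : ∀ p, φ p = 0 ↔ p ∈ J := fun p =>
    (IsFractionRing.to_map_eq_zero_iff (R := R[X] ⧸ J)).trans Ideal.Quotient.eq_zero_iff_mem
  set a := φ (C u) with ha
  set t := φ X with ht
  have hv : φ (C v) * a = 1 := by rw [← map_mul, ← C_mul, huv]; simp
  have a0 : a ≠ 0 := right_ne_zero_of_mul_eq_one hv
  have nf : ∀ m s : ℕ, 0 < m → 0 < s → P ((s : ℚ) / m) → a ^ s * t ^ m ≠ 1 := fun m s hm hs hP e =>
    Set.disjoint_left.1 h2 ((hφ _).1 (by simp [← ha, ← ht, e]))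
      (Submonoid.subset_closure ⟨m, s, hm, hs, hP, rfl⟩)
  have key : ∀ k (β : ℚ), 1 < β + ρ k → (0 < β → ¬ P β) →
      ∃ (m : ℕ) (e : ℤ), 0 < m ∧ a ^ e * t ^ m = 1 ∧ (e : ℚ) / m ≠ β := fun k β b1 b2 => by
    let ψ := φ.comp (compRingHom (C (v ^ ρ k) * X))
    have x1 : ψ X = a ^ (-(ρ k : ℤ)) * t := by
      simp [ψ, ← ht, eq_inv_of_mul_eq_one_left hv]
    by_cases x2 : ψ (X - 1) = 0
    · refine ⟨1, -ρ k, one_pos, by simpa [x1, sub_eq_zero] using x2, fun e => ?_⟩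
      rw [← e] at b1
      norm_num at b1
    have x3 : den (H k) ≤ RingHom.ker ψ := fun p hp => by
      have := (hφ _).2 (h1 (hd k p hp))
      rw [map_mul, mul_eq_zero] at this
      refine (mul_eq_zero.1 ((map_mul ψ _ _).symm.trans
        (this.resolve_left fun e => ?_))).resolve_left x2
      refine nf 1 1 one_pos one_pos (by simpa using P1) ?_
      rw [map_sub, map_one, map_mul, sub_eq_zero] at e
      simpa using e.symm
    obtain ⟨_, ⟨m, s, hm, -, hne, rfl⟩, x4⟩ := prime_fac (RingHom.ker_isPrime ψ) x3 (h k β b1 b2)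
    refine ⟨m, s - ρ k * m, hm, ?_, fun e => hne ?_⟩
    · have x5 : ψ (C u) = a := by simp [ψ, ← ha]
      rw [RingHom.mem_ker, map_sub, map_one, map_mul, C_pow, map_pow, map_pow, x1, x5, sub_eq_zero,
        mul_pow, ← zpow_natCast (a ^ _), ← zpow_mul, ← mul_assoc, ← zpow_natCast a,
        ← zpow_add₀ a0] at x4
      rw [x4, sub_eq_add_neg, neg_mul]
    · rw [← e]
      push_cast
      field_simp
      ring
  obtain ⟨m, e, hm, r1, -⟩ := key 3 (-1) (by
    have : (3 : ℚ) ≤ ρ 3 := by exact_mod_cast hρ 3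
    linarith) (by norm_num)
  obtain ⟨k, hk⟩ := exists_nat_gt (1 - (e : ℚ) / m)
  obtain ⟨m', e', hm', r2, r3⟩ := key k (e / m) (by
    have : (k : ℚ) ≤ ρ k := by exact_mod_cast hρ k
    linarith) fun h0 hP => by
      have he : 0 < e := by exact_mod_cast (div_pos_iff_of_pos_right (by positivity)).1 h0
      lift e to ℕ using he.le
      exact nf m e hm (by exact_mod_cast he) (by simpa using hP) (by simpa using r1)
  obtain ⟨j, j0, hj⟩ := uniq a0 hm' hm r2 r1 r3
  exact nf j j j0 j0 (by rwa [div_self (by positivity)]) hj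

end Pool.Agent.P.MP_9321be_ag.SN
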