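import Pool.Agent.P.MP_9321be_ag.Mono
import Pool.Agent.P.MP_9321be_ag.ND.ZDefs

/-!
The slopes of a polynomial equivalent to a stabilisation with `r` hyperbolic pairs exceed `r`.
-/

namespace Pool.Agent.P.MP_9321be_ag.SN

open MvPolynomial ND Filter Topology

namespace HS

variable {τ : Type} [Fintype τ]

theorem hasFD (P : MvPolynomial τ ℂ) (x : τ → ℂ) :
    HasStrictFDerivAt (fun x => eval x P)
      (∑ i, eval x (pderiv i P) • (ContinuousLinearMap.proj i : (τ → ℂ) →L[ℂ] ℂ)) x := by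
  classical
  induction P using MvPolynomial.induction_on with
  | C a =>
    simp only [eval_C]
    exact (hasStrictFDerivAt_const (𝕜 := ℂ) a x).congr_fderiv
      (ContinuousLinearMap.ext fun y => by simp)
  | add p q hp hq =>
    simp only [map_add (eval _)]
    exact (hp.add hq).congr_fderiv (ContinuousLinearMap.ext fun y => by
      simp [add_mul, Finset.sum_add_distrib])
  | mul_X p j hp =>
    simp only [map_mul, eval_X]
    refine (hp.mul ((ContinuousLinearMap.proj j : (τ → ℂ) →L[ℂ] ℂ).hasStrictFDerivAt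
      (x := x))).congr_fderiv (ContinuousLinearMap.ext fun y => ?_)
    simp only [pderiv_mul, map_add, map_mul, eval_X, pderiv_X, Pi.single_apply, apply_ite (eval x),
      map_one, map_zero, sum_apply, smul_apply, ContinuousLinearMap.proj_apply, add_apply,
      smul_eq_mul, add_mul, Finset.sum_add_distrib, mul_ite, mul_one, mul_zero, ite_mul, zero_mul,
      Finset.sum_ite_eq, Finset.mem_univ, if_true, Finset.mul_sum]
    rw [add_comm]
    congr 1
    exact Finset.sum_congr rfl fun i _ => by ring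

theorem an (P : MvPolynomial τ ℂ) (x : τ → ℂ) : AnalyticAt ℂ (fun x => eval x P) x :=
  AnalyticOnNhd.eval_mvPolynomial P x trivial

/-- All monomials have weight at least `c`. -/
def Wt (v : τ → ℝ) (P : MvPolynomial τ ℂ) (c : ℝ) : Prop := ∀ a ∈ P.support, c ≤ dr a v

variable [DecidableEq τ] {v : τ → ℝ} {P : MvPolynomial τ ℂ} {c : ℝ}

theorem Wt.pderiv (h : Wt v P c) (j : τ) : Wt v (pderiv j P) (c - v j) := fun a ha => by
  have h1 := h (a + Finsupp.single j 1) (mem_support_iff.2 fun e =>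
    mem_support_iff.1 ha (by rw [coeff_pderiv, e, zero_mul]))
  have h2 : dr (a + Finsupp.single j 1) v = dr a v + v j := by
    simp [dr, add_mul, Finset.sum_add_distrib, Finsupp.single_apply]
  linarith

theorem Wt.eval (h : Wt v P c) (hc : 0 < c) {x : τ → ℂ} (hx : ∀ i, v i ≠ 0 → x i = 0) :
    eval x P = 0 := by
  rw [eval_eq']
  refine Finset.sum_eq_zero fun a ha => mul_eq_zero_of_right _ ?_
  obtain ⟨i, -, hi⟩ := Finset.exists_ne_zero_of_sum_ne_zero (hc.trans_le (h a ha)).ne'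
  exact Finset.prod_eq_zero (Finset.mem_univ i) (by
    rw [hx i (right_ne_zero_of_mul hi)]
    exact zero_pow (by exact_mod_cast left_ne_zero_of_mul hi))

omit [DecidableEq τ] in
theorem count {r : ℕ} (h0 : ∀ i, 0 ≤ v i) (hs : ∑ i, v i ≤ r)
    (h : ∀ θ : ℝ, 2 * r ≤ Fintype.card {i // θ ≤ v i} + Fintype.card {i // 1 - θ < v i}) :
    Fintype.card {i // 0 < v i} + Fintype.card {i // 1 ≤ v i} ≤ 2 * r := by
  classical
  by_contra hc
  obtain ⟨θ₀, t0, t1, t2⟩ : ∃ θ₀ : ℝ, 0 < θ₀ ∧ θ₀ ≤ 1 ∧ ∀ i, 0 < v i → θ₀ ≤ v i := by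
    have : ∀ᶠ θ in 𝓝[>] (0 : ℝ), 0 < θ ∧ θ ≤ 1 ∧ ∀ i, 0 < v i → θ ≤ v i :=
      Eventually.and self_mem_nhdsWithin (Eventually.filter_mono nhdsWithin_le_nhds
        ((eventually_le_nhds one_pos).and (eventually_all.2 fun i =>
          eventually_imp_distrib_left.2 fun hi => eventually_le_nhds hi)))
    exact this.exists
  obtain ⟨M, hM⟩ := exists_nat_ge ((Fintype.card τ + 1 : ℝ) / θ₀)
  rw [div_le_iff₀ t0] at hM
  have hN : (0 : ℝ) ≤ Fintype.card τ := Nat.cast_nonneg _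
  have hM1 : (Fintype.card τ + 1 : ℝ) ≤ M := hM.trans (mul_le_of_le_one_right M.cast_nonneg t1)
  have M0 : (0 : ℝ) < M := by linarith
  have cd : ∀ p : τ → Prop, ∀ [DecidablePred p], (Fintype.card {i // p i} : ℝ) =
      ∑ i, if p i then (1 : ℝ) else 0 := fun p _ => by simp [Fintype.card_subtype]
  have lo : ∀ k ∈ Finset.range M, (2 * r : ℝ) + (if k < Fintype.card τ + 1 then 1 else 0) ≤
      ∑ i, ((if (k + 1 : ℝ) / M ≤ v i then (1 : ℝ) else 0) +
        if 1 - (k + 1 : ℝ) / M < v i then 1 else 0) := fun k _ => by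
    rw [Finset.sum_add_distrib, ← cd, ← cd]
    split_ifs with hk
    · have k1 : (k + 1 : ℝ) / M ≤ θ₀ := by
        rw [div_le_iff₀ M0]
        have : (k + 1 : ℝ) ≤ Fintype.card τ + 1 := by exact_mod_cast hk
        linarith
      have k2 : (0 : ℝ) < (k + 1 : ℝ) / M := by positivity
      have a1 := Fintype.card_subtype_mono (fun i => 0 < v i) (fun i => (k + 1 : ℝ) / M ≤ v i)
        fun i hi => k1.trans (t2 i hi)
      have a2 := Fintype.card_subtype_mono (fun i => 1 ≤ v i) (fun i => 1 - (k + 1 : ℝ) / M < v i)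
        fun i (hi : 1 ≤ v i) => show 1 - (k + 1 : ℝ) / M < v i by linarith
      have a3 := (not_le.1 hc).trans_le (add_le_add a1 a2)
      have a4 := (Nat.cast_le (α := ℝ)).2 (Nat.succ_le_of_lt a3)
      rwa [Nat.cast_succ, Nat.cast_mul, Nat.cast_two, Nat.cast_add] at a4
    · rw [add_zero]
      have a4 := (Nat.cast_le (α := ℝ)).2 (h ((k + 1 : ℝ) / M))
      rwa [Nat.cast_mul, Nat.cast_two, Nat.cast_add] at a4
  have up : ∀ i, ∑ k ∈ Finset.range M, ((if (k + 1 : ℝ) / M ≤ v i then (1 : ℝ) else 0) +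
      if 1 - (k + 1 : ℝ) / M < v i then 1 else 0) ≤ 2 * (M * v i) + 1 := fun i => by
    have p0 : 0 ≤ M * v i := mul_nonneg M0.le (h0 i)
    have a1 : ((Finset.range M).filter fun k : ℕ => (k + 1 : ℝ) / M ≤ v i).card ≤
        (Finset.range ⌊M * v i⌋₊).card := Finset.card_le_card fun k hk => by
      have := (Finset.mem_filter.1 hk).2
      rw [div_le_iff₀ M0, mul_comm] at this
      exact Finset.mem_range.2 ((Nat.le_floor_iff p0).2 (by exact_mod_cast this))
    have a2 : ((Finset.range M).filter fun k : ℕ => 1 - (k + 1 : ℝ) / M < v i).card ≤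
        (Finset.range ⌈M * v i⌉₊).card := Finset.card_le_card_of_injOn (fun k => M - 1 - k)
      (fun k hk => by
        obtain ⟨k1, k2⟩ := Finset.mem_filter.1 hk
        have k3 := Finset.mem_range.1 k1
        rw [sub_lt_comm, lt_div_iff₀ M0] at k2
        refine Finset.mem_range.2 (Nat.lt_ceil.2 ?_)
        simp only
        rw [Nat.sub_sub, Nat.cast_sub (by omega)]
        push_cast
        linarith)
      fun k hk l hl e => by
        have := Finset.mem_range.1 (Finset.mem_filter.1 hk).1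
        have := Finset.mem_range.1 (Finset.mem_filter.1 hl).1
        simp only at e
        omega
    rw [Finset.card_range] at a1 a2
    have b1 := (Nat.cast_le (α := ℝ)).2 a1
    have b2 := (Nat.cast_le (α := ℝ)).2 a2
    have b3 := Nat.floor_le p0
    have b4 := Nat.ceil_lt_add_one p0
    rw [Finset.sum_add_distrib, Finset.sum_boole, Finset.sum_boole]
    linarith
  have s1 := Finset.sum_le_sum lo
  rw [Finset.sum_comm, Finset.sum_add_distrib, Finset.sum_boole] at s1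
  have s2 := s1.trans (Finset.sum_le_sum fun i _ => up i)
  have e : (Finset.range M).filter (· < Fintype.card τ + 1) = Finset.range (Fintype.card τ + 1) := by
    have : Fintype.card τ + 1 ≤ M := by exact_mod_cast hM1
    ext k
    simp only [Finset.mem_filter, Finset.mem_range]
    omega
  simp only [e, Finset.sum_add_distrib, ← Finset.mul_sum, Finset.sum_const, Finset.card_range, nsmul_eq_mul, Finset.card_univ, mul_one,
    Nat.cast_add, Nat.cast_one] at s2
  nlinarith [mul_le_mul_of_nonneg_left hs M0.le]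

variable {σ : Type} [Fintype σ] {r : ℕ}

/-- The space of the stabilisation. -/
abbrev ZZ (σ : Type) (r : ℕ) : Type := (σ → ℂ) × (Fin r → ℂ × ℂ)

/-- The bilinear form of the hyperbolic pairs. -/
noncomputable def BB (e : Fin r → ℂ × ℂ) : ZZ σ r →L[ℂ] ℂ :=
  ∑ j, ((e j).1 • (ContinuousLinearMap.snd ℂ ℂ ℂ).comp ((ContinuousLinearMap.proj j).comp
    (ContinuousLinearMap.snd ℂ (σ → ℂ) (Fin r → ℂ × ℂ))) +
    (e j).2 • (ContinuousLinearMap.fst ℂ ℂ ℂ).comp ((ContinuousLinearMap.proj j).comp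
    (ContinuousLinearMap.snd ℂ (σ → ℂ) (Fin r → ℂ × ℂ))))

omit [Fintype σ] in
theorem BB_apply (e : Fin r → ℂ × ℂ) (z : ZZ σ r) :
    BB e z = ∑ j, ((e j).1 * (z.2 j).2 + (e j).2 * (z.2 j).1) := by
  simp [BB]

omit [Fintype σ] in
theorem BB_nd {z : ZZ σ r} (h : ∀ e, BB e z = 0) : z.2 = 0 := by
  funext j
  have h1 := h (Pi.single j (1, 0))
  have h2 := h (Pi.single j (0, 1))
  rw [BB_apply, Finset.sum_eq_single j (fun b _ hb => by simp [hb]) (by simp)] at h1 h2
  exact Prod.ext (by simpa using h2) (by simpa using h1)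

theorem dG (f : MvPolynomial σ ℂ) (z : ZZ σ r) : ∃ G' : ZZ σ r →L[ℂ] ℂ,
    HasFDerivAt (fun z : ZZ σ r => eval z.1 f + ∑ j, (z.2 j).1 * (z.2 j).2) G' z ∧
      (∀ e, G' (0, e) = BB e z) ∧
      (z = 0 → (∀ i, eval 0 (pderiv i f) = 0) → ∀ e, G' e = 0) := by
  have h1 := (hasFD f z.1).hasFDerivAt.comp z (hasFDerivAt_fst (𝕜 := ℂ) (p := z))
  have h2 : ∀ j, HasFDerivAt (fun z : ZZ σ r => z.2 j) ((ContinuousLinearMap.proj j).comp
      (ContinuousLinearMap.snd ℂ (σ → ℂ) (Fin r → ℂ × ℂ))) z := fun j =>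
    ((ContinuousLinearMap.proj j).comp
      (ContinuousLinearMap.snd ℂ (σ → ℂ) (Fin r → ℂ × ℂ))).hasFDerivAt
  refine ⟨_, h1.add (HasFDerivAt.fun_sum fun j _ => (h2 j).fst.mul (h2 j).snd), fun e => ?_, ?_⟩
  · rw [BB_apply]
    simp [mul_comm, add_comm]
  · rintro rfl h e
    simp only [Prod.fst_zero, h]
    simp

end HS

open HS in
theorem strict {σ τ : Type} [Fintype σ] [Fintype τ] [DecidableEq τ] (f : MvPolynomial σ ℂ)
    (F : MvPolynomial τ ℂ) (hf : f ≠ 0) (hd : ∀ i, eval 0 (pderiv i F) = 0) (r : ℕ)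
    (Φ : (σ → ℂ) × (Fin r → ℂ × ℂ) → τ → ℂ) (hΦ : AnalyticAt ℂ Φ 0) (h0 : Φ 0 = 0)
    (υ : (σ → ℂ) × (Fin r → ℂ × ℂ) → ℂ) (hυ : AnalyticAt ℂ υ 0) (hυ0 : υ 0 ≠ 0)
    (h : ∀ᶠ z in nhds 0, eval (Φ z) F = υ z * (eval z.1 f + ∑ j, (z.2 j).1 * (z.2 j).2))
    (v : τ → ℝ) (hv0 : ∀ i, 0 ≤ v i) (hv1 : ∀ a ∈ F.support, 1 ≤ ND.dr a v) :
    (r : ℝ) < ∑ i, v i := by
  classical
  by_contra hs
  have hW : Wt v F 1 := hv1
  set G : ZZ σ r → ℂ := fun z => eval z.1 f + ∑ j, (z.2 j).1 * (z.2 j).2 with hG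
  set D := fderiv ℂ Φ 0
  let A : τ → ZZ σ r → ℂ := fun j z => eval (Φ z) (pderiv j F)
  let A' : τ → ZZ σ r →L[ℂ] ℂ := fun j =>
    (∑ i, eval 0 (pderiv i (pderiv j F)) • (ContinuousLinearMap.proj i : (τ → ℂ) →L[ℂ] ℂ)).comp D
  have hA : ∀ j, HasStrictFDerivAt (A j) (A' j) 0 := fun j => by
    have := (hasFD (pderiv j F) (Φ 0)).comp 0 hΦ.hasStrictFDerivAt
    rwa [h0] at this
  have A0 : ∀ j, A j 0 = 0 := fun j => by simp only [A, h0, hd]
  have G0 : G 0 = 0 := by
    have := h.self_of_nhds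
    rw [h0, hW.eval (x := 0) one_pos fun _ _ => rfl] at this
    exact (mul_eq_zero.1 this.symm).resolve_left hυ0
  have k1 : ∀ᶠ z in 𝓝 (0 : ZZ σ r), ∀ G' : ZZ σ r →L[ℂ] ℂ, HasFDerivAt G G' z → ∀ e,
      ∑ j, A j z * fderiv ℂ Φ z e j = υ z * G' e + G z * fderiv ℂ υ z e := by
    filter_upwards [h.eventually_nhds, hΦ.eventually_analyticAt, hυ.eventually_analyticAt]
      with z h1 h2 h3 G' h4 e
    have a1 := (hasFD F (Φ z)).hasFDerivAt.comp z h2.differentiableAt.hasFDerivAt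
    have a2 := (h3.differentiableAt.hasFDerivAt.mul h4).congr_of_eventuallyEq h1
    simpa [A] using DFunLike.congr_fun (a1.unique a2) e
  obtain ⟨G₀, g1, -⟩ := dG (r := r) f 0
  have g2 : G₀ = 0 := ContinuousLinearMap.ext fun e => by
    simpa [A0, G0, hυ0] using k1.self_of_nhds G₀ g1 e
  have k2 : ∀ e, ∀ᶠ z in 𝓝 (0 : ZZ σ r), ∑ j, A j z * fderiv ℂ Φ z (0, e) j =
      υ z * BB e z + G z * fderiv ℂ υ z (0, e) := fun e => k1.mono fun z hz => by
    obtain ⟨G', a1, a2, -⟩ := dG f z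
    rw [hz G' a1, a2]
  have k3 : ∀ ζ : ZZ σ r, (∀ j, A' j ζ = 0) → ζ.2 = 0 := fun ζ hζ => BB_nd fun e => by
    have a1 : ∀ j, DifferentiableAt ℂ (fun z => fderiv ℂ Φ z (0, e) j) 0 := fun j =>
      differentiableAt_pi.1 (hΦ.fderiv.differentiableAt.clm_apply (differentiableAt_const _)) j
    have a2 : DifferentiableAt ℂ (fun z => fderiv ℂ υ z (0, e)) 0 :=
      hυ.fderiv.differentiableAt.clm_apply (differentiableAt_const _)
    have a3 := HasFDerivAt.fun_sum fun j (_ : j ∈ Finset.univ) =>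
      (hA j).hasFDerivAt.fun_mul (a1 j).hasFDerivAt
    have a4 := ((hυ.differentiableAt.hasFDerivAt.fun_mul (BB e).hasFDerivAt).fun_add
      (g1.fun_mul a2.hasFDerivAt)).congr_of_eventuallyEq (k2 e)
    have a5 := DFunLike.congr_fun (a3.unique a4) ζ
    simpa [A0, hζ, g2, hυ0, show constantCoeff f = 0 by simpa [G] using G0] using a5
  have k4 : ∀ p q : τ → Prop, ∀ [DecidablePred p] [DecidablePred q],
      (∀ i j, ¬ p i → ¬ q j → v i + v j < 1) →
      ∃ Λ : ZZ σ r →L[ℂ] ({i // p i} → ℂ) × ({j // q j} → ℂ) × (σ → ℂ), Function.Injective Λ ∧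
        HasStrictFDerivAt (fun z : ZZ σ r => ((fun i : {i // p i} => Φ z i),
          (fun j : {j // q j} => A j z), z.1)) Λ 0 := fun p q _ _ hpq => by
    have d1 : HasStrictFDerivAt (fun (z : ZZ σ r) (i : {i // p i}) => Φ z i)
        (ContinuousLinearMap.pi fun i : {i // p i} => (ContinuousLinearMap.proj i.1).comp D) 0 :=
      hasStrictFDerivAt_pi.2 fun i => hasStrictFDerivAt_pi'.1 hΦ.hasStrictFDerivAt i.1
    have d2 : HasStrictFDerivAt (fun (z : ZZ σ r) (j : {j // q j}) => A j z)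
        (ContinuousLinearMap.pi fun j : {j // q j} => A' j) 0 :=
      hasStrictFDerivAt_pi.2 fun j => hA j.1
    have d3 : HasStrictFDerivAt (fun z : ZZ σ r => z.1) (ContinuousLinearMap.fst ℂ _ _) 0 :=
      hasStrictFDerivAt_fst
    refine ⟨_, (injective_iff_map_eq_zero _).2 fun ζ hζ => ?_, d1.prodMk (d2.prodMk d3)⟩
    have b1 : ∀ i, p i → D ζ i = 0 := fun i hi => congrFun (congrArg Prod.fst hζ) ⟨i, hi⟩
    have b2 : ∀ j, q j → A' j ζ = 0 := fun j hj => congrFun (congrArg (·.2.1) hζ) ⟨j, hj⟩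
    refine Prod.ext (congrArg (·.2.2) hζ) (k3 ζ fun j => (em (q j)).elim (b2 j) fun hj => ?_)
    simp only [A', ContinuousLinearMap.comp_apply, sum_apply, smul_apply,
      ContinuousLinearMap.proj_apply, smul_eq_mul]
    refine Finset.sum_eq_zero fun i _ => (em (p i)).elim
      (fun hi => mul_eq_zero_of_right _ (b1 i hi)) fun hi => mul_eq_zero_of_left ?_ _
    exact ((hW.pderiv j).pderiv i).eval (by linarith [hpq i j hi hj]) fun _ _ => rfl
  have fz : Module.finrank ℂ (ZZ σ r) = Fintype.card σ + 2 * r := by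
    simp [ZZ, Module.finrank_pi_fintype, mul_comm]
  have k5 := count hv0 (not_lt.1 hs) fun θ => by
    obtain ⟨Λ, a1, -⟩ := k4 (fun i => θ ≤ v i) (fun i => 1 - θ < v i) fun i j hi hj => by
      linarith [not_le.1 hi, not_lt.1 hj]
    have := LinearMap.finrank_le_finrank_of_injective (f := Λ.toLinearMap) a1
    simp only [fz, Module.finrank_prod, Module.finrank_fintype_fun_eq_card] at this
    omega
  obtain ⟨Λ, a1, a2⟩ := k4 (fun i => 0 < v i) (fun i => 1 ≤ v i) fun i j hi hj => by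
    linarith [not_lt.1 hi, not_le.1 hj]
  have a3 : Λ.range = ⊤ := Submodule.eq_top_of_finrank_eq (le_antisymm (Submodule.finrank_le _) (by
    rw [LinearMap.finrank_range_of_inj (f := Λ.toLinearMap) a1, fz]
    simp only [Module.finrank_prod, Module.finrank_fintype_fun_eq_card]
    omega))
  have a4 := a2.map_nhds_eq_of_surj a3
  have a5 := image_mem_map (m := fun z : ZZ σ r => ((fun i : {i // 0 < v i} => Φ z i),
    (fun j : {j // 1 ≤ v j} => A j z), z.1))
    (h.and (k1.and (hυ.continuousAt.eventually_ne hυ0)))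
  rw [a4] at a5
  have a6 : ContinuousAt (fun y : σ → ℂ => ((0 : {i // 0 < v i} → ℂ), (0 : {j // 1 ≤ v j} → ℂ), y))
      0 := by fun_prop
  obtain ⟨y, ⟨z, ⟨z1, z2, z3⟩, z4⟩, hy⟩ := exists_ne_zero_near hf 0 (a6.preimage_mem_nhds (by
    simp only [h0, A0] at a5
    exact a5))
  have b1 : ∀ i, v i ≠ 0 → Φ z i = 0 := fun i hi =>
    congrFun (congrArg Prod.fst z4) ⟨i, (hv0 i).lt_of_ne' hi⟩
  have b2 : ∀ j, A j z = 0 := fun j => (le_or_gt 1 (v j)).elim
    (fun hj => congrFun (congrArg (·.2.1) z4) ⟨j, hj⟩)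
    fun hj => (hW.pderiv j).eval (by linarith) b1
  rw [hW.eval one_pos b1] at z1
  have b3 : G z = 0 := (mul_eq_zero.1 z1.symm).resolve_left z3
  obtain ⟨G', c1, c2, -⟩ := dG f z
  have b4 := BB_nd (z := z) fun e => by simpa [b2, b3, z3, c2] using z2 G' c1 (0, e)
  refine hy ?_
  rw [← show z.1 = y from congrArg (·.2.2) z4]
  simpa [G, b4] using b3

open HS in
theorem grad_zero {σ τ : Type} [Fintype σ] [Fintype τ] [DecidableEq τ] (f : MvPolynomial σ ℂ)
    (F : MvPolynomial τ ℂ) (hf0 : coeff 0 f = 0) (hd : ∀ i, eval 0 (pderiv i f) = 0) (r : ℕ)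
    (Φ : (σ → ℂ) × (Fin r → ℂ × ℂ) → τ → ℂ) (hΦ : AnalyticAt ℂ Φ 0) (h0 : Φ 0 = 0)
    (hs : Function.Surjective (fderiv ℂ Φ 0))
    (υ : (σ → ℂ) × (Fin r → ℂ × ℂ) → ℂ) (hυ : AnalyticAt ℂ υ 0)
    (h : ∀ᶠ z in nhds 0, eval (Φ z) F = υ z * (eval z.1 f + ∑ j, (z.2 j).1 * (z.2 j).2)) :
    ∀ i, eval 0 (pderiv i F) = 0 := fun i => by
  obtain ⟨G', g1, -, g2⟩ := dG (r := r) f 0
  obtain ⟨e, he⟩ := hs (Pi.single i 1)
  have a1 := (hasFD F (Φ 0)).hasFDerivAt.comp 0 hΦ.differentiableAt.hasFDerivAt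
  have a2 := (hυ.differentiableAt.hasFDerivAt.mul g1).congr_of_eventuallyEq h
  have a3 := DFunLike.congr_fun (a1.unique a2) e
  simpa [he, h0, g2 rfl hd, Pi.single_apply, show constantCoeff f = 0 from hf0] using a3

end Pool.Agent.P.MP_9321be_ag.SN
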