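import Pool.Agent.P.MP_9321be_ag.Mono
import Pool.Agent.P.MP_9321be_ag.ND.ZHensel
import Pool.Agent.P.MP_9321be_ag.ND.ZLink

/-!
The motivic monodromy conjecture at a smooth point.
-/

namespace Pool.Agent.P.MP_9321be_ag.SN

open MvPolynomial ND

theorem rt_smooth {σ : Type} [Fintype σ] (f : MvPolynomial σ ℂ) (h0 : coeff 0 f = 0) (i : σ)
    (hi : eval 0 (pderiv i f) ≠ 0) : Rt lefInv (· = 1) (zeta f) := by
  classical
  have h1 : coeff (Finsupp.single i 1) f ≠ 0 := fun e => hi (by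
    rw [eval_zero, constantCoeff_eq, coeff_pderiv, zero_add, e, zero_mul])
  have d0 : ∀ a : σ →₀ ℕ, dn a (fun _ => 1) = 0 → a = 0 := fun a ha => Finsupp.ext fun j => by
    simpa using Finset.sum_eq_zero_iff.1 ha j (Finset.mem_univ j)
  have d1 : ∀ a : σ →₀ ℕ, dn (a + Finsupp.single i 1) (fun _ => 1) = dn a (fun _ => 1) + 1 :=
    fun a => by simp [dn, Finset.sum_add_distrib, Finsupp.single_apply]
  have d2 : dn (Finsupp.single i 1) (fun _ => 1) = 1 := by simpa [dn] using d1 0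
  have hn : nn f.support (fun _ => 1) = 1 := nn_eq (fun a ha => Nat.one_le_iff_ne_zero.2
    fun e => mem_support_iff.1 ha (d0 a e ▸ h0)) ⟨_, mem_support_iff.2 h1, d2⟩
  have hs : Smooth (fp f (fc f.support fun _ => 1)) Finset.univ := fun p _ _ => ⟨i, by
    have : pderiv i (fp f (fc f.support fun _ => 1)) = C (coeff (Finsupp.single i 1) f) := by
      ext m
      simp only [coeff_pderiv, fp, coeff_sum, coeff_monomial, Finset.sum_ite_eq', mem_fc, hn, d1,
        coeff_C]
      by_cases hm : m = 0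
      · simp [hm, h1, dn]
      · rw [if_neg fun h => hm (d0 m (by omega)), if_neg (Ne.symm hm), zero_mul]
    rwa [this, eval_C]⟩
  have hc : ∀ l, l ≠ 0 → PowerSeries.coeff l (zeta f) = hval f Finset.univ l fun _ => 1 :=
    fun l hl => by
      rw [t_Link σ f, Zs, PowerSeries.coeff_mk, if_neg hl, ← t_Hensel σ f (2 * l) l (fun _ => 1)
        Finset.univ (by omega) (fun _ => by omega) fun _ => hs]
      exact pr_congr fun x => by simp [inCell]
  refine Rt.of_mul (m := 1) (s := 1) one_pos one_pos (by simp)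
    (rt_of_eventually_zero (l₀ := 3) fun l hl => ?_)
  obtain ⟨k, rfl⟩ : ∃ k, l = k + 2 + 1 := ⟨l - 3, by omega⟩
  rw [sub_mul, one_mul, map_sub, pow_one, pow_one, mul_assoc, PowerSeries.coeff_C_mul,
    PowerSeries.coeff_succ_X_mul, hc _ (by omega), hc _ (by omega), hval, hval, hn,
    if_neg (by omega), if_neg (by omega), if_neg (by omega), if_neg (by omega), ← mul_assoc lefInv,
    ← pow_succ', sub_eq_zero]
  congr 2

theorem conj_smooth {σ : Type} [Fintype σ] (f : MvPolynomial σ ℂ) (h0 : coeff 0 f = 0) (i : σ)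
    (hi : eval 0 (pderiv i f) ≠ 0) : MonodromyConjecture f := by
  obtain ⟨S, h1, h2⟩ := rt_smooth f h0 i hi
  have hf : f ≠ 0 := by rintro rfl; simp at hi
  have e0 : eval (0 : σ → ℂ) f = 0 := by simpa [constantCoeff_eq] using h0
  refine fun U hU => ⟨S, fun q hq => ⟨(h1 q hq).1, (h1 q hq).2.1⟩, h2, fun q hq =>
    ⟨0, mem_of_mem_nhds hU, e0, ?_⟩⟩
  have h3 : (q.2 : ℂ) / q.1 = 1 := by
    simpa using congrArg (Rat.cast : ℚ → ℂ) (h1 q hq).2.2
  convert isMonodromyEigenvalue_one hf e0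
  rw [mul_div_assoc, h3, mul_one, Complex.exp_neg, Complex.exp_two_pi_mul_I, inv_one]

end Pool.Agent.P.MP_9321be_ag.SN
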