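import Pool.Agent.P.MP_9321be_ag.SN.Defs

/-!
Adding squares preserves non-degeneracy and contact equivalence.
-/

namespace Pool.Agent.P.MP_9321be_ag.SN

open MvPolynomial Filter Topology ND

variable {σ τ κ : Type}

open Classical in
/-- The terms of `f` whose exponents satisfy `p`. -/
noncomputable def fil (p : (σ →₀ ℕ) → Prop) (f : MvPolynomial σ ℂ) : MvPolynomial σ ℂ :=
  ∑ a ∈ f.support with p a, monomial a (coeff a f)

open Classical in
theorem coeff_fil (p : (σ →₀ ℕ) → Prop) (f : MvPolynomial σ ℂ) (a : σ →₀ ℕ) :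
    coeff a (fil p f) = if p a then coeff a f else 0 := by
  simp only [fil, coeff_sum, coeff_monomial, Finset.sum_ite_eq', Finset.mem_filter,
    mem_support_iff]
  by_cases h : coeff a f = 0 <;> simp [h]

theorem fil_add (p : (σ →₀ ℕ) → Prop) (f g : MvPolynomial σ ℂ) :
    fil p (f + g) = fil p f + fil p g := by
  ext a
  simp only [coeff_fil, coeff_add]
  split_ifs <;> simp

theorem fil_sum {ι : Type} (p : (σ →₀ ℕ) → Prop) (s : Finset ι) (f : ι → MvPolynomial σ ℂ) :
    fil p (∑ i ∈ s, f i) = ∑ i ∈ s, fil p (f i) := by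
  ext a
  simp only [coeff_fil, coeff_sum]
  split_ifs <;> simp

open Classical in
theorem fil_monomial (p : (σ →₀ ℕ) → Prop) (a : σ →₀ ℕ) (c : ℂ) :
    fil p (monomial a c) = if p a then monomial a c else 0 := by
  ext b
  rw [coeff_fil, apply_ite (coeff b), coeff_monomial]
  by_cases h : a = b
  · simp [h]
  · simp [h]

theorem fil_congr {p q : (σ →₀ ℕ) → Prop} {f : MvPolynomial σ ℂ}
    (h : ∀ a ∈ f.support, p a ↔ q a) : fil p f = fil q f := by
  classical
  exact Finset.sum_congr (Finset.filter_congr h) fun _ _ => rfl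

theorem fil_rename (p : (τ →₀ ℕ) → Prop) {e : σ → τ} (he : Function.Injective e)
    (f : MvPolynomial σ ℂ) :
    fil p (rename e f) = rename e (fil (fun a => p (a.mapDomain e)) f) := by
  classical
  conv_lhs => rw [f.as_sum, map_sum, fil_sum]
  simp only [rename_monomial, fil_monomial]
  rw [fil, map_sum, Finset.sum_filter]
  simp only [rename_monomial]

theorem facePoly_eq [Fintype σ] (f : MvPolynomial σ ℂ) (w : σ → ℝ) : facePoly f w =
    fil (fun a => ∀ b ∈ f.support, ∑ i, (a i : ℝ) * w i ≤ ∑ i, (b i : ℝ) * w i) f := by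
  unfold facePoly fil
  congr

theorem wt_mapDomain [Fintype σ] [Fintype τ] (e : σ → τ) (a : σ →₀ ℕ) (w : τ → ℝ) :
    ∑ i, (a.mapDomain e i : ℝ) * w i = ∑ i, (a i : ℝ) * w (e i) := by
  classical
  induction a using Finsupp.induction_linear with
  | zero => simp
  | add a b ha hb => simp [Finsupp.mapDomain_add, add_mul, Finset.sum_add_distrib, ha, hb]
  | single i n => simp [Finsupp.single_apply]

variable [Fintype σ] [Fintype τ] [Fintype κ]

theorem nondeg_sq {F : MvPolynomial τ ℂ} (hn : ND.Nondeg F) : ND.Nondeg (sq κ F) := by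
  classical
  intro w hw x hx
  set p : (τ ⊕ κ →₀ ℕ) → Prop := fun a => ∀ b ∈ (sq κ F).support,
    ∑ i, (a i : ℝ) * w i ≤ ∑ i, (b i : ℝ) * w i with hp
  have e : facePoly (sq κ F) w = rename Sum.inl (fil (fun a => p (a.mapDomain Sum.inl)) F) +
      ∑ j, if p (Finsupp.single (Sum.inr j) 2) then X (Sum.inr j) ^ 2 else 0 := by
    conv_lhs => rw [facePoly_eq, ← hp, SN.sq, fil_add, fil_sum, fil_rename _ Sum.inl_injective]
    simp only [X_pow_eq_monomial, fil_monomial]
    congr!
  by_cases h : ∃ j, p (Finsupp.single (Sum.inr j) 2)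
  · obtain ⟨j, hj⟩ := h
    refine ⟨Sum.inr j, ?_⟩
    have h0 (P : MvPolynomial τ ℂ) : pderiv (Sum.inr j : τ ⊕ κ) (rename Sum.inl P) = 0 :=
      pderiv_eq_zero_of_notMem_vars fun h => by simpa using mem_vars_rename _ _ h
    rw [e, map_add, h0, zero_add, map_sum, Finset.sum_eq_single j, if_pos hj]
    · simpa using hx _
    · intro i _ hi
      split_ifs <;> simp [pderiv_X, hi]
    · simp
  · have hc (a : τ →₀ ℕ) : coeff (a.mapDomain Sum.inl) (sq κ F) = coeff a F := by
      rw [SN.sq, coeff_add, coeff_rename_mapDomain _ Sum.inl_injective, coeff_sum,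
        Finset.sum_eq_zero, add_zero]
      intro j _
      rw [X_pow_eq_monomial, coeff_monomial, if_neg]
      intro e
      simpa [Finsupp.mapDomain_of_notMem_range] using DFunLike.congr_fun e (Sum.inr j)
    obtain ⟨i, hi⟩ := hn (w ∘ Sum.inl) (fun _ => hw _) (x ∘ Sum.inl) fun _ => hx _
    have hF : F ≠ 0 := by
      rintro rfl
      simp [facePoly] at hi
    obtain ⟨a, ha⟩ := support_nonempty.2 hF
    obtain ⟨b, hb, hm⟩ := (sq κ F).support.exists_min_image (fun b => ∑ i, (b i : ℝ) * w i)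
      ⟨_, mem_support_iff.2 ((hc a).trans_ne (mem_support_iff.1 ha))⟩
    have : ∃ c ∈ F.support, c.mapDomain Sum.inl = b := by
      rcases Finset.mem_union.1 (support_add hb) with hb | hb
      · rwa [support_rename_of_injective Sum.inl_injective, Finset.mem_image] at hb
      · obtain ⟨j, -, hj⟩ := Finset.mem_biUnion.1 (support_sum hb)
        rw [X_pow_eq_monomial] at hj
        exact (h ⟨j, Finset.mem_singleton.1 (support_monomial_subset hj) ▸ hm⟩).elim
    obtain ⟨c, hc', rfl⟩ := this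
    refine ⟨Sum.inl i, ?_⟩
    rw [e, Finset.sum_eq_zero fun j _ => if_neg fun hj => h ⟨j, hj⟩, add_zero,
      pderiv_rename Sum.inl_injective, eval_rename]
    rw [facePoly_eq] at hi
    convert hi using 3
    refine fil_congr fun d _ => ⟨fun h1 b hb => ?_, fun h1 b hb => ?_⟩
    · simpa only [wt_mapDomain, Function.comp_apply] using
        h1 _ (mem_support_iff.2 ((hc b).trans_ne (mem_support_iff.1 hb)))
    · refine le_trans ?_ (hm b hb)
      simpa only [wt_mapDomain, Function.comp_apply] using h1 c hc'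

omit [Fintype κ] in
theorem an_apply (i : σ) (y : σ → ℂ) : AnalyticAt ℂ (fun y : σ → ℂ => y i) y :=
  (ContinuousLinearMap.proj (R := ℂ) (φ := fun _ : σ => ℂ) i).analyticAt y

theorem an_inl (y : σ ⊕ κ → ℂ) : AnalyticAt ℂ (fun y : σ ⊕ κ → ℂ => y ∘ Sum.inl) y :=
  analyticAt_pi_iff.2 fun _ => an_apply _ _

theorem Eqv.sq {G : MvPolynomial σ ℂ} {F : MvPolynomial τ ℂ} (h : Eqv G F) :
    Eqv (sq κ G) (sq κ F) := by
  obtain ⟨Φ, Ψ, ℓ, a1, a2, a3, a4, a5, a6, a7, a8⟩ := h
  have t1 := tend (an_inl (σ := σ) (κ := κ) 0) rfl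
  have t2 := tend (an_inl (σ := τ) (κ := κ) 0) rfl
  refine ⟨fun y => Sum.elim (Φ (y ∘ Sum.inl)) fun j =>
      Complex.exp (ℓ (y ∘ Sum.inl) / 2) * y (Sum.inr j),
    fun z => Sum.elim (Ψ (z ∘ Sum.inl)) fun j =>
      Complex.exp (-(ℓ (Ψ (z ∘ Sum.inl)) / 2)) * z (Sum.inr j),
    fun y => ℓ (y ∘ Sum.inl), analyticAt_pi_iff.2 ?_, analyticAt_pi_iff.2 ?_,
    an_comp a3 (an_inl 0) rfl, ?_, ?_, ?_, ?_, ?_⟩
  · rintro (i | j)
    · exact analyticAt_pi_iff.1 (an_comp a1 (an_inl 0) rfl) i
    · exact ((an_comp a3 (an_inl 0) rfl).div_const (c := 2)).cexp.mul (an_apply _ _)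
  · rintro (i | j)
    · exact analyticAt_pi_iff.1 (an_comp a2 (an_inl 0) rfl) i
    · exact ((an_comp (an_comp a3 a2 a5) (an_inl 0) rfl).div_const (c := 2)).neg.cexp.mul
        (an_apply _ _)
  · ext (i | j) <;> simp [a4]
  · ext (i | j) <;> simp [a5]
  · filter_upwards [t1.eventually a6] with y h
    ext (i | j) <;> simp [h, ← mul_assoc, ← Complex.exp_add]
  · filter_upwards [t2.eventually a7] with y h
    ext (i | j) <;> simp [h, ← mul_assoc, ← Complex.exp_add]
  · filter_upwards [t1.eventually a8] with y h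
    simp [eval_sq, h, mul_pow, ← Complex.exp_nat_mul, mul_add, Finset.mul_sum, mul_div_cancel₀]

theorem eqv_sus' {ι : Type} [Fintype ι] (f : MvPolynomial σ ℂ) :
    Eqv (hyp (κ ⊕ ι) f) (SN.sq (ι ⊕ (κ ⊕ ι)) (SN.sq κ f)) := by
  refine ⟨fun y => Sum.elim (Sum.elim (y ∘ Sum.inl) fun j =>
      (y (.inr (.inl (.inl j))) + y (.inr (.inr (.inl j)))) / 2) (Sum.elim (fun j =>
      (y (.inr (.inl (.inr j))) + y (.inr (.inr (.inr j)))) / 2) fun r =>
      (y (.inr (.inr r)) - y (.inr (.inl r))) * Complex.I / 2),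
    fun z => Sum.elim (fun s => z (.inl (.inl s))) (Sum.elim
      (fun r => Sum.elim (fun j => z (.inl (.inr j))) (fun j => z (.inr (.inl j))) r +
        Complex.I * z (.inr (.inr r)))
      fun r => Sum.elim (fun j => z (.inl (.inr j))) (fun j => z (.inr (.inl j))) r -
        Complex.I * z (.inr (.inr r))), 0, analyticAt_pi_iff.2 ?_, analyticAt_pi_iff.2 ?_,
    analyticAt_const, ?_, ?_, .of_forall fun y => ?_, .of_forall fun y => ?_,
    .of_forall fun y => ?_⟩
  · rintro ((i | j) | j | r)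
    · exact an_apply _ _
    · exact ((an_apply _ _).add (an_apply _ _)).div_const
    · exact ((an_apply _ _).add (an_apply _ _)).div_const
    · exact (((an_apply _ _).sub (an_apply _ _)).mul analyticAt_const).div_const
  · rintro (i | (j | j) | j | j)
    · exact an_apply _ _
    · exact (an_apply _ _).add (analyticAt_const.mul (an_apply _ _))
    · exact (an_apply _ _).add (analyticAt_const.mul (an_apply _ _))
    · exact (an_apply _ _).sub (analyticAt_const.mul (an_apply _ _))
    · exact (an_apply _ _).sub (analyticAt_const.mul (an_apply _ _))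
  · ext ((i | j) | j | r) <;> simp
  · ext (i | (j | j) | j | j) <;> simp
  · ext (i | (j | j) | j | j) <;> simp <;> grind [Complex.I_mul_I]
  · ext ((i | j) | j | (j | j)) <;> simp <;> grind [Complex.I_mul_I]
  · simp only [eval_sq, eval_sus, Sum.elim_comp_inl, Fintype.sum_sum_type, Sum.elim_inl,
      Sum.elim_inr, Pi.zero_apply, Complex.exp_zero, one_mul, add_assoc]
    congr 1
    rw [add_left_comm (∑ j : ι, _), ← add_assoc, ← Finset.sum_add_distrib,
      ← Finset.sum_add_distrib]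
    congr 1 <;> exact Finset.sum_congr rfl fun j _ => by grind [Complex.I_mul_I]

theorem eqv_sus (f : MvPolynomial σ ℂ) (k : ℕ) :
    Eqv (hyp (κ ⊕ Fin k) f) (SN.sq (Fin k ⊕ (κ ⊕ Fin k)) (SN.sq κ f)) :=
  eqv_sus' f

end Pool.Agent.P.MP_9321be_ag.SN
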