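import Pool.Agent.P.MP_9321be_ag.SN.ZInv

/-!
Comparison of the zeta functions of `f` and of `f + ∑ u j * v j`.
-/

set_option linter.unusedSectionVars false

namespace Pool.Agent.P.MP_9321be_ag.SN

open MvPolynomial ND Set

variable {σ ρ : Type} [Fintype σ] [Fintype ρ]

theorem exists_field (M k : ℕ) : ∃ v : (ρ → TR M) → ρ → TR M, CFM v ∧
    ∀ w, ¬ (∀ j, tt M ^ k ∣ w j) → (∀ j, tt M ∣ v w j) ∧ ∑ j, w j * v w j = tt M ^ k := by
  classical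
  choose δ hδ using fun i : ℕ => exists_div (tt M ^ i)
  obtain ⟨v, h1, h2⟩ := exists_choice (E := ρ → TR M) (E' := ρ → TR M)
    (Finset.univ ×ˢ Finset.range k) (G := fun (a : ρ × ℕ) w => ordEq a.2 (w a.1))
    (fun a => CFM.cons_ordEq (CFM.id.apply a.1) _)
    (r := fun a w => Pi.single a.1 (tt M ^ (k - a.2) * rinv (δ a.2 (w a.1))))
    (fun a => ((CFM.const _).mul ((CFM.id.apply a.1).app (δ a.2)).rinv).app
      (LinearMap.single ℂ (fun _ : ρ => TR M) a.1))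
  refine ⟨v, h1, fun w hw => ?_⟩
  obtain ⟨j, hj⟩ := not_forall.1 hw
  obtain ⟨i, h3, h4⟩ := exists_ordEq hj
  obtain ⟨⟨j, i⟩, h5, h6, h7⟩ := h2 w ⟨(j, i), by simpa using h3, h4⟩
  have h8 : i < k := by simpa using h5
  have h9 := hδ i _ h6.1
  have h10 : ¬ tt M ∣ δ i (w j) := fun h => h6.2 (by
    rw [← h9, pow_succ]; exact mul_dvd_mul_left _ h)
  rw [h7]
  refine ⟨fun j' => ?_, ?_⟩
  · by_cases e : j' = j
    · subst e
      rw [Pi.single_eq_same]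
      exact (dvd_pow_self _ (by omega)).mul_right _
    · simp [e]
  · rw [Finset.sum_eq_single j (fun j' _ e => by simp [e]) (by simp), Pi.single_eq_same]
    have h11 : tt M ^ k = tt M ^ i * tt M ^ (k - i) := by
      rw [← pow_add, Nat.add_sub_cancel' h8.le]
    simp only at h9 ⊢
    linear_combination (tt M ^ i * tt M ^ (k - i)) * rinv_mul h10 -
      (tt M ^ (k - i) * rinv (δ i (w j))) * h9 - h11

theorem step {E : Type} [AddCommGroup E] [Module ℂ E] [FiniteDimensional ℂ E] {M k : ℕ}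
    (hk : k + 1 ≤ M) {D : E → Prop} (hD : Cons {x | D x}) {a : E → TR M} (ha : CFM a)
    (N : ℕ → MM) (hN : ∀ m, N m = pr {p : E × (ρ → TR M) × (ρ → TR M) |
      (D p.1 ∧ (∀ j, tt M ∣ p.2.1 j) ∧ ∀ j, tt M ∣ p.2.2 j) ∧
        tt M ^ m ∣ a p.1 + ∑ j, p.2.1 j * p.2.2 j}) :
    N (k + 2) - lefInv * N (k + 1) = (lefInv ^ Fintype.card ρ) ^ (k + 2) *
      (pr {x | D x ∧ tt M ^ (k + 2) ∣ a x} - lefInv * pr {x | D x ∧ tt M ^ (k + 1) ∣ a x}) := by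
  obtain ⟨v, v1, v2⟩ := exists_field (ρ := ρ) M (k + 1)
  obtain ⟨c, c1, c2⟩ := exists_coef hk
  let b : E × (ρ → TR M) × (ρ → TR M) → TR M := fun p => a p.1 + ∑ j, p.2.1 j * p.2.2 j
  have hb : CFM b := (ha.comp CFM.id.fst).add
    (CFM.sum _ fun j _ => (CFM.id.snd.fst.apply j).mul (CFM.id.snd.snd.apply j))
  have hw : ∀ m, Cons {w : ρ → TR M | ∀ j, tt M ^ m ∣ w j} := fun m =>
    cons_forall fun j => (CFM.id.apply j).cons_dvd _
  have hW : Cons {p : E × (ρ → TR M) × (ρ → TR M) | ∀ j, tt M ^ (k + 1) ∣ p.2.1 j} :=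
    (hw _).preimage CFM.id.snd.fst
  have hA : ∀ m, Cons {p : E × (ρ → TR M) × (ρ → TR M) |
      (D p.1 ∧ (∀ j, tt M ∣ p.2.1 j) ∧ ∀ j, tt M ∣ p.2.2 j) ∧ tt M ^ m ∣ b p} := fun m =>
    ((hD.preimage CFM.id.fst).and ((cons_tt.preimage CFM.id.snd.fst).and
      (cons_tt.preimage CFM.id.snd.snd))).and (hb.cons_dvd _)
  have e1 : ∀ m ≤ k + 2, pr {p : E × (ρ → TR M) × (ρ → TR M) | (∀ j, tt M ^ (k + 1) ∣ p.2.1 j) ∧
      (D p.1 ∧ (∀ j, tt M ∣ p.2.1 j) ∧ ∀ j, tt M ∣ p.2.2 j) ∧ tt M ^ m ∣ b p} =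
      (lefInv ^ Fintype.card ρ) ^ (k + 2) * pr {x | D x ∧ tt M ^ m ∣ a x} := fun m hm => by
    rw [pow_succ (lefInv ^ _), ← pr_dvd (show k + 1 ≤ M + 1 by omega), ← pow_one (lefInv ^ _),
      ← pr_dvd (show 1 ≤ M + 1 by omega), ← pr_prod (hw _) (hw _), mul_comm,
      ← pr_prod (hD.and (ha.cons_dvd _)) ((hw _).prod (hw _))]
    refine pr_congr fun p => ?_
    have : (∀ j, tt M ^ (k + 1) ∣ p.2.1 j) → (∀ j, tt M ∣ p.2.2 j) →
        (tt M ^ m ∣ b p ↔ tt M ^ m ∣ a p.1) := fun h1 h2 =>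
      dvd_add_left ((pow_dvd_pow _ hm).trans (Finset.dvd_sum fun j _ => by
        rw [pow_succ]; exact mul_dvd_mul (h1 j) (h2 j)))
    simp only [pow_one]
    exact ⟨fun ⟨h1, ⟨h2, _, h3⟩, h4⟩ => ⟨⟨h2, (this h1 h3).1 h4⟩, h1, h3⟩,
      fun ⟨⟨h2, h4⟩, h1, h3⟩ => ⟨h1, ⟨h2, fun j => (dvd_pow_self _ k.succ_ne_zero).trans (h1 j),
        h3⟩, (this h1 h3).2 h4⟩⟩
  have hv : ∀ (p : E × (ρ → TR M) × (ρ → TR M)) (s : ℂ), ¬ (∀ j, tt M ^ (k + 1) ∣ p.2.1 j) →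
      b (p + s • (0, 0, v p.2.1)) = b p + s • tt M ^ (k + 1) := fun p s h => by
    rw [← (v2 _ h).2]
    simp [b, mul_add, Finset.sum_add_distrib, Finset.smul_sum, add_assoc]
  have e2 := pr_flow (hW.not.and (hA (k + 1))) (φ := fun p => c (b p)) (hb c)
    (v := fun p => (0, 0, v p.2.1))
    ((CFM.const 0).prodMk ((CFM.const 0).prodMk (v1.comp CFM.id.snd.fst)))
    (fun p s ⟨h1, h2, h3⟩ => ⟨by simpa using h1, ⟨by simpa using h2.1, by simpa using h2.2.1,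
      fun j => by simpa [Algebra.smul_def] using (h2.2.2 j).add (((v2 _ h1).1 j).mul_left (algebraMap ℂ _ s))⟩, by
        rw [hv p s h1]
        exact h3.add ⟨algebraMap ℂ _ s, by rw [Algebra.smul_def, mul_comm]⟩⟩)
    (fun p s _ => by simp) (fun p s h => by rw [hv p s h.1, map_add, map_smul, c1]; simp)
  rw [hN, hN, pr_split (hA _) hW, pr_split (hA (k + 1)) hW, e1 _ le_rfl, e1 _ (Nat.le_succ _),
    mul_add lefInv, ← e2, pr_congr (Ψ := fun p => c (b p) = 0 ∧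
      ¬ (∀ j, tt M ^ (k + 1) ∣ p.2.1 j) ∧ (D p.1 ∧ (∀ j, tt M ∣ p.2.1 j) ∧ ∀ j, tt M ∣ p.2.2 j) ∧
      tt M ^ (k + 1) ∣ b p) fun p => ⟨fun ⟨h1, h2, h3⟩ =>
        have h4 := (pow_dvd_pow _ (Nat.le_succ _)).trans h3
        ⟨(c2 _ h4).2 h3, h1, h2, h4⟩, fun ⟨h1, h2, h3, h4⟩ => ⟨h2, h3, (c2 _ h4).1 h1⟩⟩]
  ring

theorem ms_sus (f : MvPolynomial σ ℂ) (k : ℕ) :
    ms (hyp ρ f) (k + 2) (k + 2) - lefInv * ms (hyp ρ f) (k + 1) (k + 1) =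
      (lefInv ^ Fintype.card ρ) ^ (k + 2) *
        (ms f (k + 2) (k + 2) - lefInv * ms f (k + 1) (k + 1)) := by
  rw [← ms_level (hyp ρ f) (k + 1).le_succ (k + 1).le_succ,
    ← ms_level f (k + 1).le_succ (k + 1).le_succ]
  refine step (k + 1).le_succ cons_tt (cfm_aeval f) (ms (hyp ρ f) (k + 2)) fun m => ?_
  let L : ((σ → TR (k + 2)) × (ρ → TR (k + 2)) × (ρ → TR (k + 2))) ≃ₗ[ℂ]
      (σ ⊕ ρ ⊕ ρ → TR (k + 2)) :=
    ((LinearEquiv.sumArrowLequivProdArrow _ _ ℂ _).trans ((LinearEquiv.refl ℂ _).prodCongr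
      (LinearEquiv.sumArrowLequivProdArrow _ _ ℂ _))).symm
  rw [ms, ← pr_equiv L (cons_ms _ _ _)]
  refine pr_congr fun p => ?_
  simp only [mem_ofPred_eq, aeval_sus, Sum.forall]
  rfl

end Pool.Agent.P.MP_9321be_ag.SN
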