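import Pool.Agent.P.MP_9321be_ag.NC.All
import Pool.Agent.P.MP_9321be_ag.SN.Alg
import Pool.Agent.P.MP_9321be_ag.SN.HS
import Pool.Agent.P.MP_9321be_ag.SN.Smooth
import Pool.Agent.P.MP_9321be_ag.SN.Sq
import Pool.Agent.P.MP_9321be_ag.SN.ZDesc

/-!
The motivic monodromy conjecture for stably non-degenerate polynomials, from the eigenvalue
theorem.
-/

namespace Pool.Agent.P.MP_9321be_ag.SN

open MvPolynomial ND NC Filter Topology

/-- The eigenvalue theorem for stably non-degenerate polynomials. -/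
def S_ESN : Prop :=
  ∀ {σ τ : Type} [Fintype σ] [DecidableEq σ] [Fintype τ] [DecidableEq τ] (f : MvPolynomial σ ℂ)
    (F : MvPolynomial τ ℂ), coeff 0 F = 0 → Nondeg F → ∀ (r : ℕ)
    (Φ : OpenPartialHomeomorph ((σ → ℂ) × (Fin r → ℂ × ℂ)) (τ → ℂ)), 0 ∈ Φ.source → Φ 0 = 0 →
    ∀ ℓ : (σ → ℂ) × (Fin r → ℂ × ℂ) → ℂ, ContinuousOn ℓ Φ.source →
    (∀ z ∈ Φ.source, eval (Φ z) F =
      Complex.exp (ℓ z) * (eval z.1 f + ∑ j, (z.2 j).1 * (z.2 j).2)) →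
    ∀ (u ω h : τ → ℝ) (s : Finset (τ →₀ ℕ)) (J : Finset τ) (α : ℚ),
    Allowed F.support u ω h s J → Contrib (vs s J) → (∀ a, ¬ UApex (vs s J) a) →
    ∑ i, u i = α → (∀ k : ℤ, α ≠ k) →
    NearEig f (Complex.exp (-(2 * Real.pi * Complex.I * α)))

variable {σ τ κ ρ : Type} [Fintype σ] [Fintype τ] [Fintype κ] [Fintype ρ]

theorem pack {f : MvPolynomial σ ℂ} {F : MvPolynomial τ ℂ} (h : Eqv (hyp ρ f) F) :
    ∃ (Φ : OpenPartialHomeomorph ((σ → ℂ) × (Fin (Fintype.card ρ) → ℂ × ℂ)) (τ → ℂ))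
      (ℓ : (σ → ℂ) × (Fin (Fintype.card ρ) → ℂ × ℂ) → ℂ), AnalyticAt ℂ Φ 0 ∧
      Function.Surjective (fderiv ℂ Φ 0) ∧ AnalyticAt ℂ ℓ 0 ∧ 0 ∈ Φ.source ∧ Φ 0 = 0 ∧
      ContinuousOn ℓ Φ.source ∧ ∀ z ∈ Φ.source, eval (Φ z) F =
        Complex.exp (ℓ z) * (eval z.1 f + ∑ j, (z.2 j).1 * (z.2 j).2) := by
  obtain ⟨Φ, Ψ, ℓ, a1, a2, a3, a4, a5, a6, a7, a8⟩ := h
  let e := Fintype.equivFin ρ
  let Λ : ((σ → ℂ) × (Fin (Fintype.card ρ) → ℂ × ℂ)) ≃L[ℂ] (σ ⊕ ρ ⊕ ρ → ℂ) :=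
    LinearEquiv.toContinuousLinearEquiv
    { toFun := fun z => Sum.elim z.1 (Sum.elim (fun j => (z.2 (e j)).1) fun j => (z.2 (e j)).2)
      invFun := fun y => (y ∘ Sum.inl,
        fun j => (y (Sum.inr (Sum.inl (e.symm j))), y (Sum.inr (Sum.inr (e.symm j)))))
      map_add' := fun _ _ => by ext (i | i | i) <;> rfl
      map_smul' := fun _ _ => by ext (i | i | i) <;> rfl
      left_inv := fun _ => by ext <;> simp
      right_inv := fun _ => by ext (i | i | i) <;> simp }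
  have hΛ : ∀ z, eval (Λ z) (hyp ρ f) = eval z.1 f + ∑ j, (z.2 j).1 * (z.2 j).2 := fun z => by
    rw [eval_sus, ← e.sum_comp]
    rfl
  have b0 := Λ.analyticAt 0
  have b1 := an_comp a1 b0 (map_zero _)
  have b3 := an_comp a3 b0 (map_zero _)
  let L : (σ ⊕ ρ ⊕ ρ → ℂ) ≃L[ℂ] τ → ℂ := (LinearEquiv.ofBijective (fderiv ℂ Φ 0).toLinearMap
    ⟨Function.LeftInverse.injective (fderiv_inv a1 a2 a4 a6),
      Function.RightInverse.surjective (fderiv_inv a2 a1 a5 a7)⟩).toContinuousLinearEquiv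
  have b4 : HasStrictFDerivAt (fun z => Φ (Λ z)) (Λ.trans L : _ →L[ℂ] _) 0 :=
    (show HasStrictFDerivAt Φ (fderiv ℂ Φ 0) (Λ 0) by
      rw [map_zero]; exact a1.hasStrictFDerivAt).comp 0 Λ.hasStrictFDerivAt
  obtain ⟨V, v1, v2, v3⟩ := eventually_nhds_iff.1
    (((tend b0 (map_zero _)).eventually a8).and b3.eventually_analyticAt)
  refine ⟨(b4.toOpenPartialHomeomorph _).restrOpen V v2, fun z => ℓ (Λ z), b1, ?_, b3,
    ⟨b4.mem_toOpenPartialHomeomorph_source, v3⟩, (congrArg Φ (map_zero Λ)).trans a4,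
    fun z hz => (v1 z hz.2).2.continuousAt.continuousWithinAt,
    fun z hz => hΛ z ▸ (v1 z hz.2).1⟩
  change Function.Surjective (fderiv ℂ (fun z => Φ (Λ z)) 0)
  rw [b4.hasFDerivAt.fderiv]
  exact (Λ.trans L).surjective

theorem good [DecidableEq τ] {F : MvPolynomial τ ℂ} (h0 : coeff 0 F = 0) (hn : Nondeg F) {α : ℚ}
    (h1 : α ≠ 1) (h2 : UH F.support α) : Rt lefInv (· ≠ α) (zeta F) := by
  have hf : F ≠ 0 := by
    rintro rfl
    simpa [facePoly] using hn (fun _ => 1) (fun _ => one_pos) (fun _ => 1) fun _ => one_ne_zero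
  obtain ⟨Γ, g1, g2⟩ := t_Gen t_Dense τ F.support α h1
  rw [t_Link τ F]
  exact s_Cover τ F α Γ ⟨⟨support_nonempty.2 hf, by simpa using h0⟩, hn, g1, g2⟩ (t_HB τ _ α h2)

theorem near_int {f : MvPolynomial σ ℂ} (hf : f ≠ 0) (h0 : coeff 0 f = 0) (k : ℤ) :
    NearEig f (Complex.exp (-(2 * Real.pi * Complex.I * ((k : ℚ) : ℂ)))) := fun U hU => by
  have e0 : eval (0 : σ → ℂ) f = 0 := by simpa [constantCoeff_eq] using h0
  have : Complex.exp (-(2 * Real.pi * Complex.I * ((k : ℚ) : ℂ))) = 1 := by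
    rw [← Complex.exp_int_mul_two_pi_mul_I (-k)]
    congr 1
    push_cast
    ring
  rw [this]
  exact ⟨0, mem_of_mem_nhds hU, e0, isMonodromyEigenvalue_one hf e0⟩

theorem good_sus (hE : S_ESN) {f : MvPolynomial σ ℂ} (hf : f ≠ 0) (h0 : coeff 0 f = 0)
    (hd : ∀ i, eval 0 (pderiv i f) = 0) {F : MvPolynomial τ ℂ} (hn : Nondeg F)
    (q : Eqv (hyp ρ f) F) {β : ℚ} (b1 : 1 < β + Fintype.card ρ)
    (b2 : 0 < β → ¬ NearEig f (Complex.exp (-(2 * Real.pi * Complex.I * β)))) :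
    Rt lefInv (· ≠ β + Fintype.card ρ) (zeta (hyp ρ f)) := by
  classical
  obtain ⟨Φ, ℓ, a1, a2, a3, a4, a5, a6, a7⟩ := pack q
  have a8 := eventually_of_mem (Φ.open_source.mem_nhds a4) a7
  have z : coeff 0 F = 0 := by simpa [a5, h0, constantCoeff_eq] using a7 0 a4
  rw [q.zeta_eq]
  refine good z hn b1.ne' fun u ω h' s J c1 c2 c3 => by_contra fun hcon => ?_
  have c4 := strict f _ hf (grad_zero f _ h0 hd _ Φ a1 a5 a2 _ a3.cexp' a8) _ Φ a1 a5 _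
    a3.cexp' (Complex.exp_ne_zero _) a8 u c1.u0 c1.u1
  have c5 : 0 < β := by
    rw [c2] at c4
    exact_mod_cast (show (0 : ℝ) < β by push_cast at c4; linarith)
  refine b2 c5 ?_
  have := hE f _ z hn _ Φ a4 a5 ℓ a6 a7 u ω h' s J _ c1 c3
    (fun a ha => hcon ⟨a, ha⟩) c2 fun j e => b2 c5 (by
      have : β = (j - Fintype.card ρ : ℤ) := by push_cast; linarith
      exact this ▸ near_int hf h0 _)
  convert this using 1
  rw [Complex.exp_eq_exp_iff_exists_int]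
  exact ⟨Fintype.card ρ, by push_cast; ring⟩

theorem den_sus (f : MvPolynomial σ ℂ) {p : Polynomial MM} (hp : p ∈ Alg.den (zeta (hyp ρ f))) :
    (1 - Polynomial.C lefInv * Polynomial.X) * ((Polynomial.X - 1) * p).comp
      (Polynomial.C (algebraMap K0 MM lef ^ Fintype.card ρ) * Polynomial.X) ∈ Alg.den (zeta f) :=
  den_desc (n := fun l => ms f l l) (n' := fun l => ms (hyp ρ f) l l)
    (by rw [← mul_pow, lef_mul_inv, one_pow]) (fun l => coeff_zeta_ms _ l.succ_ne_zero)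
    (fun l => coeff_zeta_ms _ l.succ_ne_zero) (ms_sus f) hp

theorem main (hE : S_ESN) {f : MvPolynomial σ ℂ} (hf : f ≠ 0) (h0 : coeff 0 f = 0)
    {F : MvPolynomial τ ℂ} (hn : Nondeg F) (h : Eqv (sq κ f) F) : MonodromyConjecture f := by
  by_cases hd : ∃ i, eval 0 (pderiv i f) ≠ 0
  · obtain ⟨i, hi⟩ := hd
    exact conj_smooth f h0 i hi
  push Not at hd
  obtain ⟨S, h1, h2⟩ := alg lef_mul_inv
    (fun α => NearEig f (Complex.exp (-(2 * Real.pi * Complex.I * α))))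
    (by simpa using near_int hf h0 1) (zeta f) (fun k => zeta (hyp (κ ⊕ Fin k) f))
    (fun k => Fintype.card (κ ⊕ Fin k)) (fun k => by simp) (fun k p hp => den_sus f hp)
    fun k β b1 b2 => good_sus hE hf h0 hd (nondeg_sq hn) ((eqv_sus f k).trans h.sq) b1 b2
  refine fun U hU => ⟨S, fun q hq => ⟨(h1 q hq).1, (h1 q hq).2.1⟩, h2, fun q hq => ?_⟩
  convert (h1 q hq).2.2 U hU using 6
  push_cast
  ring

end Pool.Agent.P.MP_9321be_ag.SN
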