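import Pool.Agent.P.MP_9321be_ag.SN.Defs
import Pool.Agent.P.MP_9321be_ag.Trunc

/-!
Taylor polynomials and their values on truncated arcs.
-/

set_option linter.unusedSectionVars false

namespace Pool.Agent.P.MP_9321be_ag.SN

open MvPolynomial Filter Topology Asymptotics

variable {σ τ : Type} [Fintype σ] [Fintype τ]

/-- The two functions agree to order `n` at the origin. -/
def Apx (n : ℕ) (g h : (σ → ℂ) → ℂ) : Prop :=
  (fun y => g y - h y) =O[𝓝 0] fun y : σ → ℂ => ‖y‖ ^ n

variable {n : ℕ} {g g' h h' : (σ → ℂ) → ℂ}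

theorem Apx.symm (H : Apx n g h) : Apx n h g := IsBigO.symm H

theorem Apx.trans (H : Apx n g h) (H' : Apx n h h') : Apx n g h' := IsBigO.triangle H H'

theorem Apx.of_eq (H : ∀ᶠ y in 𝓝 0, g y = h y) : Apx n g h :=
  (isBigO_zero _ _).congr' (H.mono fun y hy => by simp [hy]) EventuallyEq.rfl

theorem Apx.add (H : Apx n g h) (H' : Apx n g' h') :
    Apx n (fun y => g y + g' y) fun y => h y + h' y :=
  (IsBigO.add H H').congr_left fun y => by ring

theorem Apx.mul (H : Apx n g h) (H' : Apx n g' h') (c : ContinuousAt g 0) (c' : ContinuousAt h' 0) :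
    Apx n (fun y => g y * g' y) fun y => h y * h' y := by
  have h1 := (c.isBigO_one (F := ℝ)).mul H'
  have h2 := IsBigO.mul H (c'.isBigO_one (F := ℝ))
  simp only [one_mul, mul_one] at h1 h2
  exact (h1.add h2).congr_left fun y => by ring

theorem Apx.eval {a b : (σ → ℂ) → τ → ℂ} (H : ∀ j, Apx n (fun y => a y j) fun y => b y j)
    (ca : ContinuousAt a 0) (cb : ContinuousAt b 0) (Q : MvPolynomial τ ℂ) :
    Apx n (fun y => eval (a y) Q) fun y => eval (b y) Q := by
  induction Q using MvPolynomial.induction_on with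
  | C c => exact Apx.of_eq (by simp)
  | add p q hp hq => simpa using hp.add hq
  | mul_X p j hp =>
    simpa using hp.mul (H j) ((continuous_eval p).continuousAt.comp ca)
      ((continuous_apply j).continuousAt.comp cb)

theorem Apx.comp {g h : (τ → ℂ) → ℂ} (H : Apx n g h) {Φ : (σ → ℂ) → τ → ℂ}
    (hΦ : AnalyticAt ℂ Φ 0) (h0 : Φ 0 = 0) : Apx n (fun y => g (Φ y)) fun y => h (Φ y) := by
  have h1 := hΦ.differentiableAt.isBigO_sub
  simp only [h0, sub_zero] at h1
  exact (H.comp_tendsto (tend hΦ h0)).trans (h1.norm_norm.pow n)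

theorem Apx.zero (H : Apx (n + 1) g h) : g 0 = h 0 := by
  obtain ⟨c, hc⟩ := IsBigO.bound H
  simpa [sub_eq_zero] using hc.self_of_nhds

theorem exists_taylor (hg : AnalyticAt ℂ g 0) (n : ℕ) :
    ∃ P : MvPolynomial σ ℂ, Apx n (fun y => eval y P) g := by
  classical
  obtain ⟨p, hp⟩ := hg
  refine ⟨∑ k ∈ Finset.range n, ∑ r : Fin k → σ,
    C (p k fun j => Pi.single (r j) 1) * ∏ j, X (r j), Apx.symm ?_⟩
  refine (hp.isBigO_sub_partialSum_pow n).congr_left fun y => ?_
  simp only [zero_add, FormalMultilinearSeries.partialSum, map_sum (eval y)]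
  congr 1
  refine Finset.sum_congr rfl fun k _ => ?_
  have := (p k).map_sum (fun (_ : Fin k) (i : σ) => y i • (Pi.single i 1 : σ → ℂ))
  rw [← pi_eq_sum_univ' y] at this
  simp [this, ContinuousMultilinearMap.map_smul_univ, mul_comm]

theorem pow_dvd_of_isBigO {q : Polynomial ℂ} {n : ℕ}
    (H : (fun s => q.eval s) =O[𝓝 0] fun s : ℂ => ‖s‖ ^ n) : Polynomial.X ^ n ∣ q := by
  induction n generalizing q with
  | zero => simp
  | succ n ih =>
    obtain ⟨c, hc⟩ := H.bound
    have h0 : Polynomial.X ∣ q := by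
      simpa [Polynomial.X_dvd_iff, Polynomial.coeff_zero_eq_eval_zero] using hc.self_of_nhds
    obtain ⟨q, rfl⟩ := h0
    rw [pow_succ']
    refine mul_dvd_mul_left _ (ih (IsBigO.of_bound c ?_))
    have h1 : ∀ᶠ s in 𝓝[≠] (0 : ℂ), ‖q.eval s‖ ≤ c * ‖‖s‖ ^ n‖ := by
      filter_upwards [nhdsWithin_le_nhds hc, self_mem_nhdsWithin] with s h1 h2
      refine le_of_mul_le_mul_left ?_ (norm_pos_iff.2 h2)
      simp only [Polynomial.eval_mul, Polynomial.eval_X, norm_mul, norm_pow, norm_norm] at h1 ⊢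
      linarith [h1, show c * ‖s‖ ^ (n + 1) = ‖s‖ * (c * ‖s‖ ^ n) by ring]
    have h2 : ‖q.eval 0‖ ≤ c * ‖‖(0 : ℂ)‖ ^ n‖ :=
      le_of_tendsto_of_tendsto (b := 𝓝[≠] (0 : ℂ))
        ((q.continuous.norm.tendsto 0).mono_left nhdsWithin_le_nhds)
        ((Continuous.tendsto (f := fun s : ℂ => c * ‖‖s‖ ^ n‖) (by fun_prop) 0).mono_left
          nhdsWithin_le_nhds) h1
    rw [← nhdsNE_sup_pure, eventually_sup]
    exact ⟨h1, h2⟩

theorem Apx.aeval_eq {M : ℕ} {P Q : MvPolynomial σ ℂ}
    (H : Apx (M + 1) (fun y => MvPolynomial.eval y P) fun y => MvPolynomial.eval y Q)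
    {x : σ → TR M} (hx : ∀ i, tt M ∣ x i) : aeval x P = aeval x Q := by
  choose q hq using fun i => mkT_surjective (x i)
  have e : ∀ P : MvPolynomial σ ℂ, aeval x P = mkT M (aeval q P) := fun P => by
    rw [← AlgHom.comp_apply, comp_aeval]
    congr 2
    exact funext fun i => (hq i).symm
  have e' : ∀ (P : MvPolynomial σ ℂ) (s : ℂ), Polynomial.eval s (aeval q P) =
      MvPolynomial.eval (fun i => (q i).eval s) P := fun P s => by
    induction P using MvPolynomial.induction_on with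
    | C c => simp
    | add p q hp hq => simp [hp, hq]
    | mul_X p j hp => simp [hp]
  have h0 : ∀ i, (q i).eval 0 = 0 := fun i => by
    have := (dvd_mk (n := M) (m := 1) (by omega) (q i)).1 (by simpa [hq] using hx i)
    simpa [Polynomial.X_dvd_iff, Polynomial.coeff_zero_eq_eval_zero] using this
  have hd : DifferentiableAt ℂ (fun s i => (q i).eval s) 0 :=
    differentiableAt_pi.2 fun i => (q i).differentiableAt
  have z : (fun i => (q i).eval 0) = 0 := funext h0
  have h1 := hd.isBigO_sub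
  have h2 : Tendsto (fun s i => (q i).eval s) (𝓝 0) (𝓝 0) := by
    simpa [ContinuousAt, z] using hd.continuousAt
  simp only [z, sub_zero] at h1
  rw [e, e, ← sub_eq_zero, ← map_sub, mkT_eq_zero]
  refine pow_dvd_of_isBigO (((H.comp_tendsto h2).trans (h1.norm_norm.pow _)).congr_left fun s => ?_)
  simp [e']

theorem dvd_aeval_iff {M : ℕ} (P : MvPolynomial σ ℂ) {x : σ → TR M} (hx : ∀ i, tt M ∣ x i) :
    tt M ∣ aeval x P ↔ MvPolynomial.eval 0 P = 0 := by
  rw [← eps_eq_zero, ← AlgHom.comp_apply, comp_aeval,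
    show (fun i => eps M (x i)) = 0 from funext fun i => (eps_eq_zero _).2 (hx i), aeval_eq_eval]

end Pool.Agent.P.MP_9321be_ag.SN
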