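import Pool.Agent.P.MP_9321be_ag.SN.Sq

/-!
Products of powers of the members of a non-degenerate tuple are stably non-degenerate.
-/

namespace Pool.Agent.P.MP_9321be_ag.SN

open MvPolynomial Filter Topology ND

variable {σ ι : Type} [Fintype σ] [Fintype ι]

/-- Khovanskii's non-degeneracy of a tuple and of all its subtuples: at each point of the torus
the face polynomials that vanish have linearly independent gradients. -/
def Khov (g : ι → MvPolynomial σ ℂ) : Prop :=
  ∀ w : σ → ℝ, (∀ s, 0 < w s) → ∀ x : σ → ℂ, (∀ s, x s ≠ 0) →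
    LinearIndepOn ℂ (fun i s => eval x (pderiv s (facePoly (g i) w)))
      {i | eval x (facePoly (g i) w) = 0}

/-- The polynomial `∏ y i ^ m i + ∑ w i * (y i - g i)`. -/
noncomputable def cay (g : ι → MvPolynomial σ ℂ) (m : ι → ℕ) : MvPolynomial (σ ⊕ ι ⊕ ι) ℂ :=
  ∏ i, X (.inr (.inl i)) ^ m i +
    ∑ i, X (.inr (.inr i)) * (X (.inr (.inl i)) - rename Sum.inl (g i))

theorem face_or {g : MvPolynomial σ ℂ} {w : σ → ℝ} {c : ℝ}
    (h : ∀ a ∈ g.support, c ≤ ∑ i, (a i : ℝ) * w i)
    (h0 : fil (fun a => ∑ i, (a i : ℝ) * w i = c) g ≠ 0) :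
    facePoly g w = fil (fun a => ∑ i, (a i : ℝ) * w i = c) g := by
  obtain ⟨b, hb⟩ := exists_coeff_ne_zero h0
  rw [coeff_fil] at hb
  obtain ⟨h1, h2⟩ := ite_ne_right_iff.1 hb
  rw [facePoly_eq]
  exact fil_congr fun a ha => ⟨fun e => le_antisymm (h1 ▸ e b (mem_support_iff.2 h2)) (h a ha),
    fun e d hd => e ▸ h d hd⟩

theorem face_exists {g : MvPolynomial σ ℂ} (hg : g ≠ 0) (w : σ → ℝ) :
    ∃ b ∈ g.support, (∀ a ∈ g.support, ∑ i, (b i : ℝ) * w i ≤ ∑ i, (a i : ℝ) * w i) ∧
      fil (fun a => ∑ i, (a i : ℝ) * w i = ∑ i, (b i : ℝ) * w i) g ≠ 0 := by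
  obtain ⟨b, hb, hm⟩ := g.support.exists_min_image (fun b => ∑ i, (b i : ℝ) * w i)
    (support_nonempty.2 hg)
  refine ⟨b, hb, hm, fun e => mem_support_iff.1 hb ?_⟩
  simpa [coeff_fil] using congrArg (coeff b) e

theorem euler_fil (g : MvPolynomial σ ℂ) (w : σ → ℝ) (c : ℝ) (x : σ → ℂ) :
    ∑ s, w s * (x s * eval x (pderiv s (fil (fun a => ∑ i, (a i : ℝ) * w i = c) g))) =
      c * eval x (fil (fun a => ∑ i, (a i : ℝ) * w i = c) g) := by
  simp only [fil, map_sum, Finset.mul_sum]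
  rw [Finset.sum_comm]
  refine Finset.sum_congr rfl fun a ha => ?_
  rw [← (Finset.mem_filter.1 ha).2]
  push_cast
  rw [Finset.sum_mul]
  refine Finset.sum_congr rfl fun s _ => ?_
  have := congrArg (eval x) (X_mul_pderiv_monomial (i := s) (m := a) (r := coeff a g))
  rw [map_mul, eval_X, map_nsmul, nsmul_eq_mul] at this
  rw [this]
  ring

omit [Fintype σ] in
theorem fil_X_mul (p : (σ →₀ ℕ) → Prop) (v : σ) (f : MvPolynomial σ ℂ) :
    fil p (X v * f) = X v * fil (fun a => p (Finsupp.single v 1 + a)) f := by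
  classical
  conv_lhs => rw [f.as_sum, Finset.mul_sum, fil_sum]
  simp only [X, monomial_mul, one_mul, fil_monomial]
  rw [fil, Finset.mul_sum, Finset.sum_filter]
  simp only [monomial_mul, one_mul]

omit [Fintype σ] in
theorem fil_sub (p : (σ →₀ ℕ) → Prop) (f g : MvPolynomial σ ℂ) :
    fil p (f - g) = fil p f - fil p g := by
  ext a
  simp only [coeff_fil, coeff_sub]
  split_ifs <;> simp

theorem wt_single_add (v : σ) (a : σ →₀ ℕ) (w : σ → ℝ) :
    ∑ i, ((Finsupp.single v 1 + a : σ →₀ ℕ) i : ℝ) * w i = w v + ∑ i, (a i : ℝ) * w i := by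
  classical
  simp [add_mul, Finset.sum_add_distrib, Finsupp.single_apply]

theorem wt_single (v : σ) (w : σ → ℝ) :
    ∑ i, ((Finsupp.single v 1 : σ →₀ ℕ) i : ℝ) * w i = w v := by
  simpa using wt_single_add v 0 w

theorem nondeg_cay [Nonempty ι] {g : ι → MvPolynomial σ ℂ} {m : ι → ℕ} (hm : ∀ i, 0 < m i)
    (hK : Khov g) : Nondeg (cay g m) := by
  classical
  intro w hw x hx
  by_contra hc
  simp only [not_exists, not_not] at hc
  obtain ⟨M, hM, hM1, hM2⟩ : ∃ M : σ ⊕ ι ⊕ ι →₀ ℕ, (∏ i, X (.inr (.inl i)) ^ m i :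
      MvPolynomial (σ ⊕ ι ⊕ ι) ℂ) = monomial M 1 ∧ (∀ i, M (.inr (.inl i)) = m i) ∧
      ∀ i, M (.inr (.inr i)) = 0 :=
    ⟨∑ i, Finsupp.single (.inr (.inl i)) (m i), by
      simp [X_pow_eq_monomial, monomial_sum_one], by simp [Finsupp.single_apply], by simp⟩
  have c1 : cay g m ≠ 0 := fun e => by
    have := congrArg (coeff M) e
    simp [cay, hM, coeff_sum, coeff_X_mul', hM2] at this
  have c2 (i : ι) (a : σ →₀ ℕ) : coeff (Finsupp.single (.inr (.inr i)) 1 + a.mapDomain Sum.inl)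
      (cay g m) = -coeff a (g i) := by
    rw [cay, hM, coeff_add, coeff_monomial, if_neg, coeff_sum, Finset.sum_eq_single i, coeff_X_mul,
      coeff_sub, coeff_rename_mapDomain _ Sum.inl_injective, coeff_X, if_neg]
    · simp
    · intro e
      simpa [Finsupp.mapDomain_of_notMem_range] using DFunLike.congr_fun e (.inr (.inl i))
    · intro j _ hj
      simp [coeff_X_mul', Finsupp.mapDomain_of_notMem_range, hj]
    · simp
    · intro e
      simpa [Finsupp.mapDomain_of_notMem_range, hM2] using DFunLike.congr_fun e (.inr (.inr i))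
  obtain ⟨b, -, hb, h0⟩ := face_exists c1 w
  obtain ⟨N, hN⟩ : ∃ N, ∑ i, (b i : ℝ) * w i = N := ⟨_, rfl⟩
  rw [hN] at hb h0
  rw [face_or hb h0] at hc
  have eu := euler_fil (cay g m) w N x
  simp only [hc, mul_zero, Finset.sum_const_zero] at eu
  obtain ⟨h, hh⟩ : ∃ h : ι → MvPolynomial σ ℂ, ∀ i, h i = fil
    (fun a => ∑ s, (a s : ℝ) * (w ∘ Sum.inl) s = N - w (.inr (.inr i))) (g i) := ⟨_, fun _ => rfl⟩
  obtain ⟨ε, hε⟩ : ∃ ε : ℂ, ε = if ∑ i, (M i : ℝ) * w i = N then 1 else 0 := ⟨_, rfl⟩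
  obtain ⟨α, hα⟩ : ∃ α : ι → ℂ, ∀ i,
    α i = if w (.inr (.inr i)) + w (.inr (.inl i)) = N then 1 else 0 := ⟨_, fun _ => rfl⟩
  have e : fil (fun a => ∑ i, (a i : ℝ) * w i = N) (cay g m) = C ε * monomial M 1 +
      ∑ i, X (.inr (.inr i)) * (C (α i) * X (.inr (.inl i)) - rename Sum.inl (h i)) := by
    rw [cay, hM, fil_add, fil_monomial, fil_sum, hε]
    congr 1
    · split_ifs <;> simp
    refine Finset.sum_congr rfl fun i _ => ?_
    rw [fil_X_mul, fil_sub, fil_rename _ Sum.inl_injective, hh, hα]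
    congr 2
    · rw [X, fil_monomial, wt_single_add, wt_single]
      split_ifs <;> simp
    · simp only [wt_single_add, wt_mapDomain, Function.comp_apply, eq_sub_iff_add_eq']
  have h0' (v : ι ⊕ ι) (P : MvPolynomial σ ℂ) :
      pderiv (Sum.inr v : σ ⊕ ι ⊕ ι) (rename Sum.inl P) = 0 :=
    pderiv_eq_zero_of_notMem_vars fun h => by simpa using mem_vars_rename _ _ h
  have hX (v) : x v * eval x (pderiv v (monomial M (1 : ℂ))) = M v * eval x (monomial M 1) := by
    simpa using congrArg (eval x) (X_mul_pderiv_monomial (i := v) (m := M) (r := (1 : ℂ)))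
  have hne : eval x (monomial M (1 : ℂ)) ≠ 0 := by
    rw [← hM]
    simp [Finset.prod_ne_zero_iff, hx]
  rw [e] at eu h0 hc
  have hy (i) : ε * (m i * eval x (monomial M 1)) + x (.inr (.inl i)) * x (.inr (.inr i)) * α i
      = 0 := by
    rw [← hM1, ← hX, ← mul_zero (x (.inr (.inl i))), ← hc (.inr (.inl i))]
    simp [-pderiv_monomial, h0', pderiv_X, Pi.single_apply, apply_ite (eval x)]
    ring
  have hv (i) : α i * x (.inr (.inl i)) - eval (x ∘ Sum.inl) (h i) = 0 := by
    rw [← hc (.inr (.inr i))]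
    simp [hM2, h0', pderiv_X, Pi.single_apply, apply_ite (eval x), eval_rename]
  by_cases hε0 : ε = 0
  · have hα0 (i) : α i = 0 := by simpa [hε0, hx] using hy i
    have hf (i) (hi : h i ≠ 0) : facePoly (g i) (w ∘ Sum.inl) = h i := by
      rw [hh] at hi ⊢
      refine face_or (fun a ha => ?_) hi
      have := hb _ (mem_support_iff.2 ((c2 i a).trans_ne (neg_ne_zero.2 (mem_support_iff.1 ha))))
      rwa [wt_single_add, wt_mapDomain, ← sub_le_iff_le_add'] at this
    refine h0 ?_
    rw [hε0, C_0, zero_mul, zero_add]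
    refine Finset.sum_eq_zero fun i _ => ?_
    by_contra hi
    refine hx _ (linearIndepOn_iff'.1 (hK (w ∘ Sum.inl) (fun _ => hw _) (x ∘ Sum.inl) fun _ => hx _)
      (Finset.univ.filter fun i => h i ≠ 0) (fun i => x (.inr (.inr i))) (fun j hj => ?_) ?_ i ?_)
    · simpa [hf j (by simpa using hj), hα0] using hv j
    · ext s
      rw [Finset.sum_congr rfl fun j hj => by rw [hf j (Finset.mem_filter.1 hj).2],
        Finset.sum_filter_of_ne]
      · simpa [hε0, hα0, pderiv_rename Sum.inl_injective, eval_rename, pderiv_X] using hc (.inl s)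
      · exact fun j _ hj e => hj (by ext; simp [e])
    · simp only [Finset.mem_filter, Finset.mem_univ, true_and]
      exact fun e => hi (by simp [e, hα0])
  · have h1 : ∑ i, (M i : ℝ) * w i = N := by_contra fun e => hε0 (by rw [hε, if_neg e])
    have h2 : 0 < N := h1 ▸ Finset.sum_pos' (fun i _ => mul_nonneg (by positivity) (hw i).le)
      ⟨.inr (.inl (Classical.arbitrary ι)), Finset.mem_univ _,
        mul_pos (by simp [hM1, hm]) (hw _)⟩
    simp only [map_add, map_mul, eval_C, map_sum, map_sub, eval_X, eval_rename, hv, mul_zero,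
      Finset.sum_const_zero, add_zero] at eu
    exact mul_ne_zero (by exact_mod_cast h2.ne') (mul_ne_zero hε0 hne) eu.symm

omit [Fintype σ] in
theorem taylor {R : Type} [CommRing R] [Algebra ℂ R] (φ : R →ₐ[ℂ] ℂ) (a u : ι → R)
    (ha : ∀ i, φ (a i) = 0) (hu : ∀ i, φ (u i) = 0) (P : MvPolynomial ι ℂ) :
    ∃ Q : ι → R, aeval (a + u) P = aeval a P + ∑ i, u i * Q i ∧
      ∀ i, φ (Q i) = constantCoeff (pderiv i P) := by
  classical
  induction P using MvPolynomial.induction_on with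
  | C c => exact ⟨0, by simp, by simp⟩
  | add P P' h h' =>
    obtain ⟨Q, h1, h2⟩ := h
    obtain ⟨Q', h3, h4⟩ := h'
    exact ⟨Q + Q', by simp [h1, h3, mul_add, Finset.sum_add_distrib]; ring, by simp [h2, h4]⟩
  | mul_X P j h =>
    obtain ⟨Q, h1, h2⟩ := h
    refine ⟨fun i => Q i * (a j + u j) + Pi.single (M := fun _ => R) j (aeval a P) i, ?_,
      fun i => ?_⟩
    · simp only [map_mul, h1, aeval_X, Pi.add_apply, mul_add (u _), Finset.sum_add_distrib,
        ← mul_assoc, ← Finset.sum_mul, Pi.single_apply, mul_ite, mul_zero, Finset.sum_ite_eq',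
        Finset.mem_univ, if_true]
      ring
    · have : φ (aeval a P) = constantCoeff P := by
        rw [← AlgHom.comp_apply, comp_aeval]
        simp [ha]
      by_cases h : i = j <;> simp [ha, hu, this, h, pderiv_X]

theorem an_eval {τ E : Type} [NormedAddCommGroup E] [NormedSpace ℂ E] (P : MvPolynomial τ ℂ)
    {Φ : E → τ → ℂ} {y : E} (h : ∀ t, AnalyticAt ℂ (fun y => Φ y t) y) :
    AnalyticAt ℂ (fun y => eval (Φ y) P) y := by
  induction P using MvPolynomial.induction_on with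
  | C c => simpa using analyticAt_const
  | add P P' h h' => simpa using h.fun_add h'
  | mul_X P j h' => simpa using h'.fun_mul (h j)

theorem eqv_cay {g : ι → MvPolynomial σ ℂ} {m : ι → ℕ} (h0 : ∀ i, coeff 0 (g i) = 0)
    (hm : 2 ≤ ∑ i, m i) : Eqv (hyp ι (∏ i, g i ^ m i)) (cay g m) := by
  classical
  obtain ⟨Q, h1, h2⟩ := taylor (R := MvPolynomial (σ ⊕ ι) ℂ) (aeval 0)
    (fun i => rename Sum.inl (g i)) (fun i => X (.inr i))
    (fun i => by simpa [aeval_rename, constantCoeff_eq] using h0 i) (by simp) (∏ i, X i ^ m i)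
  have h3 (i) : constantCoeff (Q i) = 0 := by
    have e : (∏ i, X i ^ m i : MvPolynomial ι ℂ) = monomial (∑ i, Finsupp.single i (m i)) 1 := by
      simp [X_pow_eq_monomial, monomial_sum_one]
    have h2 := h2 i
    rw [e, constantCoeff_eq, coeff_pderiv, coeff_monomial, if_neg, zero_mul] at h2
    · simpa using h2
    · intro e
      have := congrArg Finsupp.degree e
      simp at this
      omega
  have h4 (y : σ ⊕ ι → ℂ) : ∏ i, (eval (y ∘ Sum.inl) (g i) + y (.inr i)) ^ m i =
      ∏ i, eval (y ∘ Sum.inl) (g i) ^ m i + ∑ i, y (.inr i) * eval y (Q i) := by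
    simpa [eval_rename] using congrArg (eval y) h1
  have a1 (i) : AnalyticAt ℂ (fun y : σ ⊕ ι ⊕ ι → ℂ => eval (y ∘ Sum.inl) (g i)) 0 :=
    an_eval _ fun _ => an_apply _ _
  have z : (Sum.elim 0 fun _ => 0 : σ ⊕ ι → ℂ) = 0 := Sum.elim_zero_zero
  have g0 (i) : constantCoeff (g i) = 0 := h0 i
  refine ⟨fun y => Sum.elim (y ∘ Sum.inl) (Sum.elim
      (fun i => eval (y ∘ Sum.inl) (g i) + y (.inr (.inl i))) fun i => y (.inr (.inr i)) -
      eval (Sum.elim (y ∘ Sum.inl) fun i => y (.inr (.inl i))) (Q i)),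
    fun y => Sum.elim (y ∘ Sum.inl) (Sum.elim
      (fun i => y (.inr (.inl i)) - eval (y ∘ Sum.inl) (g i)) fun i => y (.inr (.inr i)) +
      eval (Sum.elim (y ∘ Sum.inl) fun i => y (.inr (.inl i)) - eval (y ∘ Sum.inl) (g i)) (Q i)),
    0, analyticAt_pi_iff.2 ?_, analyticAt_pi_iff.2 ?_, analyticAt_const, ?_, ?_,
    .of_forall fun y => ?_, .of_forall fun y => ?_, .of_forall fun y => ?_⟩
  · rintro (s | i | i)
    · exact an_apply _ _
    · exact (a1 i).add (an_apply _ _)
    · refine (an_apply _ _).sub (an_eval (Q i) ?_)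
      rintro (s | i) <;> exact an_apply _ _
  · rintro (s | i | i)
    · exact an_apply _ _
    · exact (an_apply _ _).sub (a1 i)
    · refine (an_apply _ _).add (an_eval (Q i) ?_)
      rintro (s | i)
      · exact an_apply _ _
      · exact (an_apply _ _).sub (a1 i)
  · ext (s | i | i) <;> simp [g0, h3, z]
  · ext (s | i | i) <;> simp [g0, h3, z]
  · ext (s | i | i) <;> simp
  · ext (s | i | i) <;> simp
  · have := h4 (Sum.elim (y ∘ Sum.inl) fun i => y (.inr (.inl i)))
    simp only [Sum.elim_comp_inl, Sum.elim_inr] at this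
    simp only [cay, eval_sus, map_add, map_prod, map_pow, eval_X, Sum.elim_inr, Sum.elim_inl,
      map_sum, map_mul, map_sub, eval_rename, Sum.elim_comp_inl, this, add_sub_cancel_left,
      Pi.zero_apply, Complex.exp_zero, one_mul, add_assoc, ← Finset.sum_add_distrib]
    congr 1
    exact Finset.sum_congr rfl fun i _ => by ring

theorem eqv_sq_sus (f : MvPolynomial σ ℂ) : Eqv (SN.sq (ι ⊕ ι) f) (hyp ι f) := by
  refine ⟨fun y => Sum.elim (y ∘ Sum.inl) (Sum.elim
      (fun i => y (.inr (.inl i)) + Complex.I * y (.inr (.inr i)))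
      fun i => y (.inr (.inl i)) - Complex.I * y (.inr (.inr i))),
    fun y => Sum.elim (y ∘ Sum.inl) (Sum.elim
      (fun i => (y (.inr (.inl i)) + y (.inr (.inr i))) / 2)
      fun i => (y (.inr (.inr i)) - y (.inr (.inl i))) * Complex.I / 2),
    0, analyticAt_pi_iff.2 ?_, analyticAt_pi_iff.2 ?_, analyticAt_const, ?_, ?_,
    .of_forall fun y => ?_, .of_forall fun y => ?_, .of_forall fun y => ?_⟩
  · rintro (s | i | i)
    · exact an_apply _ _
    · exact (an_apply _ _).add (analyticAt_const.mul (an_apply _ _))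
    · exact (an_apply _ _).sub (analyticAt_const.mul (an_apply _ _))
  · rintro (s | i | i)
    · exact an_apply _ _
    · exact ((an_apply _ _).add (an_apply _ _)).div_const
    · exact (((an_apply _ _).sub (an_apply _ _)).mul analyticAt_const).div_const
  · ext (s | i | i) <;> simp
  · ext (s | i | i) <;> simp
  · ext (s | i | i) <;> simp only [Sum.elim_inl, Sum.elim_inr, Function.comp_apply] <;>
      grind [Complex.I_mul_I]
  · ext (s | i | i) <;> simp only [Sum.elim_inl, Sum.elim_inr, Function.comp_apply] <;>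
      grind [Complex.I_mul_I]
  · simp only [eval_sq, eval_sus, Sum.elim_comp_inl, Fintype.sum_sum_type, Sum.elim_inl,
      Sum.elim_inr, Pi.zero_apply, Complex.exp_zero, one_mul, ← Finset.sum_add_distrib]
    congr 1
    exact Finset.sum_congr rfl fun j _ => by grind [Complex.I_mul_I]

theorem Khov.nondeg {g : ι → MvPolynomial σ ℂ} (hK : Khov g) {i : ι} (h0 : coeff 0 (g i) = 0)
    (hg : g i ≠ 0) : Nondeg (g i) := by
  intro w hw x hx
  by_contra hc
  simp only [not_exists, not_not] at hc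
  obtain ⟨b, hb, hm, h1⟩ := face_exists hg w
  have eu := euler_fil (g i) w (∑ s, (b s : ℝ) * w s) x
  rw [← face_or hm h1] at eu
  simp only [hc, mul_zero, Finset.sum_const_zero] at eu
  obtain ⟨s, hs⟩ := Finsupp.ne_iff.1 fun e : b = 0 => mem_support_iff.1 hb (e ▸ h0)
  have h2 : 0 < ∑ s, (b s : ℝ) * w s := Finset.sum_pos'
    (fun i _ => mul_nonneg (by positivity) (hw i).le)
    ⟨s, Finset.mem_univ _, mul_pos (by simpa [Nat.pos_iff_ne_zero] using hs) (hw _)⟩
  exact (hK w hw x hx).ne_zero (i := i) ((mul_eq_zero.1 eu.symm).resolve_left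
    (by exact_mod_cast h2.ne')) (funext hc)

/-- A product of powers of the members of a non-degenerate tuple is stably non-degenerate. -/
theorem prod_stably [Nonempty ι] {g : ι → MvPolynomial σ ℂ} {m : ι → ℕ} (hm : ∀ i, 0 < m i)
    (h0 : ∀ i, coeff 0 (g i) = 0) (hK : Khov g) :
    ∃ F : MvPolynomial (σ ⊕ ι ⊕ ι) ℂ, Nondeg F ∧ Eqv (SN.sq (ι ⊕ ι) (∏ i, g i ^ m i)) F := by
  classical
  by_cases h : 2 ≤ ∑ i, m i
  · exact ⟨_, nondeg_cay hm hK, (eqv_sq_sus _).trans (eqv_cay h0 h)⟩
  · refine ⟨_, nondeg_sq ?_, .of_lin (.refl _ _) fun _ => rfl⟩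
    obtain ⟨i⟩ := ‹Nonempty ι›
    rw [← Finset.add_sum_erase _ _ (Finset.mem_univ i)] at h
    have := hm i
    rw [← Finset.mul_prod_erase _ _ (Finset.mem_univ i), show m i = 1 by omega, pow_one,
      Finset.prod_eq_one fun j hj => by
        rw [Finset.sum_eq_zero_iff (f := m).1 (by omega) j hj, pow_zero], mul_one]
    refine hK.nondeg (h0 i) fun e => ?_
    exact (hK 1 (by simp) 1 (by simp)).ne_zero (i := i) (by simp [e, facePoly])
      (by ext; simp [e, facePoly])

end Pool.Agent.P.MP_9321be_ag.SN
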