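import Pool.Agent.P.MP_9321be_ag.SN.EAll
import Pool.Agent.P.MP_9321be_ag.SN.Main
import Pool.Agent.P.MP_9321be_ag.SN.Prod

/-!
The motivic monodromy conjecture for stably non-degenerate polynomials.
-/

namespace Pool.Agent.P.MP_9321be_ag.SN

open MvPolynomial Filter Topology

theorem conjecture {σ τ κ : Type} [Fintype σ] [Fintype τ] [Fintype κ] {f : MvPolynomial σ ℂ}
    (hf : f ≠ 0) (h0 : coeff 0 f = 0) {F : MvPolynomial τ ℂ} (hn : ND.Nondeg F)
    {Φ : (σ ⊕ κ → ℂ) → τ → ℂ} {u : (σ ⊕ κ → ℂ) → ℂ} (hΦ : AnalyticAt ℂ Φ 0) (hΦ0 : Φ 0 = 0)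
    (hd : Function.Bijective (fderiv ℂ Φ 0)) (hu : AnalyticAt ℂ u 0) (hu0 : u 0 ≠ 0)
    (h : ∀ᶠ y in 𝓝 0, eval (Φ y) F =
      u y * (eval (fun i => y (Sum.inl i)) f + ∑ j, y (Sum.inr j) ^ 2)) :
    MonodromyConjecture f :=
  main (fun f F => e_SN f F) hf h0 hn
    (Eqv.of_bij hΦ hΦ0 hd hu hu0 (h.mono fun y hy => by rw [hy, eval_sq]; rfl))

/-- The non-degenerate case is the case without new variables. -/
theorem conjecture_nondeg {n : ℕ} (f : MvPolynomial (Fin n) ℂ) (h0 : coeff 0 f = 0)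
    (hn : ND.Nondeg f) : MonodromyConjecture f := by
  refine conjecture (κ := Fin 0) (Φ := id) (u := 1) ?_ h0 (nondeg_sq (κ := Fin 0) hn)
    analyticAt_id rfl (by rw [fderiv_id]; exact Function.bijective_id) analyticAt_const one_ne_zero
    (Eventually.of_forall fun y => (eval_sq f y).trans (one_mul _).symm)
  rintro rfl
  simpa [ND.facePoly] using hn (fun _ => 1) (fun _ => one_pos) (fun _ => 1) fun _ => one_ne_zero

/-- Products of powers of the members of a non-degenerate tuple. -/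
theorem conjecture_prod {σ ι : Type} [Fintype σ] [Fintype ι] [Nonempty ι]
    {g : ι → MvPolynomial σ ℂ} {m : ι → ℕ} (hm : ∀ i, 0 < m i) (h0 : ∀ i, coeff 0 (g i) = 0)
    (hK : Khov g) (hg : ∀ i, g i ≠ 0) : MonodromyConjecture (∏ i, g i ^ m i) := by
  obtain ⟨F, h1, h2⟩ := prod_stably hm h0 hK
  refine main (fun f F => e_SN f F) (Finset.prod_ne_zero_iff.2 fun i _ => pow_ne_zero _ (hg i))
    ?_ h1 h2
  rw [← constantCoeff_eq, map_prod]
  exact Finset.prod_eq_zero (Finset.mem_univ (Classical.arbitrary ι))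
    (by rw [map_pow, constantCoeff_eq, h0, zero_pow (hm _).ne'])

end Pool.Agent.P.MP_9321be_ag.SN
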