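import Pool.Agent.P.MP_9321be_ag.ND.Defs

/-!
Analytic contact equivalence of germs and quadratic suspensions.
-/

namespace Pool.Agent.P.MP_9321be_ag.SN

open MvPolynomial Filter Topology

variable {σ τ υ κ ρ : Type} [Fintype σ] [Fintype τ] [Fintype υ] [Fintype κ] [Fintype ρ]

/-- The germs of `G` and `F` at the origin differ by a biholomorphic change of coordinates and a
unit. -/
def Eqv (G : MvPolynomial σ ℂ) (F : MvPolynomial τ ℂ) : Prop :=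
  ∃ (Φ : (σ → ℂ) → τ → ℂ) (Ψ : (τ → ℂ) → σ → ℂ) (ℓ : (σ → ℂ) → ℂ), AnalyticAt ℂ Φ 0 ∧
    AnalyticAt ℂ Ψ 0 ∧ AnalyticAt ℂ ℓ 0 ∧ Φ 0 = 0 ∧ Ψ 0 = 0 ∧ (∀ᶠ y in 𝓝 0, Ψ (Φ y) = y) ∧
    (∀ᶠ z in 𝓝 0, Φ (Ψ z) = z) ∧ ∀ᶠ y in 𝓝 0, eval (Φ y) F = Complex.exp (ℓ y) * eval y G

/-- The polynomial `f + ∑ y j ^ 2`. -/
noncomputable def sq (κ : Type) [Fintype κ] (f : MvPolynomial σ ℂ) : MvPolynomial (σ ⊕ κ) ℂ :=
  rename Sum.inl f + ∑ j, X (Sum.inr j) ^ 2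

/-- The polynomial `f + ∑ u j * v j`. -/
noncomputable def hyp (ρ : Type) [Fintype ρ] (f : MvPolynomial σ ℂ) :
    MvPolynomial (σ ⊕ ρ ⊕ ρ) ℂ :=
  rename Sum.inl f + ∑ j, X (Sum.inr (Sum.inl j)) * X (Sum.inr (Sum.inr j))

omit [Fintype σ] in
theorem eval_sq (f : MvPolynomial σ ℂ) (y : σ ⊕ κ → ℂ) :
    eval y (sq κ f) = eval (y ∘ Sum.inl) f + ∑ j, y (Sum.inr j) ^ 2 := by
  simp [sq, eval_rename]

omit [Fintype σ] in
theorem aeval_sus {A : Type} [CommRing A] [Algebra ℂ A] (f : MvPolynomial σ ℂ)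
    (y : σ ⊕ ρ ⊕ ρ → A) : aeval y (hyp ρ f) = aeval (y ∘ Sum.inl) f +
      ∑ j, y (Sum.inr (Sum.inl j)) * y (Sum.inr (Sum.inr j)) := by
  simp [hyp, aeval_rename]

omit [Fintype σ] in
theorem eval_sus (f : MvPolynomial σ ℂ) (y : σ ⊕ ρ ⊕ ρ → ℂ) :
    eval y (hyp ρ f) = eval (y ∘ Sum.inl) f +
      ∑ j, y (Sum.inr (Sum.inl j)) * y (Sum.inr (Sum.inr j)) := by
  simp [hyp, eval_rename]

theorem tend {E E' : Type} [NormedAddCommGroup E] [NormedSpace ℂ E] [NormedAddCommGroup E']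
    [NormedSpace ℂ E'] {Φ : E → E'} (h : AnalyticAt ℂ Φ 0) (h0 : Φ 0 = 0) :
    Tendsto Φ (𝓝 0) (𝓝 0) := by
  simpa [ContinuousAt, h0] using h.continuousAt

theorem an_comp {E E' E'' : Type} [NormedAddCommGroup E] [NormedSpace ℂ E] [NormedAddCommGroup E']
    [NormedSpace ℂ E'] [NormedAddCommGroup E''] [NormedSpace ℂ E''] {Φ : E → E'} {Ψ : E' → E''}
    (hΨ : AnalyticAt ℂ Ψ 0) (h : AnalyticAt ℂ Φ 0) (h0 : Φ 0 = 0) :
    AnalyticAt ℂ (fun y => Ψ (Φ y)) 0 :=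
  AnalyticAt.comp_of_eq hΨ h h0

theorem Eqv.trans {G : MvPolynomial σ ℂ} {F : MvPolynomial τ ℂ} {H : MvPolynomial υ ℂ}
    (h : Eqv G F) (h' : Eqv F H) : Eqv G H := by
  obtain ⟨Φ, Ψ, ℓ, a1, a2, a3, a4, a5, a6, a7, a8⟩ := h
  obtain ⟨Φ', Ψ', ℓ', b1, b2, b3, b4, b5, b6, b7, b8⟩ := h'
  refine ⟨fun y => Φ' (Φ y), fun z => Ψ (Ψ' z), fun y => ℓ' (Φ y) + ℓ y, an_comp b1 a1 a4,
    an_comp a2 b2 b5, (an_comp b3 a1 a4).add a3, by simp [a4, b4], by simp [a5, b5], ?_, ?_, ?_⟩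
  · filter_upwards [a6, (tend a1 a4).eventually b6] with y h1 h2
    rw [h2, h1]
  · filter_upwards [b7, (tend b2 b5).eventually a7] with y h1 h2
    rw [h2, h1]
  · filter_upwards [a8, (tend a1 a4).eventually b8] with y h1 h2
    rw [h2, h1, Complex.exp_add, mul_assoc]

theorem Eqv.of_lin {G : MvPolynomial σ ℂ} {F : MvPolynomial τ ℂ} (L : (σ → ℂ) ≃ₗ[ℂ] τ → ℂ)
    (h : ∀ y, eval (L y) F = eval y G) : Eqv G F :=
  ⟨L, L.symm, 0, L.toContinuousLinearEquiv.analyticAt 0,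
    L.symm.toContinuousLinearEquiv.analyticAt 0, analyticAt_const, by simp, by simp, by simp,
    by simp, by simp [h]⟩

/-- The inverse function theorem. -/
theorem exists_inv {E E' : Type} [NormedAddCommGroup E] [NormedSpace ℂ E] [NormedAddCommGroup E']
    [NormedSpace ℂ E'] [FiniteDimensional ℂ E] [FiniteDimensional ℂ E'] {Φ : E → E'}
    (h : AnalyticAt ℂ Φ 0) (h0 : Φ 0 = 0) (hd : Function.Bijective (fderiv ℂ Φ 0)) :
    ∃ Ψ : E' → E, AnalyticAt ℂ Ψ 0 ∧ Ψ 0 = 0 ∧ (∀ᶠ y in 𝓝 0, Ψ (Φ y) = y) ∧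
      ∀ᶠ z in 𝓝 0, Φ (Ψ z) = z := by
  have := FiniteDimensional.complete ℂ E
  let L : E ≃L[ℂ] E' :=
    (LinearEquiv.ofBijective (fderiv ℂ Φ 0).toLinearMap hd).toContinuousLinearEquiv
  have h1 : HasFDerivAt Φ (L : E →L[ℂ] E') 0 := h.differentiableAt.hasFDerivAt
  have h2 : ContDiffAt ℂ ⊤ Φ 0 := h.contDiffAt
  have h3 := h2.hasStrictFDerivAt' h1 (by simp)
  refine ⟨h3.localInverse Φ L 0, ?_, ?_, h3.eventually_left_inverse, ?_⟩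
  · have := (h2.to_localInverse h1 (by simp)).analyticAt
    rwa [h0] at this
  · have := h3.localInverse_apply_image
    rwa [h0] at this
  · have := h3.eventually_right_inverse
    rwa [h0] at this

theorem Eqv.of_bij {G : MvPolynomial σ ℂ} {F : MvPolynomial τ ℂ} {Φ : (σ → ℂ) → τ → ℂ}
    {u : (σ → ℂ) → ℂ} (h : AnalyticAt ℂ Φ 0) (h0 : Φ 0 = 0)
    (hd : Function.Bijective (fderiv ℂ Φ 0)) (hu : AnalyticAt ℂ u 0) (hu0 : u 0 ≠ 0)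
    (he : ∀ᶠ y in 𝓝 0, eval (Φ y) F = u y * eval y G) : Eqv G F := by
  obtain ⟨Ψ, a1, a2, a3, a4⟩ := exists_inv h h0 hd
  refine ⟨Φ, Ψ, fun y => Complex.log (u y / u 0) + Complex.log (u 0), h, a1,
    ((hu.div_const (c := u 0)).clog (by simp [hu0])).add analyticAt_const, h0, a2, a3, a4, ?_⟩
  filter_upwards [he, hu.continuousAt.eventually_ne hu0] with y h1 h2
  rw [h1, Complex.exp_add, Complex.exp_log (div_ne_zero h2 hu0), Complex.exp_log hu0,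
    div_mul_cancel₀ _ hu0]

theorem fderiv_inv {E E' : Type} [NormedAddCommGroup E] [NormedSpace ℂ E] [NormedAddCommGroup E']
    [NormedSpace ℂ E'] {Φ : E → E'} {Ψ : E' → E} (h : AnalyticAt ℂ Φ 0) (h' : AnalyticAt ℂ Ψ 0)
    (h0 : Φ 0 = 0) (e : ∀ᶠ y in 𝓝 0, Ψ (Φ y) = y) (y : E) :
    fderiv ℂ Ψ 0 (fderiv ℂ Φ 0 y) = y := by
  have h1 := (h0 ▸ h'.differentiableAt.hasFDerivAt : HasFDerivAt Ψ (fderiv ℂ Ψ 0) (Φ 0)).comp 0
    h.differentiableAt.hasFDerivAt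
  have h2 := (h1.congr_of_eventuallyEq (f₁ := id) (e.mono fun y hy => hy.symm)).unique
    (hasFDerivAt_id 0)
  exact DFunLike.congr_fun h2 y

theorem Eqv.card {G : MvPolynomial σ ℂ} {F : MvPolynomial τ ℂ} (h : Eqv G F) :
    Fintype.card σ = Fintype.card τ := by
  obtain ⟨Φ, Ψ, ℓ, a1, a2, a3, a4, a5, a6, a7, a8⟩ := h
  simpa using (LinearEquiv.ofBijective (fderiv ℂ Φ 0).toLinearMap
    ⟨Function.LeftInverse.injective (fderiv_inv a1 a2 a4 a6),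
      Function.RightInverse.surjective (fderiv_inv a2 a1 a5 a7)⟩).finrank_eq

end Pool.Agent.P.MP_9321be_ag.SN
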