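import Pool.Agent.P.MP_9321be_ag.SN.EPro

/-!
The double suspension `F x + u v`.
-/

namespace Pool.Agent.P.MP_9321be_ag.SN

open Pool.Agent.Lib.Helper83 Set Filter Topology Complex NC Metric

variable {E : Type} [NormedAddCommGroup E]
  {G : Submonoid (Polynomial ℂ)} {k : ℕ} {F : E → ℂ} {x₀ : E}

/-- The double suspension. -/
def dsus (F : E → ℂ) (z : E × ℂ × ℂ) : ℂ := F z.1 + z.2.1 * z.2.2

/-- The ambient space. -/
abbrev ZE (E : Type) := (E × ℂ × ℂ) × ℂ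

/-- Fibres of the suspension without bounds on the new variables. -/
def MI (F : E → ℂ) (x₀ : E) (a : ℝ) : Set (ZE E) :=
  {p | p.1.1 ∈ ball x₀ a ∧ dsus F p.1 = exp p.2 ∧ ‖exp p.2‖ < a}

/-- The part where `v = 0`. -/
def BI (F : E → ℂ) (x₀ : E) (a : ℝ) : Set (ZE E) :=
  {p | p.1.1 ∈ ball x₀ a ∧ p.1.2.2 = 0 ∧ F p.1.1 = exp p.2}

/-- A condition on `u`. -/
def Ou (E : Type) (D : Set ℂ) : Set (ZE E) := {p | p.1.2.1 ∈ D}

/-- The tube around the part where `u v = 0`. -/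
def O2 (F : E → ℂ) : Set (ZE E) := {p | ‖p.1.2.1 * p.1.2.2‖ < ‖F p.1.1‖ / 2}

lemma cont_sus (hF : Continuous F) : Continuous (dsus F) := by unfold dsus; fun_prop

lemma fam_MI (F : E → ℂ) (x₀ : E) : Fam dE (MI F x₀) :=
  ⟨cont_dE, fun _ _ _ h _ hp => ⟨ball_subset_ball h hp.1, hp.2.1, hp.2.2.trans_le h⟩,
    fun _ _ hp => ⟨hp.1, by simpa [dE, exp_add] using hp.2⟩⟩

lemma fam_BI (F : E → ℂ) (x₀ : E) : Fam dE (BI F x₀) :=
  ⟨cont_dE, fun _ _ _ h _ hp => ⟨ball_subset_ball h hp.1, hp.2⟩,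
    fun _ _ hp => ⟨hp.1, hp.2.1, by simpa [dE, exp_add] using hp.2.2⟩⟩

lemma open_Ou {D : Set ℂ} (h : IsOpen D) : IsOpen (Ou E D) := h.preimage (f := fun p : ZE E =>
  p.1.2.1) (by fun_prop)

lemma open_O2 (hF : Continuous F) : IsOpen (O2 F) := isOpen_lt (by fun_prop) (by fun_prop)

lemma small {X : Type} [PseudoMetricSpace X] {g : X → ℂ} {x : X} (hg : Continuous g)
    (h0 : g x = 0) {a r : ℝ} (ha : 0 < a) (hr : 0 < r) :
    ∃ b > 0, b ≤ a ∧ ∀ y ∈ ball x b, ‖g y‖ < r := by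
  obtain ⟨b, hb, h⟩ := Metric.mem_nhds_iff.1
    (hg.continuousAt (x := x) (h0 ▸ ball_mem_nhds (0 : ℂ) hr))
  exact ⟨min b a, lt_min hb ha, min_le_right _ _, fun y hy =>
    mem_ball_zero_iff.1 (h0 ▸ h (ball_subset_ball (min_le_left _ _) hy))⟩

/-- The correction of the logarithm. -/
noncomputable def Lg (F : E → ℂ) (q : ZE E × ℝ) : ℂ :=
  log (1 + q.2 * (q.1.1.2.1 * q.1.1.2.2 / F q.1.1.1))

/-- Shrinking of `v` in the tube. -/
noncomputable def Rv (F : E → ℂ) (q : ZE E × ℝ) : ZE E :=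
  ((q.1.1.1, q.1.1.2.1, q.2 * q.1.1.2.2), q.1.2 - Lg F (q.1, 1) + Lg F q)

omit [NormedAddCommGroup E] in
lemma ne_of_O2 {p : ZE E} (hp : p ∈ O2 F) : F p.1.1 ≠ 0 := fun h => by
  have := (norm_nonneg _).trans_lt hp
  simp [h] at this

omit [NormedAddCommGroup E] in
lemma nrm_O2 {p : ZE E} (hp : p ∈ O2 F) {t : ℝ} (ht : t ∈ Icc (0 : ℝ) 1) :
    ‖p.1.2.1 * (t * p.1.2.2)‖ < ‖F p.1.1‖ / 2 := by
  rw [mul_left_comm, norm_mul, norm_real, Real.norm_of_nonneg ht.1]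
  exact (mul_le_of_le_one_left (norm_nonneg _) ht.2).trans_lt hp

omit [NormedAddCommGroup E] in
lemma slit_O2 {p : ZE E} (hp : p ∈ O2 F) {t : ℝ} (ht : t ∈ Icc (0 : ℝ) 1) :
    1 + t * (p.1.2.1 * p.1.2.2 / F p.1.1) ∈ slitPlane := by
  refine mem_slitPlane_of_norm_lt_one ?_
  have h := nrm_O2 hp ht
  have h0 := norm_pos_iff.2 (ne_of_O2 hp)
  rw [← mul_div_assoc, mul_left_comm, norm_div, div_lt_one h0]
  linarith

lemma cont_Lg (hF : Continuous F) : ContinuousOn (Lg F) (O2 F ×ˢ Icc (0 : ℝ) 1) :=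
  ContinuousOn.clog (continuousOn_const.add (ContinuousOn.mul (by fun_prop)
    (ContinuousOn.div (by fun_prop) (by fun_prop) fun _ hq => ne_of_O2 hq.1)))
    fun _ hq => slit_O2 hq.1 hq.2

lemma cont_Rv (hF : Continuous F) : ContinuousOn (Rv F) (O2 F ×ˢ Icc (0 : ℝ) 1) :=
  ContinuousOn.prodMk (by fun_prop) ((ContinuousOn.sub (by fun_prop) ((cont_Lg hF).comp
    (f := fun q : ZE E × ℝ => (q.1, (1 : ℝ))) (by fun_prop)
    fun _ hq => ⟨hq.1, right_mem_Icc.2 zero_le_one⟩)).add (cont_Lg hF))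

omit [NormedAddCommGroup E] in
lemma Rv_eq {p : ZE E} (hp : p ∈ O2 F) (h : dsus F p.1 = exp p.2) {t : ℝ} (ht : t ∈ Icc (0 : ℝ) 1) :
    F p.1.1 + p.1.2.1 * (t * p.1.2.2) = exp (Rv F (p, t)).2 := by
  have h1 := slitPlane_ne_zero (slit_O2 hp (right_mem_Icc.2 zero_le_one))
  have h0 := ne_of_O2 hp
  simp only [Rv, Lg]
  rw [exp_add, exp_sub, exp_log h1, exp_log (slitPlane_ne_zero (slit_O2 hp ht)), ← h, dsus,
    div_mul_eq_mul_div, eq_div_iff h1]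
  push_cast
  field_simp

omit [NormedAddCommGroup E] in
lemma Rv_zero {p : ZE E} (h : p.1.2.2 = 0) : Rv F (p, 0) = p := by
  obtain ⟨⟨x, u, v⟩, s⟩ := p
  simp only at h
  simp [Rv, Lg, h]

lemma B_O2 {a : ℝ} {p : ZE E} (hp : p ∈ BI F x₀ a) : p ∈ O2 F := by
  simp [O2, hp.2.1, hp.2.2]

lemma cont_R0 (hF : Continuous F) : ContinuousOn (fun p => Rv F (p, 0)) (O2 F) :=
  (cont_Rv hF).comp (by fun_prop) fun _ hp => ⟨hp, left_mem_Icc.2 zero_le_one⟩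

lemma maps_R0 (a : ℝ) (D : Set ℂ) :
    MapsTo (fun p => Rv F (p, 0)) (MI F x₀ a ∩ (Ou E D ∩ O2 F)) (BI F x₀ a ∩ Ou E D) :=
  fun p hp => ⟨⟨hp.1.1, by simp [Rv], by
    show F p.1.1 = _
    simpa using Rv_eq hp.2.2 hp.1.2.1 (left_mem_Icc.2 zero_le_one)⟩, hp.2.1⟩

lemma pro_MB (hF : Continuous F) (h0 : F x₀ = 0) {D : Set ℂ}
    (h : Pro dE G k fun a => BI F x₀ a ∩ Ou E D) :
    Pro dE G k fun a => MI F x₀ a ∩ (Ou E D ∩ O2 F) := by
  refine h.through ((fam_MI _ _).inter fun _ hp => hp) ((fam_BI _ _).inter fun _ hp => hp)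
    fun a ha => ?_
  obtain ⟨a', ha', h1, h2⟩ := small hF h0 ha (half_pos ha)
  refine ⟨a', ha', id, continuousOn_id, fun p hp => ⟨⟨ball_subset_ball h1 hp.1.1,
    by simp [dsus, hp.1.2.1, hp.1.2.2], ?_⟩, hp.2, B_O2 hp.1⟩, fun _ _ => rfl, fun b' hb' => ?_⟩
  · have := h2 _ hp.1.1
    rw [hp.1.2.2] at this
    exact this.trans (half_lt_self ha)
  have hI : ∀ t ∈ Icc (0 : ℝ) 1, 1 - t ∈ Icc (0 : ℝ) 1 := fun t ht =>
    ⟨by linarith [ht.2], by linarith [ht.1]⟩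
  refine ⟨_, lt_min hb' ha', fun p => Rv F (p, 0), fun q => Rv F (q.1, 1 - q.2),
    (cont_R0 hF).mono fun _ hp => hp.2.2, (maps_R0 _ D).mono_right (inter_subset_inter_left _
      ((fam_BI _ _).mono _ _ (lt_min hb' ha') (min_le_left _ _))),
    (cont_Rv hF).comp (by fun_prop) fun q hq => ⟨hq.1.2.2, hI _ hq.2⟩, fun q hq => ?_,
    fun p _ => by simp [Rv], fun p _ => by simp⟩
  have h3 := ball_subset_ball (min_le_right _ _) hq.1.1.1
  have h4 := Rv_eq hq.1.2.2 hq.1.1.2.1 (hI _ hq.2)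
  have h5 := nrm_O2 hq.1.2.2 (hI _ hq.2)
  refine ⟨⟨ball_subset_ball h1 h3, h4, ?_⟩, hq.1.2.1, h5⟩
  rw [← h4]
  linarith [norm_add_le (F q.1.1.1) (q.1.1.2.1 * ((1 - q.2 : ℝ) * q.1.1.2.2)), h2 _ h3]

lemma pro_BA {C : Set ℂ} {c : ℂ} (hc : c ∈ C) (hC : StarConvex ℝ c C)
    (h : Pro dE G k (SF F x₀)) : Pro dE G k fun a => BI F x₀ a ∩ Ou E C := by
  refine h.through ((fam_BI _ _).inter fun _ hp => hp) (fam_SF _ _) fun a ha =>
    ⟨a, ha, fun p => ((p.1, c, 0), p.2), by fun_prop, fun p hp => ⟨⟨hp.1, rfl, hp.2⟩, hc⟩,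
      fun _ _ => rfl, fun b' hb' => ⟨_, lt_min hb' ha, fun p => (p.1.1, p.2), fun q =>
        ((q.1.1.1, q.2 • c + (1 - q.2) • q.1.1.2.1, 0), q.1.2), by fun_prop, fun p hp =>
        ⟨ball_subset_ball (min_le_left _ _) hp.1.1, hp.1.2.2⟩, by fun_prop, fun q hq =>
        ⟨⟨ball_subset_ball (min_le_right _ _) hq.1.1.1, rfl, hq.1.1.2.2⟩,
          hC hq.1.2 hq.2.1 (sub_nonneg.2 hq.2.2) (by ring)⟩, fun p hp => ?_, fun p _ => by simp⟩⟩
  obtain ⟨⟨x, u, v⟩, s⟩ := p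
  have : v = 0 := hp.1.2.1
  simp [this]

lemma pro_BU (hG : Polynomial.X - 1 ∈ G) {C₁ C₂ : Set ℂ} (o₁ : IsOpen C₁) (o₂ : IsOpen C₂)
    (k₁ : ∀ k, Pro dE G k fun a => BI F x₀ a ∩ Ou E C₁)
    (k₂ : ∀ k, Pro dE G k fun a => BI F x₀ a ∩ Ou E C₂)
    (k₃ : ∀ k, Pro dE G k fun a => BI F x₀ a ∩ Ou E (C₁ ∩ C₂)) :
    ∀ k, Pro dE G k fun a => BI F x₀ a ∩ Ou E (C₁ ∪ C₂) :=
  pro_union hG ((fam_BI _ _).inter fun _ hp => hp) (open_Ou o₁) (open_Ou o₂) (fun _ hp => hp)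
    (fun _ hp => hp) (fun _ _ hp => hp.2)
    (fun k => (k₁ k).congr (S₁ := fun a => BI F x₀ a ∩ Ou E (C₁ ∪ C₂) ∩ Ou E C₁) fun _ =>
      Set.ext fun _ => ⟨fun h => ⟨⟨h.1, Or.inl h.2⟩, h.2⟩, fun h => ⟨h.1.1, h.2⟩⟩)
    (fun k => (k₂ k).congr (S₁ := fun a => BI F x₀ a ∩ Ou E (C₁ ∪ C₂) ∩ Ou E C₂) fun _ =>
      Set.ext fun _ => ⟨fun h => ⟨⟨h.1, Or.inr h.2⟩, h.2⟩, fun h => ⟨h.1.1, h.2⟩⟩)
    fun k => (k₃ k).congr (S₁ := fun a => BI F x₀ a ∩ Ou E (C₁ ∪ C₂) ∩ (Ou E C₁ ∩ Ou E C₂))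
      fun _ => Set.ext fun _ => ⟨fun h => ⟨⟨h.1, Or.inl h.2.1⟩, h.2⟩, fun h => ⟨h.1.1, h.2⟩⟩

lemma slit_union : slitPlane ∪ -slitPlane = ({0}ᶜ : Set ℂ) := by
  ext z
  simp only [mem_union, Set.mem_neg, mem_slitPlane_iff, mem_compl_iff, mem_singleton_iff,
    Complex.ext_iff, neg_re, neg_im, zero_re, zero_im, neg_ne_zero, neg_pos]
  rcases lt_trichotomy z.re 0 with h | h | h
  exacts [by simp [h, h.ne], by simp [h], by simp [h, h.ne']]

lemma slit_inter : slitPlane ∩ -slitPlane = {z : ℂ | 0 < z.im} ∪ {z | z.im < 0} := by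
  ext z
  simp only [mem_union, mem_inter_iff, Set.mem_neg, mem_slitPlane_iff, neg_re, neg_im, neg_ne_zero,
    neg_pos, mem_ofPred_eq]
  constructor
  · rintro ⟨h | h, h' | h'⟩
    exacts [absurd h h'.not_gt, h'.symm.lt_or_gt, h.symm.lt_or_gt, h.symm.lt_or_gt]
  · rintro (h | h)
    exacts [⟨Or.inr h.ne', Or.inr h.ne'⟩, ⟨Or.inr h.ne, Or.inr h.ne⟩]

lemma open_im : IsOpen {z : ℂ | 0 < z.im} ∧ IsOpen {z : ℂ | z.im < 0} :=
  ⟨isOpen_lt continuous_const continuous_im, isOpen_lt continuous_im continuous_const⟩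

lemma pro_up (hG : Polynomial.X - 1 ∈ G) (hF : Continuous F) (h0 : F x₀ = 0)
    (h : ∀ k, Pro dE G k (SF F x₀)) : ∀ k, Pro dE G k (MI F x₀) := by
  have hB : ∀ k, Pro dE G k fun a => BI F x₀ a ∩ Ou E {0}ᶜ := by
    rw [← slit_union]
    refine pro_BU hG isOpen_slitPlane isOpen_slitPlane.neg
      (fun k => pro_BA (by simp) starConvex_one_slitPlane (h k))
      (fun k => pro_BA (by simp) starConvex_one_slitPlane.neg (h k)) ?_
    rw [slit_inter]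
    refine pro_BU hG open_im.1 open_im.2
      (fun k => pro_BA (c := I) (by simp) ((convex_halfSpace_im_gt 0).starConvex (by simp)) (h k))
      (fun k => pro_BA (c := -I) (by simp) ((convex_halfSpace_im_lt 0).starConvex (by simp)) (h k))
      fun k a _ => ⟨1, one_pos, (kill_empty hG).mono (fun p hp =>
        (lt_asymm (a := (0 : ℝ)) (b := p.1.2.1.im) hp.2.1 hp.2.2).elim) subset_rfl⟩
  refine pro_union hG (fam_MI _ _) (open_Ou (D := {0}ᶜ) isOpen_compl_singleton) (open_O2 hF)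
    (fun _ hp => hp) (fun _ hp => hp) (fun a p hp => ?_) (fun k a ha => ⟨a, ha, ?_⟩)
    (fun k => (pro_MB hF h0 (D := univ) (pro_BA (mem_univ 0) (convex_univ.starConvex trivial)
      (h k))).congr fun a => by ext p; simp [Ou]) fun k => pro_MB hF h0 (hB k)
  · refine (em (p.1.2.1 = 0)).symm.imp_right fun h => ?_
    have := hp.2.1
    simp only [dsus, h, zero_mul, add_zero] at this
    simp [O2, h, this]
  refine kill_htpy (N := 1) cont_dE (by simpa using hG) (H := fun q => ((q.1.1.1, q.1.1.2.1,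
    (exp (q.1.2 + 2 * Real.pi * I * q.2) - F q.1.1.1) / q.1.1.2.1), q.1.2 + 2 * Real.pi * I * q.2))
    (ContinuousOn.prodMk (ContinuousOn.prodMk (by fun_prop) (ContinuousOn.prodMk (by fun_prop)
      (ContinuousOn.div (by fun_prop) (by fun_prop) fun q hq => hq.1.2))) (by fun_prop))
    (fun q hq => ⟨⟨hq.1.1.1, ?_, by simpa [norm_exp] using hq.1.1.2.2⟩, hq.1.2⟩)
    (fun p hp => ?_) fun p hp => ?_
  · simp only [dsus]
    rw [mul_div_cancel₀ _ hq.1.2, add_sub_cancel]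
  · have h1 : p.1.2.1 ≠ 0 := hp.2
    simp [← hp.1.2.1, dsus, h1]
  · have h1 : p.1.2.1 ≠ 0 := hp.2
    simp [dE, exp_add, ← hp.1.2.1, dsus, h1]

/-- The two arcs from `I` to `-I`. -/
def arc (e t : ℝ) : ℂ := ⟨e * (t * (1 - t)), 1 - 2 * t⟩

lemma cont_arc (e : ℝ) : Continuous (arc e) :=
  (equivRealProdCLM.symm.continuous.comp (f := fun t : ℝ => (e * (t * (1 - t)), 1 - 2 * t))
    (by fun_prop))

lemma arc_mem (t : ℝ) : arc 1 t ∈ slitPlane ∧ arc (-1) t ∈ -slitPlane := by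
  by_cases h : 1 - 2 * t = 0
  · obtain rfl : t = 1 / 2 := by linarith
    constructor <;> norm_num [arc, mem_slitPlane_iff]
  · exact ⟨Or.inr h, Or.inr (neg_ne_zero.2 h)⟩

/-- The lift of an arc. -/
noncomputable def Ha (F : E → ℂ) (e : ℝ) (q : (E × ℂ) × ℝ) : ZE E :=
  ((q.1.1, arc e q.2, (exp q.1.2 - F q.1.1) / arc e q.2), q.1.2)

lemma pro_down [NormedSpace ℝ E] (hF : Continuous F) (h0 : F x₀ = 0)
    (h : Pro dE G (k + 3) (MI F x₀)) : Pro dE G (k + 1) (SF F x₀) := fun a ha => by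
  obtain ⟨b₀, hb₀, g, hg, hK⟩ := h a ha
  obtain ⟨b, hb, b1, b2⟩ : ∃ b > 0, b ≤ b₀ ∧ b ≤ a :=
    ⟨_, lt_min hb₀ ha, min_le_left _ _, min_le_right _ _⟩
  obtain ⟨c, hc, c1, c2⟩ := small hF h0 hb hb
  refine ⟨c, hc, g, hg, fun z hz hz0 => ?_⟩
  have n1 : ∀ t, arc 1 t ≠ 0 := fun t => slitPlane_ne_zero (arc_mem t).1
  have n2 : ∀ t, arc (-1) t ≠ 0 := fun t => neg_ne_zero.1 (slitPlane_ne_zero (arc_mem t).2)
  have cH : ∀ e, (∀ t, arc e t ≠ 0) → Continuous (Ha F e) := fun e he => by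
    have := cont_arc e
    exact Continuous.prodMk (Continuous.prodMk (by fun_prop) (Continuous.prodMk (by fun_prop)
      (Continuous.div (by fun_prop) (by fun_prop) fun q => he _))) (by fun_prop)
  let Y : Set (E × ℂ) := ball x₀ c ×ˢ {s | s.re < Real.log b}
  have hY : Convex ℝ Y := (convex_ball _ _).prod (convex_halfSpace_re_lt _)
  have AY : SF F x₀ c ⊆ Y := fun p hp => ⟨hp.1, (Real.lt_log_iff_exp_lt hb).2 (by
    rw [← norm_exp, ← hp.2]; exact c2 _ hp.1)⟩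
  have p0 : (x₀, ((Real.log b - 1 : ℝ) : ℂ)) ∈ Y := ⟨mem_ball_self hc, by simp⟩
  obtain ⟨y, hy, e0⟩ := acyclic_star p0 (hY.starConvex p0) (sub_mono AY hz) hz0
  have mY : ∀ e, (∀ t, arc e t ≠ 0) → MapsTo (Ha F e) (Y ×ˢ Icc (0 : ℝ) 1)
      (MI F x₀ b ∩ Ou E {0}ᶜ) := fun e he q hq => ⟨⟨ball_subset_ball c1 hq.1.1, by
        simp only [dsus, Ha]
        rw [mul_div_cancel₀ _ (he _), add_sub_cancel], by
        rw [norm_exp]; exact (Real.lt_log_iff_exp_lt hb).1 hq.1.2⟩, he _⟩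
  have mA : ∀ e (D : Set ℂ), (∀ t, arc e t ∈ D) → MapsTo (Ha F e) (SF F x₀ c ×ˢ Icc (0 : ℝ) 1)
      (BI F x₀ c ∩ Ou E D) := fun e D he q hq =>
    ⟨⟨hq.1.1, by simp [Ha, hq.1.2], hq.1.2⟩, he _⟩
  have BM : BI F x₀ c ⊆ MI F x₀ b ∩ O2 F := fun p hp => ⟨⟨ball_subset_ball c1 hp.1,
    by simp [dsus, hp.2.1, hp.2.2], hp.2.2 ▸ c2 _ hp.1⟩, B_O2 hp⟩
  have Ba := (fam_BI F x₀).mono _ _ hc (c1.trans b2)
  have Ma := (fam_MI F x₀).mono _ _ hb b2
  have P1 := Pri_mem (R := ℂ) (mA 1 _ fun t => (arc_mem t).1) hz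
  have P2 := Pri_mem (R := ℂ) (mA (-1) _ fun t => (arc_mem t).2) hz
  have ends : ∀ t : ℝ, t * (1 - t) = 0 → (fun x => Ha F 1 (x, t)) = fun x => Ha F (-1) (x, t) :=
    fun t ht => by simp [Ha, arc, ht]
  have bP : ∀ {S : Set (E × ℂ)} {n : ℕ} {w : Ch ℂ (E × ℂ)}, w ∈ sub ℂ S n →
      bd (Pri (Ha F (-1)) w - Pri (Ha F 1) w) = Pri (Ha F 1) (bd w) - Pri (Ha F (-1)) (bd w) :=
    fun hw => by
      have h1 := bd_Pri (cH 1 n1).continuousOn hw
      have h2 := bd_Pri (cH (-1) n2).continuousOn hw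
      rw [ends 0 (by simp), ends 1 (by simp)] at h1
      rw [map_sub]
      linear_combination (norm := abel) h2 - h1
  have he := sub_mem (sub_mono inter_subset_left P1) (sub_mono inter_subset_left P2)
  set e := Pri (Ha F 1) z - Pri (Ha F (-1)) z with hed
  have e1 : bd (Pri (Ha F (-1)) y - Pri (Ha F 1) y) = e := by rw [bP hy, e0]
  have be : bd e = 0 := by rw [← e1, bd_bd]
  have eB : e ∈ Bd ℂ (BI F x₀ c) (k + 2) := by
    have := htpy_Bd (A := BI F x₀ c) (B := BI F x₀ c)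
      (H := fun q => ((q.1.1.1, q.2 * q.1.1.2.1, q.1.1.2.2), q.1.2)) (by fun_prop)
      (fun q hq => hq.1) (f₀ := fun p => ((p.1.1, 0, p.1.2.2), p.2)) (f₁ := id)
      (fun p _ => by simp) (fun p _ => by simp) he be
    rwa [push_id, push_congr (g' := fun p => ((p.1.1, 0, 0), p.2))
      (fun p hp => by simp only [hp.2.1]) he, hed, map_sub, push_Pri (cH 1 n1).continuousOn _ hz,
      push_Pri (cH (-1) n2).continuousOn _ hz, show ((fun p : ZE E => ((p.1.1, 0, 0), p.2)) ∘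
        Ha F 1 : _ → ZE E) = (fun p : ZE E => ((p.1.1, 0, 0), p.2)) ∘ Ha F (-1) from rfl,
      sub_self, sub_zero] at this
  obtain ⟨d, hd, e2⟩ := eB
  have hc1 := sub_mem (Pri_mem (R := ℂ) (mY (-1) n2) hy) (Pri_mem (R := ℂ) (mY 1 n1) hy)
  have fM := fam_MI F x₀
  have fB := fam_BI F x₀
  have s1 := hK _ (sub_mono (fM.mono _ _ hb b1) (sub_mem (sub_mono inter_subset_left hc1)
    (sub_mono (BM.trans inter_subset_left) hd))) (by rw [map_sub, e1, e2, sub_self])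
  rw [map_sub] at s1
  have cov : MI F x₀ a ⊆ Ou E {0}ᶜ ∪ O2 F := fun p hp => by
    refine (em (p.1.2.1 = 0)).symm.imp_right fun h => ?_
    have := hp.2.1
    simp only [dsus, h, zero_mul, add_zero] at this
    simp [O2, h, this]
  have s2 := mv_bd (open_Ou isOpen_compl_singleton) (open_O2 hF) cov
    (act_mem ((fM.inter fun _ hp => hp).inv a) g (sub_mono (inter_subset_inter_left _ Ma) hc1))
    (act_mem ((fM.inter fun _ hp => hp).inv a) g
      (sub_mono (BM.trans (inter_subset_inter_left _ Ma)) hd)) s1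
  have Q1 := act_mem (((fB.inter (O := Ou E {0}ᶜ) fun _ hp => hp).inter (O := Ou E slitPlane)
    fun _ hp => hp).inv a) g (sub_mono (fun p hp =>
      And.intro (And.intro (Ba hp.1) (slitPlane_ne_zero hp.2)) hp.2) P1)
  have Q2 := act_mem (((fB.inter (O := Ou E {0}ᶜ) fun _ hp => hp).inter (O := Ou E (-slitPlane))
    fun _ hp => hp).inv a) g (sub_mono (fun p hp =>
      And.intro (And.intro (Ba hp.1) (neg_ne_zero.1 (slitPlane_ne_zero hp.2))) hp.2) P2)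
  have s3 := push_Bd ((cont_R0 hF).mono fun _ hp => hp.2.2) ((maps_R0 a {0}ᶜ).mono_left
    fun _ hp => ⟨hp.1.1, hp.1.2, hp.2.2⟩) s2
  rw [bd_act cont_dE, e1, hed, map_sub, push_eq_self (fun p hp => Rv_zero hp.1.2.1)
    (sub_mem (sub_mono inter_subset_left Q1) (sub_mono inter_subset_left Q2))] at s3
  have s4 := mv_bd (open_Ou isOpen_slitPlane) (open_Ou isOpen_slitPlane.neg)
    (fun p hp => by have := hp.2; rwa [← slit_union] at this) Q1 Q2 s3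
  have h5 := bd_Pri (cH 1 n1).continuousOn hz
  rw [hz0, map_zero, add_zero] at h5
  rw [bd_act cont_dE, h5, map_sub] at s4
  set S := BI F x₀ a ∩ Ou E {0}ᶜ ∩ Ou E slitPlane ∩ (BI F x₀ a ∩ Ou E {0}ᶜ ∩ Ou E (-slitPlane))
  have iS : ∀ D, MapsTo dE (S ∩ Ou E D) (S ∩ Ou E D) := fun D p hp =>
    ⟨⟨⟨⟨fB.inv a hp.1.1.1.1, hp.1.1.1.2⟩, hp.1.1.2⟩, ⟨fB.inv a hp.1.1.1.1, hp.1.1.1.2⟩,
      hp.1.2.2⟩, hp.2⟩
  have mS : ∀ (t : ℝ) (D : Set ℂ), t ∈ Icc (0 : ℝ) 1 → 1 - 2 * t ≠ 0 → arc 1 t ∈ D →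
      MapsTo (fun x => Ha F 1 (x, t)) (SF F x₀ c) (S ∩ Ou E D) := fun t D ht h1 h2 p hp => by
    have h3 := Ba (mA 1 univ (fun _ => trivial) (mk_mem_prod hp ht)).1
    exact ⟨⟨⟨⟨h3, n1 t⟩, Or.inr h1⟩, ⟨h3, n1 t⟩, Or.inr (neg_ne_zero.2 h1)⟩, h2⟩
  obtain ⟨w, hw, s5⟩ := mv (open_Ou open_im.2) (open_Ou open_im.1) (fun p hp => by
      have : p.1.2.1 ∈ slitPlane ∩ -slitPlane := ⟨hp.1.2, hp.2.2⟩
      rw [slit_inter] at this
      exact this.symm)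
    (act_mem (iS _) g (push_mem (mS 1 {z | z.im < 0} (by simp) (by norm_num)
      (by norm_num [arc])) hz))
    (act_mem (iS _) g (push_mem (mS 0 {z | 0 < z.im} (by simp) (by norm_num)
      (by norm_num [arc])) hz)) s4
  have s6 := sub_eq_zero.1 (sub_empty (sub_mono (fun p hp =>
    (lt_asymm (a := (0 : ℝ)) (b := p.1.2.1.im) hp.2.2 hp.1.2).elim) s5))
  have s7 := push_Bd (g := fun p : ZE E => (p.1.1, p.2)) (S' := SF F x₀ a) (by fun_prop)
    (fun p hp => ⟨hp.1.1.1.1.1, hp.1.1.1.1.2.2⟩) (bd_mem_Bd hw)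
  have c1' : ContinuousOn (fun x => Ha F 1 (x, 1)) (SF F x₀ c) :=
    ((cH 1 n1).comp (by fun_prop)).continuousOn
  rwa [← s6, push_act (T' := dE) (h := fun p : ZE E => (p.1.1, p.2)) cont_dE (mapsTo_univ _ _)
    (by fun_prop) (fun _ _ => rfl) g (push_mem (mapsTo_univ _ _) hz), push_push _ c1' hz,
    push_eq_self (g := (fun p : ZE E => (p.1.1, p.2)) ∘ fun x => Ha F 1 (x, 1))
      (fun _ _ => rfl) hz] at s7

/-- The hyperbolic retraction. -/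
noncomputable def ret (η : ℝ) (q : ZE E × ℝ) : ZE E :=
  ((q.1.1.1, (1 - q.2 + q.2 * (max η ‖q.1.1.2.2‖ / max η ‖q.1.1.2.1‖) : ℝ) * q.1.1.2.1,
    q.1.1.2.2 / (1 - q.2 + q.2 * (max η ‖q.1.1.2.2‖ / max η ‖q.1.1.2.1‖) : ℝ)), q.1.2)

lemma ret_pos {η t a b : ℝ} (hη : 0 < η) (ht : t ∈ Icc (0 : ℝ) 1) :
    0 < 1 - t + t * (max η a / max η b) := by
  have : 0 < max η a / max η b := div_pos (lt_max_of_lt_left hη) (lt_max_of_lt_left hη)
  rcases ht.1.eq_or_lt with h | h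
  · simp [← h]
  · nlinarith [ht.2, mul_pos h this]

lemma cont_ret {η : ℝ} (hη : 0 < η) : ContinuousOn (ret η : ZE E × ℝ → _) (univ ×ˢ Icc 0 1) := by
  have h : Continuous fun q : ZE E × ℝ =>
      ((1 - q.2 + q.2 * (max η ‖q.1.1.2.2‖ / max η ‖q.1.1.2.1‖) : ℝ) : ℂ) :=
    continuous_ofReal.comp (Continuous.add (by fun_prop) (Continuous.mul (by fun_prop)
      (Continuous.div (by fun_prop) (by fun_prop) fun q => (lt_max_of_lt_left hη).ne')))
  exact ContinuousOn.prodMk (ContinuousOn.prodMk (by fun_prop) (ContinuousOn.prodMk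
    (h.continuousOn.mul (by fun_prop)) (ContinuousOn.div (by fun_prop) h.continuousOn
      fun q hq => ofReal_ne_zero.2 (ret_pos hη hq.2).ne'))) (by fun_prop)

omit [NormedAddCommGroup E] in
lemma sus_ret {η : ℝ} (hη : 0 < η) (p : ZE E) {t : ℝ} (ht : t ∈ Icc (0 : ℝ) 1) :
    dsus F (ret η (p, t)).1 = dsus F p.1 := by
  have := ofReal_ne_zero.2 (ret_pos (a := ‖p.1.2.2‖) (b := ‖p.1.2.1‖) hη ht).ne'
  simp only [dsus, ret]
  rw [mul_comm _ p.1.2.1, mul_assoc, mul_div_cancel₀ _ this]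

lemma bnd {η a b : ℝ} (hη : 0 < η) (h : a * b < η ^ 2) :
    max η b / max η a * a ≤ η := by
  rw [div_mul_eq_mul_div, div_le_iff₀ (lt_max_of_lt_left hη)]
  rcases le_total b η with h1 | h1
  · rw [max_eq_left h1]
    exact mul_le_mul_of_nonneg_left (le_max_right _ _) hη.le
  · rw [max_eq_right h1]
    nlinarith [le_max_left η a]

lemma inc (hF : Continuous F) (h0 : F x₀ = 0) {a : ℝ} (ha : 0 < a) :
    ∃ b > 0, b ≤ a ∧ SF (dsus F) (x₀, 0, 0) b ⊆ MI F x₀ a := by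
  obtain ⟨b, hb, h1, h2⟩ := small (x := (x₀, 0, 0)) (cont_sus hF) (by simp [dsus, h0]) ha ha
  exact ⟨b, hb, h1, fun p hp => ⟨((le_max_left _ _).trans_lt hp.1).trans_le h1, hp.2,
    hp.2 ▸ h2 _ hp.1⟩⟩

lemma retr (hF : Continuous F) (h0 : F x₀ = 0) {a : ℝ} (ha : 0 < a) : ∃ b > 0, b ≤ a ∧
    MapsTo (fun p => ret (a / 2) (p, 1)) (MI F x₀ b) (SF (dsus F) (x₀, 0, 0) a) := by
  have hη := half_pos ha
  have h3 : 0 < (a / 2) ^ 2 / 2 := by positivity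
  obtain ⟨b, hb, h1, h2⟩ := small hF h0 (lt_min ha h3) h3
  refine ⟨b, hb, h1.trans (min_le_left _ _), fun p hp => ⟨?_, (sus_ret hη p
    (right_mem_Icc.2 zero_le_one)).trans hp.2.1⟩⟩
  have h4 : ‖p.1.2.1‖ * ‖p.1.2.2‖ < (a / 2) ^ 2 := by
    rw [← norm_mul, show p.1.2.1 * p.1.2.2 = exp p.2 - F p.1.1 by rw [← hp.2.1, dsus]; ring]
    linarith [norm_sub_le (exp p.2) (F p.1.1), h2 _ hp.1, hp.2.2, h1.trans (min_le_right _ _)]
  have h5 := bnd hη h4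
  have h6 := bnd hη (mul_comm ‖p.1.2.1‖ _ ▸ h4)
  have h7 := ret_pos (a := ‖p.1.2.2‖) (b := ‖p.1.2.1‖) hη (right_mem_Icc.2 zero_le_one)
  simp only [mem_ball, Prod.dist_eq, ret, max_lt_iff, dist_zero_right, norm_mul, norm_div,
    norm_real, Real.norm_of_nonneg h7.le]
  refine ⟨hp.1.trans_le (h1.trans (min_le_left _ _)), ?_, ?_⟩
  · rw [sub_self, zero_add, one_mul]
    linarith
  · rw [sub_self, zero_add, one_mul, div_div_eq_mul_div, mul_div_assoc, mul_comm]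
    linarith

lemma cont_ret1 {η : ℝ} (hη : 0 < η) : Continuous fun p : ZE E => ret η (p, 1) :=
  (cont_ret hη).comp_continuous (by fun_prop) fun _ => ⟨trivial, right_mem_Icc.2 zero_le_one⟩

lemma pro_MI (hF : Continuous F) (h0 : F x₀ = 0) :
    Pro dE G k (MI F x₀) ↔ Pro dE G k (SF (dsus F) (x₀, 0, 0)) := by
  refine ⟨Pro.through (fam_SF _ _) (fam_MI _ _) fun a ha => ?_,
    Pro.through (fam_MI _ _) (fam_SF _ _) fun a ha => ?_⟩
  · obtain ⟨a', ha', -, h1⟩ := retr hF h0 ha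
    refine ⟨a', ha', _, (cont_ret1 (half_pos ha)).continuousOn, h1, fun _ _ => rfl,
      fun b' hb' => ?_⟩
    obtain ⟨b, hb, -, h2⟩ := inc hF h0 hb'
    have hm := lt_min hb (half_pos ha)
    refine ⟨_, hm, id, Prod.fst, continuousOn_id, fun p hp =>
      h2 ((fam_SF _ _).mono _ _ hm (min_le_left _ _) hp), continuousOn_fst, fun q hq =>
      (fam_SF _ _).mono _ _ hm ((min_le_right _ _).trans (half_le_self ha.le)) hq.1,
      fun _ _ => rfl, fun p hp => ?_⟩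
    have h3 := hp.1
    simp only [mem_ball, Prod.dist_eq, max_lt_iff, dist_zero_right, lt_min_iff] at h3
    simp [ret, max_eq_left h3.2.2.1.le, max_eq_left h3.2.2.2.le, ha.ne']
  · obtain ⟨a', ha', -, h1⟩ := inc hF h0 ha
    refine ⟨a', ha', id, continuousOn_id, h1, fun _ _ => rfl, fun b' hb' => ?_⟩
    obtain ⟨b, hb, -, h2⟩ := retr hF h0 hb'
    have hm := lt_min hb ha
    refine ⟨_, hm, _, ret (b' / 2), (cont_ret1 (half_pos hb')).continuousOn,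
      h2.mono_left ((fam_MI _ _).mono _ _ hm (min_le_left _ _)),
      (cont_ret (half_pos hb')).mono (prod_mono_left (subset_univ _)), fun q hq => ?_,
      fun p _ => by simp [ret], fun _ _ => rfl⟩
    have h3 := (fam_MI _ _).mono _ _ hm (min_le_right _ _) hq.1
    exact ⟨h3.1, (sus_ret (half_pos hb') q.1 hq.2).trans h3.2.1, h3.2.2⟩

/-- On `U`, annihilation by some polynomial implies annihilation away from `lam`. -/
def Q {X : Type} [PseudoMetricSpace X] (lam : ℂ) (F : X → ℂ) (U : Set X) : Prop :=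
  ∀ x ∈ U, F x = 0 → (∀ k, Pro dE G0 k (SF F x)) → ∀ k, Pro dE (Gl lam) k (SF F x)

lemma Q.homeo {X X' : Type} [PseudoMetricSpace X] [PseudoMetricSpace X'] {lam : ℂ} {F : X → ℂ}
    {F' : X' → ℂ} {U : Set X} (h : Q lam F U) (Φ : OpenPartialHomeomorph X X') {ℓ : X → ℂ}
    (hℓ : ContinuousOn ℓ Φ.source) (hΦ : ∀ z ∈ Φ.source, F' (Φ z) = exp (ℓ z) * F z) :
    Q lam F' (Φ.target ∩ Φ.symm ⁻¹' U) := fun y hy h0 h1 k => by
  have hx := Φ.map_target hy.1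
  rw [← Φ.right_inv hy.1] at h0 h1 ⊢
  rw [hΦ _ hx] at h0
  exact pro_homeo' Φ hx hℓ hΦ (h _ hy.2 (by simpa using h0)
    (fun k => pro_homeo Φ hx hℓ hΦ (h1 k)) k)

lemma Q.sus [NormedSpace ℝ E] {lam : ℂ} (h1 : lam ≠ 1) {U : Set E} (hF : Continuous F)
    (h : Q lam F U) : Q lam (dsus F) (U ×ˢ univ) := by
  rintro ⟨x, u, v⟩ hx h0 h2 k
  have hG := X_sub_one_mem_Gl h1
  by_cases hu : u = 0
  · by_cases hv : v = 0
    · subst hu hv
      have h3 : F x = 0 := by simpa [SN.dsus] using h0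
      refine (pro_MI hF h3).1 (pro_up hG hF h3 (h x hx.1 h3 fun k => ?_) k)
      cases k with
      | zero => exact pro_zero (by simpa using X_pow_sub_one_mem_G0 one_pos)
      | succ k => exact pro_down hF h3 ((pro_MI hF h3).2 (h2 _))
    · refine pro_smooth hG (cont_sus hF) h0 (N := {z | z.2.2 ≠ 0})
        ((isOpen_ne_fun (by fun_prop) continuous_const).mem_nhds hv)
        (Θ := fun q => (q.1.1, (q.2 - F q.1.1) / q.1.2.2, q.1.2.2))
        (ContinuousOn.prodMk (by fun_prop) (ContinuousOn.prodMk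
          (ContinuousOn.div (by fun_prop) (by fun_prop) fun q hq => hq.1) (by fun_prop)))
        (fun z hz w => ?_) fun z hz => ?_
      · simp only [SN.dsus]
        rw [div_mul_cancel₀ _ hz, add_sub_cancel]
      · have : z.2.2 ≠ 0 := hz
        simp [SN.dsus, this]
  · refine pro_smooth hG (cont_sus hF) h0 (N := {z | z.2.1 ≠ 0})
      ((isOpen_ne_fun (by fun_prop) continuous_const).mem_nhds hu)
      (Θ := fun q => (q.1.1, q.1.2.1, (q.2 - F q.1.1) / q.1.2.1))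
      (ContinuousOn.prodMk (by fun_prop) (ContinuousOn.prodMk (by fun_prop)
        (ContinuousOn.div (by fun_prop) (by fun_prop) fun q hq => hq.1)))
      (fun z hz w => ?_) fun z hz => ?_
    · simp only [SN.dsus]
      rw [mul_div_cancel₀ _ hz, add_sub_cancel]
    · have : z.2.1 ≠ 0 := hz
      simp [SN.dsus, this]

/-- Splitting off the first pair of variables. -/
def spl (E : Type) [TopologicalSpace E] (r : ℕ) :
    (E × (Fin r → ℂ × ℂ)) × ℂ × ℂ ≃ₜ E × (Fin (r + 1) → ℂ × ℂ) where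
  toFun z := (z.1.1, Fin.cons z.2 z.1.2)
  invFun z := ((z.1, Fin.tail z.2), z.2 0)
  left_inv z := by simp
  right_inv z := by simp
  continuous_toFun := by fun_prop
  continuous_invFun := by fun_prop

lemma Q.iter [NormedSpace ℝ E] {lam : ℂ} (h1 : lam ≠ 1) {U : Set E} (hF : Continuous F)
    (h : Q lam F U) (r : ℕ) :
    Q lam (fun z : E × (Fin r → ℂ × ℂ) => F z.1 + ∑ j, (z.2 j).1 * (z.2 j).2) (U ×ˢ univ) := by
  induction r with
  | zero =>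
    intro z hz
    exact h.homeo (F' := fun z : E × (Fin 0 → ℂ × ℂ) => F z.1 + ∑ j, (z.2 j).1 * (z.2 j).2)
      (Homeomorph.prodUnique E (Fin 0 → ℂ × ℂ)).symm.toOpenPartialHomeomorph
      (ℓ := fun _ => 0) continuousOn_const (fun z _ => by simp; rfl) z ⟨trivial, hz.1⟩
  | succ r ih =>
    intro z hz
    exact (ih.sus h1 (by fun_prop)).homeo
      (F' := fun z : E × (Fin (r + 1) → ℂ × ℂ) => F z.1 + ∑ j, (z.2 j).1 * (z.2 j).2)
      (spl E r).toOpenPartialHomeomorph (ℓ := fun _ => 0)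
      continuousOn_const (fun z _ => by simp [spl, SN.dsus, Fin.sum_univ_succ]; ring) z
      ⟨trivial, ⟨hz.1, trivial⟩, trivial⟩

end Pool.Agent.P.MP_9321be_ag.SN
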