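import Pool.Agent.P.MP_9321be_ag.NC.EAll
import Pool.Agent.P.MP_9321be_ag.SN.ETS

/-!
The eigenvalue theorem for polynomials that are stably equivalent to non-degenerate ones.
-/

namespace Pool.Agent.P.MP_9321be_ag.SN

open Pool.Agent.Lib.Helper83 Pool.Agent.P.MP_9321be_ag.ND.E Set Complex Filter Topology
  Pool.Agent.P.MP_9321be_ag.NC Pool.Agent.P.MP_9321be_ag.NC.E

namespace E

variable {σ : Type} [Fintype σ]

lemma Mx_SF {F : (σ → ℂ) → ℂ} {x : σ → ℂ} {a : ℝ} (ha : 0 < a) (δ : ℝ) : Mx F x a δ ⊆ SF F x a :=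
  fun p hp => ⟨mem_ball_iff_norm.2 (Tool.norm_lt_of_sq (x := p.1 - x) ha hp.1), hp.2.1⟩

lemma SF_Mx {F : (σ → ℂ) → ℂ} (hF : Continuous F) {x : σ → ℂ} (h0 : F x = 0) {ε δ : ℝ}
    (hε : 0 < ε) (hδ : 0 < δ) : ∃ a > 0, SF F x a ⊆ Mx F x ε δ := by
  have h1 : ∀ᶠ y : σ → ℂ in 𝓝 x, ∑ i, ‖y i - x i‖ ^ 2 < ε ^ 2 :=
    ContinuousAt.eventually_lt (Continuous.continuousAt (by fun_prop)) continuousAt_const
      (by simpa using pow_pos hε 2)
  obtain ⟨a, ha, h1⟩ := Metric.mem_nhds_iff.1 h1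
  obtain ⟨b, hb, h2, h3⟩ := small hF h0 ha hδ
  refine ⟨b, hb, fun p hp => ⟨h1 (Metric.ball_subset_ball h2 hp.1), hp.2,
    (Real.lt_log_iff_exp_lt hδ).2 ?_⟩⟩
  rw [← norm_exp, ← hp.2]
  exact h3 _ hp.1

lemma bridge {F : (σ → ℂ) → ℂ} (hF : Continuous F) {x : σ → ℂ} (h0 : F x = 0)
    {G : Submonoid (Polynomial ℂ)} {k : ℕ} : Pro dE G k (SF F x) ↔
      ∀ ε > 0, ∀ δ > 0, ∃ η > 0, Kill dk G k (Mx F x η η) (Mx F x ε δ) := by
  refine ⟨fun h ε hε δ hδ => ?_, fun h a ha => ?_⟩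
  · obtain ⟨a, ha, h1⟩ := SF_Mx hF h0 hε hδ
    obtain ⟨b, hb, h2⟩ := h a ha
    exact ⟨b, hb, Kill.mono (T := dk) h2 (Mx_SF hb b) h1⟩
  · obtain ⟨η, hη, h1⟩ := h a ha a ha
    obtain ⟨b, hb, h2⟩ := SF_Mx hF h0 hη hη
    exact ⟨b, hb, h1.mono h2 (Mx_SF ha a)⟩

lemma base [DecidableEq σ] (f : MvPolynomial σ ℂ) {lam : ℂ} (h1 : lam ≠ 1) {U : Set (σ → ℂ)}
    (hn : ∀ x ∈ U, MvPolynomial.eval x f = 0 → ¬ IsMonodromyEigenvalue f x lam) :
    Q lam (fun x => MvPolynomial.eval x f) U := fun x hx h0 h2 k =>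
  (bridge f.continuous_eval h0).2 fun ε hε δ hδ => by
    obtain ⟨η, hη, h3⟩ := (bridge f.continuous_eval h0).1 (h2 k) ε hε δ hδ
    exact lv f x h1 (hn x hx h0) hε hδ hη h3

open Fin3 in
lemma top [DecidableEq σ] (f : MvPolynomial σ ℂ) {h : σ → ℝ} {lam : ℂ} (hh : ∀ j, 0 < h j)
    (h1 : lam ≠ 1)
    (hN : NI (fun a : f.support => (a.1 : σ → ℕ)) fun a => MvPolynomial.coeff a.1 f)
    (hE : Eig3 (fun a : f.support => (a.1 : σ → ℕ)) (fun a => MvPolynomial.coeff a.1 f) h lam)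
    {U : Set (σ → ℂ)} (hU : U ∈ 𝓝 0) : ¬ Q lam (fun x => MvPolynomial.eval x f) U := by
  intro hn
  obtain ⟨e, he, κ, hκ, hN⟩ := hN
  obtain ⟨k, W, hE⟩ := hE
  obtain ⟨r, hr, hrU⟩ := Metric.mem_nhds_iff.1 (inter_mem hU (Metric.ball_mem_nhds _ he))
  obtain ⟨D, hE⟩ := (hE (W + 1)).exists
  have hL : ∀ᶠ L in atTop, ∀ j, wl h L (D + W) j < r := eventually_all.2 fun j =>
    (Real.tendsto_exp_atBot.comp (tendsto_atBot_add_const_left _ (D + W)
      (tendsto_neg_atTop_atBot.comp (tendsto_id.atTop_mul_const (hh j))))).eventually_lt_const hr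
  obtain ⟨L, ⟨η₀, h0, hE⟩, hL⟩ := (hE.and hL).exists
  have ef : ev (fun a : f.support => (a.1 : σ → ℕ)) (fun a => MvPolynomial.coeff a.1 f) =
      fun x => MvPolynomial.eval x f := funext fun x => by
    rw [MvPolynomial.eval_eq', ev, Finset.sum_coe_sort f.support
      fun a => MvPolynomial.coeff a f * mon a x]
    rfl
  refine core h1 h0 (fun x₀ hx hS ε hε δ hδ k => ?_) hE
  have hx₀ := hrU (mem_ball_zero_iff.2 ((pi_norm_lt_iff hr).2 fun j => (hx j).trans_lt (hL j)))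
  have hz : MvPolynomial.eval x₀ f = 0 := by
    rw [← congrFun ef x₀]
    exact Finset.sum_eq_zero fun a _ => mul_eq_zero_of_right _ (norm_eq_zero.1
      ((Finset.sum_eq_zero_iff_of_nonneg fun _ _ => norm_nonneg _).1 hS a (Finset.mem_univ a)))
  rw [ef]
  refine (bridge f.continuous_eval hz).1 (hn x₀ hx₀.1 hz (fun k => ?_) k) ε hε δ hδ
  refine (bridge f.continuous_eval hz).2 fun ε hε δ hδ => ?_
  rw [← ef]
  exact qu _ _ hκ hN (mem_ball_zero_iff.1 hx₀.2) hS hε hδ k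

theorem fam : S_Fam3 :=
  have hA := t_Approx (t_Level t_TC)
  have hC := t_Carr t_Zc
  have hN := t_NDNI t_TC
  t_Fam3 hN (t_Const3 (t_Step3 t_TRD (t_Retr t_Root) t_Cut) hN t_NIND t_Path) t_KGen
    (t_Gen3 t_KGen) (t_Cl3 hA t_Exact3) t_Uniq3 (t_Near3 hA) (t_Phi t_G) (t_Val t_G)
    (t_Stress t_Top hC) (t_NVApp (t_NV t_NVBase (t_NVStep t_NVGeo))) t_Loc3
    (t_Imap3 t_KGen t_Exact3) (t_Lab t_Zc hC)

open MvPolynomial ND Red3 in
theorem red [DecidableEq σ] {f : MvPolynomial σ ℂ} (h0 : coeff 0 f = 0) (hn : Nondeg f)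
    {u ω h : σ → ℝ} {s : Finset (σ →₀ ℕ)} {J : Finset σ} {al : ℚ}
    (hA : Allowed f.support u ω h s J) (hcs : Contrib (vs s J)) (hU : ∀ a, ¬ UApex (vs s J) a)
    (hal : ∑ i, u i = al) (hz : ∀ k : ℤ, al ≠ k) : exp (-(2 * Real.pi * I * al)) ≠ 1 ∧
      NI (fun a : f.support => (a.1 : σ → ℕ)) (fun a => coeff a.1 f) ∧
      Eig3 (fun a : f.support => (a.1 : σ → ℕ)) (fun a => coeff a.1 f) h
        (exp (-(2 * Real.pi * I * al))) := by
  have hN := t_NDNI t_TC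
  have hF := fam
  classical
  have hs := fun a (ha : a ∈ s) => Finset.mem_filter.1 (hA.sub ha)
  let ι : f.support ⊕ σ → σ →₀ ℕ := Sum.elim (·.1) fun j => Finsupp.single j 2
  let s' := (s.subtype (· ∈ f.support)).disjSum J
  have hι : ∀ a i, ex3 (fun a : f.support => (a.1 : σ → ℕ)) a i = ι a i := by
    rintro (a | j) i
    exacts [rfl, (congrFun (Finsupp.single_eq_pi_single j 2) i).symm]
  have hd : ∀ a ∈ s', dr (ι a) u = io _ _ a := by
    rintro (a | j) ha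
    · exact (hs _ (Finset.mem_subtype.1 (Finset.inl_mem_disjSum.1 ha))).2
    · simp [ι, io, dr, Finsupp.single_apply, (hA.h2 j (Finset.inr_mem_disjSum.1 ha)).1]
  have inj : InjOn ι s' := by
    rintro (a | i) ha (b | j) hb e
    · exact congrArg _ (Subtype.ext e)
    · exact (one_ne_zero (α := ℝ) ((hd _ ha).symm.trans (e ▸ hd _ hb))).elim
    · exact (zero_ne_one (α := ℝ) ((hd _ ha).symm.trans (e ▸ hd _ hb))).elim
    · exact congrArg _ (Finsupp.single_left_injective two_ne_zero e)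
  have img : vs s J = s'.image ι := by
    ext a
    simp only [vs, s', ι, Finset.mem_union, Finset.mem_image, Sum.exists, Finset.inl_mem_disjSum,
      Finset.inr_mem_disjSum, Finset.mem_subtype, Sum.elim_inl, Sum.elim_inr]
    exact or_congr_left ⟨fun ha => ⟨⟨a, (hs a ha).1⟩, ha, rfl⟩, fun ⟨b, hb, e⟩ => e ▸ hb⟩
  rw [img] at hcs hU
  obtain ⟨g, hg⟩ := (Submodule.mem_span_image_finset_iff_exists_fun' ℚ).1 hcs.2
  have hg' : ∀ i, ∑ a ∈ s', (g (ι a) : ℝ) * ι a i = 1 := fun i => by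
    have := congrFun hg i
    simp only [Finset.sum_apply, Pi.smul_apply, smul_eq_mul, vec, Finset.sum_image inj] at this
    exact_mod_cast this
  have hsum : ∑ a ∈ s', (g (ι a) : ℝ) * io _ _ a = al := by
    rw [← hal]
    calc _ = ∑ a ∈ s', (g (ι a) : ℝ) * dr (ι a) u :=
          Finset.sum_congr rfl fun a ha => by rw [hd a ha]
      _ = ∑ i, (∑ a ∈ s', (g (ι a) : ℝ) * ι a i) * u i := by
          simp only [dr, Finset.mul_sum, Finset.sum_mul, mul_assoc]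
          exact Finset.sum_comm
      _ = _ := by simp [hg']
  have key := hF f.support σ (fun a => a.1) (fun a => coeff a.1 f) h u ω s' (fun a => g (ι a))
    (fun a e => ?_) (ndc hn) hA.h0 (gen hA.gen) hA.u0 (fun a => hA.u1 a.1 a.2)
    (fun a e => hA.w0 a.1 (Finset.mem_filter.2 ⟨a.2, e⟩)) hA.h1
    (fun a ha => ⟨hd _ ha, hA.w1 _ (Finset.mem_subtype.1 (Finset.inl_mem_disjSum.1 ha))⟩)
    (fun j hj => hA.h2 j (Finset.inr_mem_disjSum.1 hj)) ?_
    (fun i => by simpa only [hι] using hg' i) (fun a ha i h1 h2 => ?_)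
    (fun z e => hz z (by exact_mod_cast hsum.symm.trans e))
  · rw [hsum, ofReal_ratCast] at key
    refine ⟨fun e => ?_, hN _ _ _ _ (ndc hn), key⟩
    obtain ⟨k, hk⟩ := exp_eq_one_iff.1 e
    refine hz (-k) ?_
    have : (al : ℂ) = ((-k : ℤ) : ℚ) :=
      mul_left_cancel₀ two_pi_I_ne_zero (by push_cast; linear_combination -hk)
    exact_mod_cast this
  · exact mem_support_iff.1 a.2 (by rw [show a.1 = 0 from DFunLike.coe_injective e, h0])
  · have := ((linearIndependent_algebraMap_comp_iff (S := ℝ)).2 hcs.1).comp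
      (fun a : (s' : Set (f.support ⊕ σ)) => (⟨ι a.1, Finset.mem_image_of_mem _ a.2⟩ :
        (s'.image ι : Set (σ →₀ ℕ)))) fun a b e => Subtype.ext (inj a.2 b.2 (Subtype.mk.inj e))
    have e : rv (ex3 fun a : f.support => (a.1 : σ → ℕ)) = fun a i => (ι a i : ℝ) := by
      ext a i
      rw [rv, hι]
    rw [e]
    exact this
  · have pr : ∀ j, Priv (s'.image ι) (ι a) j ↔ ι a j ≠ 0 ∧ ∀ b ∈ s', b ≠ a → ι b j = 0 := fun j =>
      and_congr_right fun _ => Finset.forall_mem_image.trans (forall₂_congr fun b hb =>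
        imp_congr_left (inj.eq_iff hb ha).not)
    simp only [hι] at h1 h2 ⊢
    by_contra hcon
    exact hU (ι a) ⟨Finset.mem_image_of_mem _ ha, i, h1, (pr i).2 ⟨by simp [h1], h2⟩,
      fun j hj => by_contra fun e => hcon ⟨j, e, (pr j).1 hj⟩⟩

end E

open MvPolynomial ND in
/-- The eigenvalue theorem in the stable setting. -/
theorem e_SN {σ τ : Type} [Fintype σ] [DecidableEq σ] [Fintype τ] [DecidableEq τ]
    (f : MvPolynomial σ ℂ) (F : MvPolynomial τ ℂ) (hF0 : coeff 0 F = 0) (hn : Nondeg F) (r : ℕ)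
    (Φ : OpenPartialHomeomorph ((σ → ℂ) × (Fin r → ℂ × ℂ)) (τ → ℂ)) (h0 : 0 ∈ Φ.source)
    (hΦ0 : Φ 0 = 0) (ℓ : (σ → ℂ) × (Fin r → ℂ × ℂ) → ℂ) (hℓ : ContinuousOn ℓ Φ.source)
    (hΦ : ∀ z ∈ Φ.source,
      eval (Φ z) F = Complex.exp (ℓ z) * (eval z.1 f + ∑ j, (z.2 j).1 * (z.2 j).2))
    (u ω h : τ → ℝ) (s : Finset (τ →₀ ℕ)) (J : Finset τ) (α : ℚ)
    (hA : Allowed F.support u ω h s J) (hc : Contrib (vs s J)) (hU : ∀ a, ¬ UApex (vs s J) a)
    (hs : ∑ i, u i = α) (hz : ∀ k : ℤ, α ≠ k) :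
    NearEig f (Complex.exp (-(2 * Real.pi * Complex.I * α))) := by
  obtain ⟨h1, h2, h3⟩ := E.red hF0 hn hA hc hU hs hz
  intro U hU
  by_contra hn
  push Not at hn
  have t0 := Φ.map_source h0
  refine E.top F hA.h0 h1 h2 h3 ?_
    (((E.base f h1 hn).iter h1 f.continuous_eval r).homeo (F' := fun x => eval x F) Φ hℓ hΦ)
  rw [← hΦ0]
  refine inter_mem (Φ.open_target.mem_nhds t0) (Φ.continuousAt_symm t0 ?_)
  rw [Φ.left_inv h0]
  exact prod_mem_nhds hU univ_mem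

end Pool.Agent.P.MP_9321be_ag.SN
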