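import Pool.Agent.P.MP_9321be_ag.NC.LV

/-!
Annihilation on shrinking families of sets; local homeomorphisms, smooth points and the double
suspension `F x + u v`.
-/

namespace Pool.Agent.P.MP_9321be_ag.SN

open Pool.Agent.Lib.Helper83 Set Filter Topology Complex NC Metric

section Pro

variable {Y Y' : Type} [TopologicalSpace Y] [TopologicalSpace Y'] {T : Y → Y} {T' : Y' → Y'}
  {G : Submonoid (Polynomial ℂ)} {k : ℕ} {S : ℝ → Set Y} {S' : ℝ → Set Y'}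

/-- A shrinking family of invariant sets. -/
structure Fam (T : Y → Y) (S : ℝ → Set Y) : Prop where
  cont : Continuous T
  mono : ∀ a b, 0 < a → a ≤ b → S a ⊆ S b
  inv : ∀ a, MapsTo T (S a) (S a)

/-- Annihilation in the family. -/
def Pro (T : Y → Y) (G : Submonoid (Polynomial ℂ)) (k : ℕ) (S : ℝ → Set Y) : Prop :=
  ∀ a > 0, ∃ b > 0, Kill T G k (S b) (S a)

lemma Fam.inter (h : Fam T S) {O : Set Y} (hO : MapsTo T O O) : Fam T fun a => S a ∩ O :=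
  ⟨h.cont, fun a b ha hab => inter_subset_inter_left _ (h.mono a b ha hab),
    fun a => (h.inv a).inter_inter hO⟩

lemma Pro.congr {S₁ : ℝ → Set Y} (h : Pro T G k S) (e : ∀ a, S a = S₁ a) : Pro T G k S₁ :=
  funext e ▸ h

lemma pro_zero (hG : Polynomial.X - 1 ∈ G) : Pro T G 0 S := fun _ _ => ⟨1, one_pos, kill_zero hG⟩

variable [Nonempty Y]

lemma Pro.through (hS : Fam T S) (hS' : Fam T' S')
    (h : ∀ a > 0, ∃ a' > 0, ∃ s : Y' → Y, ContinuousOn s (S' a') ∧ MapsTo s (S' a') (S a) ∧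
      (∀ y ∈ S' a', s (T' y) = T (s y)) ∧ ∀ b' > 0, ∃ b > 0, ∃ (p : Y → Y') (H : Y × ℝ → Y),
        ContinuousOn p (S b) ∧ MapsTo p (S b) (S' b') ∧ ContinuousOn H (S b ×ˢ Icc (0 : ℝ) 1) ∧
        MapsTo H (S b ×ˢ Icc (0 : ℝ) 1) (S a) ∧ (∀ x ∈ S b, H (x, 0) = x) ∧
        ∀ x ∈ S b, H (x, 1) = s (p x))
    (hP : Pro T' G k S') : Pro T G k S := fun a ha => by
  obtain ⟨a', ha', s, s1, s2, s3, h⟩ := h a ha
  obtain ⟨c, hc, hK⟩ := hP a' ha'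
  obtain ⟨b, hb, p, H, p1, p2, h1, h2, h3, h4⟩ := h _ (lt_min hc ha')
  exact ⟨b, hb, kill_through hS.cont hS'.cont (hS.inv a)
    (hS'.mono _ _ (lt_min hc ha') (min_le_right _ _)) (hS'.inv a') p1 p2 s1 s2 s3 h1 h2 h3 h4
    (hK.mono (hS'.mono _ _ (lt_min hc ha') (min_le_left _ _)) subset_rfl)⟩

lemma pro_union (hG : Polynomial.X - 1 ∈ G) (hS : Fam T S) {O₁ O₂ : Set Y} (o₁ : IsOpen O₁)
    (o₂ : IsOpen O₂) (i₁ : MapsTo T O₁ O₁) (i₂ : MapsTo T O₂ O₂) (cov : ∀ a, S a ⊆ O₁ ∪ O₂)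
    (k₁ : ∀ k, Pro T G k fun a => S a ∩ O₁) (k₂ : ∀ k, Pro T G k fun a => S a ∩ O₂)
    (k₃ : ∀ k, Pro T G k fun a => S a ∩ (O₁ ∩ O₂)) : ∀ k, Pro T G k S
  | 0 => pro_zero hG
  | k + 1 => fun a ha => by
    obtain ⟨b₁, h₁, k₁⟩ := k₁ (k + 1) a ha
    obtain ⟨b₂, h₂, k₂⟩ := k₂ (k + 1) a ha
    have hm : 0 < min a (min b₁ b₂) := lt_min ha (lt_min h₁ h₂)
    obtain ⟨b₃, h₃, k₃⟩ := k₃ k _ hm
    have m₁ := hS.mono _ _ (lt_min hm h₃) (min_le_left _ _)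
    refine ⟨_, lt_min hm h₃, kill_union (V := S b₃ ∩ (O₁ ∩ O₂)) hS.cont o₁ o₂ (cov _)
      (m₁.trans (hS.mono _ _ hm (min_le_left _ _))) (hS.inv a) ((hS.inter i₁).inv _)
      ((hS.inter i₂).inv _) (inter_subset_inter_left _ m₁) (inter_subset_inter_left _ m₁)
      (fun y hy => ⟨hS.mono _ _ (lt_min hm h₃) (min_le_right _ _) hy.1.1, hy.1.2, hy.2.2⟩)
      (k₁.mono (inter_subset_inter_left _ (hS.mono _ _ hm
        ((min_le_right _ _).trans (min_le_left _ _)))) inter_subset_left)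
      (k₂.mono (inter_subset_inter_left _ (hS.mono _ _ hm
        ((min_le_right _ _).trans (min_le_right _ _)))) inter_subset_left)
      (k₃.mono subset_rfl fun y hy => ⟨⟨hy.1, hy.2.1⟩, hy.1, hy.2.2⟩)⟩

/-- The connecting step of the Mayer-Vietoris sequence. -/
lemma mv {A O₁ O₂ : Set Y} (o₁ : IsOpen O₁) (o₂ : IsOpen O₂) (cov : A ⊆ O₁ ∪ O₂)
    {c₁ c₂ : Ch ℂ Y} (h₁ : c₁ ∈ sub ℂ (A ∩ O₁) k) (h₂ : c₂ ∈ sub ℂ (A ∩ O₂) k)
    (h : c₁ - c₂ ∈ Bd ℂ A k) :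
    ∃ y ∈ sub ℂ (A ∩ O₁) (k + 1), c₁ - bd y ∈ sub ℂ (A ∩ O₁ ∩ (A ∩ O₂)) k := by
  obtain ⟨b, hb, e⟩ := h
  obtain ⟨y₁, g₁, y₂, g₂, d, -, hd⟩ := split o₁ o₂ cov hb h₁ (neg_mem h₂) (by rw [e]; abel)
  have h3 := congrArg bd hd
  rw [bd_bd, map_sub, map_sub, e] at h3
  refine ⟨y₁, g₁, sub_inter (sub_mem h₁ (bd_mem g₁)) ?_⟩
  rw [show c₁ - bd y₁ = c₂ + bd y₂ by linear_combination (norm := abel) -h3]
  exact add_mem h₂ (bd_mem g₂)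

lemma mv_bd {A O₁ O₂ : Set Y} (o₁ : IsOpen O₁) (o₂ : IsOpen O₂) (cov : A ⊆ O₁ ∪ O₂)
    {c₁ c₂ : Ch ℂ Y} (h₁ : c₁ ∈ sub ℂ (A ∩ O₁) (k + 1)) (h₂ : c₂ ∈ sub ℂ (A ∩ O₂) (k + 1))
    (h : c₁ - c₂ ∈ Bd ℂ A (k + 1)) : bd c₁ ∈ Bd ℂ (A ∩ O₁ ∩ (A ∩ O₂)) k := by
  obtain ⟨y, -, hy⟩ := mv o₁ o₂ cov h₁ h₂ h
  simpa using bd_mem_Bd hy

lemma push_Pri {Z : Type} [TopologicalSpace Z] {A : Set Y} {H : Y × ℝ → Y'}
    (hH : ContinuousOn H (A ×ˢ Icc (0 : ℝ) 1)) (φ : Y' → Z) {c : Ch ℂ Y} (hc : c ∈ sub ℂ A k) :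
    push φ (Pri H c) = Pri (φ ∘ H) c := by
  refine sub_eq (push φ ∘ₗ Pri H) (Pri (φ ∘ H)) (fun s hs => ?_) hc
  show push φ (nPri.op H _) = nPri.op _ _
  rw [NatOp.op_sx, NatOp.op_sx, push_push φ (hH.comp ((ext_cont s).prodMap continuousOn_id)
    fun p hp => ⟨ext_maps hs hp.1, hp.2⟩) (nPri.model_mem k)]
  rfl

end Pro

variable {E E' : Type} [PseudoMetricSpace E] [PseudoMetricSpace E']
  {G : Submonoid (Polynomial ℂ)} {k : ℕ} {F : E → ℂ} {F' : E' → ℂ} {x₀ : E}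

/-- The deck transformation. -/
noncomputable def dE (p : E × ℂ) : E × ℂ := (p.1, p.2 + 2 * Real.pi * I)

/-- The canonical Milnor fibres at `x₀`. -/
def SF (F : E → ℂ) (x₀ : E) (a : ℝ) : Set (E × ℂ) := {p | p.1 ∈ ball x₀ a ∧ F p.1 = exp p.2}

lemma cont_dE : Continuous (dE : E × ℂ → E × ℂ) := by unfold dE; fun_prop

lemma fam_SF (F : E → ℂ) (x₀ : E) : Fam dE (SF F x₀) :=
  ⟨cont_dE, fun _ _ _ h _ hp => ⟨ball_subset_ball h hp.1, hp.2⟩,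
    fun _ _ hp => ⟨hp.1, by simpa [dE, exp_add] using hp.2⟩⟩

/-- Invariance under local homeomorphisms and units. -/
lemma pro_homeo (Φ : OpenPartialHomeomorph E E') (h0 : x₀ ∈ Φ.source) {ℓ : E → ℂ}
    (hℓ : ContinuousOn ℓ Φ.source) (hΦ : ∀ z ∈ Φ.source, F' (Φ z) = exp (ℓ z) * F z)
    (h : Pro dE G k (SF F' (Φ x₀))) : Pro dE G k (SF F x₀) := by
  have : Nonempty E := ⟨x₀⟩
  refine h.through (fam_SF _ _) (fam_SF _ _) fun a ha => ?_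
  have t0 := Φ.map_source h0
  obtain ⟨a', ha', h1⟩ := Metric.mem_nhds_iff.1 (inter_mem (Φ.open_target.mem_nhds t0)
    (Φ.continuousAt_symm t0 (by rw [Φ.left_inv h0]; exact ball_mem_nhds x₀ ha)))
  have cs : ContinuousOn (fun p : E' × ℂ => Φ.symm p.1) (SF F' (Φ x₀) a') :=
    Φ.continuousOn_symm.comp continuousOn_fst fun p hp => (h1 hp.1).1
  refine ⟨a', ha', fun p => (Φ.symm p.1, p.2 - ℓ (Φ.symm p.1)), cs.prodMk (continuousOn_snd.sub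
    (hℓ.comp cs fun p hp => Φ.map_target (h1 hp.1).1)), fun p hp => ⟨(h1 hp.1).2, ?_⟩,
    fun p _ => by simp only [dE]; congr 1; ring, fun b' hb' => ?_⟩
  · have := hΦ _ (Φ.map_target (h1 hp.1).1)
    rw [Φ.right_inv (h1 hp.1).1, hp.2] at this
    rw [exp_sub, this, mul_div_cancel_left₀ _ (exp_ne_zero _)]
  obtain ⟨b, hb, h2⟩ := Metric.mem_nhds_iff.1 (inter_mem (inter_mem (Φ.open_source.mem_nhds h0)
    (ball_mem_nhds x₀ ha)) (Φ.continuousAt h0 (ball_mem_nhds _ hb')))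
  have m : MapsTo Prod.fst (SF F x₀ b) Φ.source := fun p hp => (h2 hp.1).1.1
  refine ⟨b, hb, fun p => (Φ p.1, p.2 + ℓ p.1), Prod.fst,
    (Φ.continuousOn.comp continuousOn_fst m).prodMk
      (continuousOn_snd.add (hℓ.comp continuousOn_fst m)), fun p hp => ⟨(h2 hp.1).2, ?_⟩,
    continuousOn_fst, fun q hq => ⟨(h2 hq.1.1).1.2, hq.1.2⟩, fun _ _ => rfl,
    fun p hp => by simp [Φ.left_inv (m hp)]⟩
  rw [hΦ _ (m hp), hp.2, exp_add, mul_comm]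

lemma pro_homeo' (Φ : OpenPartialHomeomorph E E') (h0 : x₀ ∈ Φ.source) {ℓ : E → ℂ}
    (hℓ : ContinuousOn ℓ Φ.source) (hΦ : ∀ z ∈ Φ.source, F' (Φ z) = exp (ℓ z) * F z)
    (h : Pro dE G k (SF F x₀)) : Pro dE G k (SF F' (Φ x₀)) := by
  refine pro_homeo Φ.symm (Φ.map_source h0) (ℓ := fun y => -ℓ (Φ.symm y))
    (hℓ.comp Φ.continuousOn_symm Φ.mapsTo_symm).neg (fun y hy => ?_) (by rwa [Φ.left_inv h0])
  have := hΦ _ (Φ.map_target hy)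
  rw [Φ.right_inv hy] at this
  rw [this, ← mul_assoc, ← exp_add, neg_add_cancel, exp_zero, one_mul]

/-- Points where the function is a coordinate. -/
lemma pro_smooth (hG : Polynomial.X - 1 ∈ G) (hF : Continuous F) (h0 : F x₀ = 0) {N : Set E}
    (hN : N ∈ 𝓝 x₀) {Θ : E × ℂ → E} (hΘ : ContinuousOn Θ (N ×ˢ univ))
    (h1 : ∀ z ∈ N, ∀ w, F (Θ (z, w)) = w) (h2 : ∀ z ∈ N, Θ (z, F z) = z) :
    Pro dE G k (SF F x₀) := fun a ha => by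
  have : Nonempty E := ⟨x₀⟩
  have h3 : Θ ⁻¹' ball x₀ a ∈ 𝓝 (x₀, (0 : ℂ)) := hΘ.continuousAt (prod_mem_nhds hN univ_mem) (by
    rw [← h0, h2 _ (mem_of_mem_nhds hN)]
    exact ball_mem_nhds _ ha)
  obtain ⟨U, hU, V, hV, hUV⟩ := mem_nhds_prod_iff.1 h3
  obtain ⟨r, hr, hV⟩ := Metric.mem_nhds_iff.1 hV
  obtain ⟨b, hb, h4⟩ := Metric.mem_nhds_iff.1 (inter_mem (inter_mem hN hU)
    (hF.continuousAt (h0 ▸ ball_mem_nhds (0 : ℂ) hr)))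
  refine ⟨b, hb, kill_htpy (N := 1) cont_dE (by simpa using hG)
    (H := fun q => (Θ (q.1.1, exp (q.1.2 + 2 * Real.pi * I * q.2)), q.1.2 + 2 * Real.pi * I * q.2))
    ((hΘ.comp (by fun_prop) fun q hq => ⟨(h4 hq.1.1).1.1, trivial⟩).prodMk (by fun_prop))
    (fun q hq => ⟨hUV ⟨(h4 hq.1.1).1.2, hV ?_⟩, h1 _ (h4 hq.1.1).1.1 _⟩)
    (fun p hp => by simp [← hp.2, h2 _ (h4 hp.1).1.1])
    fun p hp => by simp [dE, exp_add, ← hp.2, h2 _ (h4 hp.1).1.1]⟩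
  have := (h4 hq.1.1).2
  rw [mem_preimage, hq.1.2, h0, mem_ball_zero_iff, norm_exp] at this
  simpa [norm_exp] using this

end Pool.Agent.P.MP_9321be_ag.SN
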